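import Pool.Agent.H89.FV.Iter

/-! Cells: the deterministic part. -/

namespace Pool.Agent.H89.FV

open MeasureTheory

variable {m : ℕ}

/-- the `l`-th time cell -/
def cell (t : ℝ) (n : ℕ) (l : ℕ) : Set ℝ := Set.Ioc (t * l / n) (t * (l + 1) / n)

/-- atoms in the cell `l` with pattern `S` on the levels `0, …, m` -/
def Bx (t : ℝ) (n : ℕ) (l : ℕ) (S : Finset (Fin (m + 1))) : Set Atom :=
  {a | a.1 ∈ cell t n l ∧ ∀ x : Fin (m + 1), part a x = decide (x ∈ S)}

/-- the event that in every cell `l` there is exactly one atom, of pattern `y l`, or none. -/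
def good (A : Set Atom) (t : ℝ) {n : ℕ} (y : Fin n → Finset (Fin (m + 1))) : Prop :=
  ∀ (l : Fin n) (S : {S : Finset (Fin (m + 1)) // 2 ≤ S.card}),
    (A ∩ Bx t n l S.1).encard = (if y l = S.1 then 1 else 0 : ℕ)

lemma mem_cell {t s : ℝ} {n : ℕ} (ht : 0 < t) (hs : 0 < s) (hst : s ≤ t) :
    0 < n → ∃ l : Fin n, s ∈ cell t n l := by
  intro hn
  have hn' : (0 : ℝ) < n := by exact_mod_cast hn
  have hx : 0 < s * n / t := by positivity
  have h1 : 0 < ⌈s * n / t⌉₊ := Nat.ceil_pos.2 hx
  have h2 : ⌈s * n / t⌉₊ ≤ n := by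
    apply Nat.ceil_le.2
    rw [div_le_iff₀ ht]
    nlinarith
  obtain ⟨c, hc⟩ := Nat.exists_eq_succ_of_ne_zero h1.ne'
  refine ⟨⟨c, by omega⟩, ?_⟩
  have h3 : (c : ℝ) < s * n / t := by
    apply Nat.lt_ceil.1
    omega
  have h4 : s * n / t ≤ (c : ℝ) + 1 := by
    have := Nat.le_ceil (s * n / t)
    rw [hc] at this
    push_cast at this
    exact this
  unfold cell
  rw [lt_div_iff₀ ht] at h3
  rw [div_le_iff₀ ht] at h4
  constructor
  · rw [div_lt_iff₀ hn']
    simp only
    linarith
  · rw [le_div_iff₀ hn']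
    simp only
    linarith

lemma cell_lt {t : ℝ} {n : ℕ} (ht : 0 < t) {l l' : ℕ} (hl : l < l') {s s' : ℝ}
    (h : s ∈ cell t n l) (h' : s' ∈ cell t n l') : s < s' := by
  have h1 : s ≤ t * (l + 1) / n := h.2
  have h2 : t * l' / n < s' := h'.1
  have h3 : t * (l + 1) / n ≤ t * l' / n := by
    apply div_le_div_of_nonneg_right _ (Nat.cast_nonneg n)
    apply mul_le_mul_of_nonneg_left _ ht.le
    exact_mod_cast hl
  linarith

lemma cell_mem {t : ℝ} {n : ℕ} (ht : 0 < t) (l : Fin n) {s : ℝ} (h : s ∈ cell t n l) :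
    0 < s ∧ s ≤ t := by
  have hn : (0 : ℝ) < n := by
    have := l.2
    exact_mod_cast (show 0 < n by omega)
  constructor
  · have h1 : t * (l : ℕ) / n < s := h.1
    have : 0 ≤ t * ((l : ℕ) : ℝ) / n := by positivity
    linarith
  · have h2 : s ≤ t * ((l : ℕ) + 1) / n := h.2
    have h3 : t * (((l : ℕ) : ℝ) + 1) / n ≤ t := by
      rw [div_le_iff₀ hn]
      apply mul_le_mul_of_nonneg_left _ ht.le
      exact_mod_cast l.2
    linarith

lemma part_JS (a : Atom) (S : Finset (Fin (m + 1)))
    (h : ∀ x : Fin (m + 1), part a x = decide (x ∈ S)) (y : ℕ) (hy : y ≤ m) :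
    part a y = JS S y := by
  have h1 := h ⟨y, by omega⟩
  have h2 := JS_fin S ⟨y, by omega⟩
  simp only at h1 h2
  rw [h1, h2]

lemma rel_JS (S : Finset (Fin (m + 1))) : Rel (JS S) m ↔ 2 ≤ S.card := by
  unfold Rel
  rw [Nat.count_eq_card_filter_range]
  have : ((Finset.range (m + 1)).filter fun y => JS S y = true) = S.map Fin.valEmbedding := by
    ext y
    simp only [Finset.mem_filter, Finset.mem_range, Finset.mem_map, Fin.valEmbedding_apply]
    constructor
    · rintro ⟨h1, h2⟩
      unfold JS at h2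
      rw [decide_eq_true_iff] at h2
      obtain ⟨h, hh⟩ := h2
      exact ⟨_, hh, rfl⟩
    · rintro ⟨a, ha, rfl⟩
      refine ⟨a.2, ?_⟩
      rw [JS_fin]
      simpa using ha
  rw [this, Finset.card_map]

lemma back_append (l l' : List Atom) (x : ℕ) : back (l ++ l') x = back l (back l' x) := by
  unfold back
  rw [List.foldr_append]

/-- On the good event the ancestors are given by `Psi y`. -/
theorem good_anc (A : Set Atom) {t : ℝ} (ht : 0 < t) {n : ℕ} (hn : 0 < n)
    (y : Fin n → Finset (Fin (m + 1))) (hy : ∀ l, y l = ∅ ∨ 2 ≤ (y l).card)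
    (hg : good A t y) (l0 : List Atom) (hl0 : History A t m l0) (x : Fin (m + 1)) :
    Anc A t x (Psi y x) := by
  classical
  have hex : ∀ l : Fin n, ∃ g : List Atom, g.length ≤ 1 ∧
      (∀ a, a ∈ g ↔ (y l ≠ ∅ ∧ a ∈ A ∩ Bx t n l (y l))) ∧
      (∀ z : Fin (m + 1), back g z = sdF (y l) z) := by
    intro l
    by_cases h0 : y l = ∅
    · refine ⟨[], by simp, by simp [h0], ?_⟩
      intro z
      rw [h0, sdF_empty]
      rfl
    · have h2 : 2 ≤ (y l).card := by
        rcases hy l with h | h
        · exact absurd h h0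
        · exact h
      have h1 := hg l ⟨y l, h2⟩
      simp only [if_true, Nat.cast_one] at h1
      obtain ⟨a, ha⟩ := Set.encard_eq_one.1 h1
      refine ⟨[a], by simp, ?_, ?_⟩
      · intro b
        rw [List.mem_singleton, ha, Set.mem_singleton_iff]
        simp [h0]
      · intro z
        have hm : a ∈ A ∩ Bx t n l (y l) := by rw [ha]; rfl
        show shiftDown (part a) z = shiftDown (JS (y l)) z
        exact sd_congr _ _ m z (Nat.lt_succ_iff.1 z.2) (fun w hw => part_JS a _ hm.2.2 w hw)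
  choose g hg1 hg2 hg3 using hex
  set L := (List.finRange n).flatMap g with hL
  have hsort : L.Pairwise (fun a b => a.1 < b.1) := by
    rw [hL, List.pairwise_flatMap]
    constructor
    · intro l _
      have h1 := hg1 l
      match hgl : g l with
      | [] => exact List.Pairwise.nil
      | [a] => exact List.pairwise_singleton _ _
      | a :: b :: r => rw [hgl] at h1; simp at h1
    · refine (List.pairwise_lt_finRange n).imp ?_
      intro l l' hll a ha b hb
      have ha' := ((hg2 l a).1 ha).2.2.1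
      have hb' := ((hg2 l' b).1 hb).2.2.1
      exact cell_lt ht hll ha' hb'
  have hmem : ∀ a, a ∈ L ↔ (a ∈ A ∧ 0 < a.1 ∧ a.1 ≤ t ∧ Rel (part a) m) := by
    intro a
    rw [hL, List.mem_flatMap]
    constructor
    · rintro ⟨l, _, ha⟩
      obtain ⟨h0, h1, h2, h3⟩ := (hg2 l a).1 ha
      obtain ⟨h4, h5⟩ := cell_mem ht l h2
      refine ⟨h1, h4, h5, ?_⟩
      rw [rel_congr (part a) (JS (y l)) m m le_rfl (fun w hw => part_JS a _ h3 w hw), rel_JS]
      rcases hy l with h | h
      · exact absurd h h0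
      · exact h
    · rintro ⟨h1, h2, h3, h4⟩
      obtain ⟨l, hl⟩ := mem_cell ht h2 h3 hn
      set S : Finset (Fin (m + 1)) := Finset.univ.filter (fun x => part a x = true) with hS
      have hp : ∀ x : Fin (m + 1), part a x = decide (x ∈ S) := by
        intro x
        rw [hS]
        simp
      have hc : 2 ≤ S.card := by
        rw [← rel_JS]
        exact (rel_congr (part a) (JS S) m m le_rfl (fun w hw => part_JS a _ hp w hw)).1 h4
      have h5 := hg l ⟨S, hc⟩
      simp only at h5
      have hin : a ∈ A ∩ Bx t n l S := ⟨h1, hl, hp⟩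
      have h6 : y l = S := by
        by_contra hne
        rw [if_neg hne] at h5
        simp only [Nat.cast_zero] at h5
        rw [Set.encard_eq_zero] at h5
        rw [h5] at hin
        exact hin
      refine ⟨l, List.mem_finRange l, (hg2 l a).2 ⟨?_, ?_⟩⟩
      · rw [h6]
        intro h
        rw [h] at hc
        simp at hc
      · rw [h6]; exact hin
  have hLeq : l0 = L := hist_uniq A t m l0 L hl0 ⟨hsort, hmem⟩
  obtain ⟨lx, hlx, hbk⟩ := hist_restr A t x m l0 (Nat.lt_succ_iff.1 x.2) hl0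
  refine ⟨lx, hlx, ?_⟩
  rw [hbk x le_rfl, hLeq]
  unfold Psi
  rw [List.ofFn_eq_map, hL]
  generalize List.finRange n = ls
  induction ls with
  | nil => rfl
  | cons l r ih =>
    rw [List.flatMap_cons, back_append, ih, List.map_cons, List.foldr_cons, hg3]

end Pool.Agent.H89.FV
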