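import Pool.Agent.H89.FV.Cells1

/-! Cells: probabilities. -/

namespace Pool.Agent.H89.FV

open MeasureTheory
open scoped ENNReal

set_option linter.style.haveILetI false
set_option linter.unusedSectionVars false

variable {m : ℕ}

lemma meas_part (x : ℕ) : MeasurableSet {a : Atom | part a x = true} := by
  have : {a : Atom | part a x = true} = {a : Atom | a.2.2 x < a.2.1} := by
    ext a
    simp [part]
  rw [this]
  exact measurableSet_lt (by fun_prop) (by fun_prop)

lemma meas_Bx (t : ℝ) (n l : ℕ) (S : Finset (Fin (m + 1))) : MeasurableSet (Bx t n l S) := by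
  have : Bx t n l S = (Prod.fst ⁻¹' (cell t n l)) ∩ ⋂ x : Fin (m + 1),
      (if x ∈ S then {a : Atom | part a x = true} else {a : Atom | part a x = true}ᶜ) := by
    ext a
    simp only [Bx, Set.mem_ofPred_eq, Set.mem_inter_iff, Set.mem_preimage, Set.mem_iInter]
    apply and_congr_right
    intro _
    apply forall_congr'
    intro x
    split_ifs with h
    · simp [h]
    · simp [h]
  rw [this]
  refine (measurable_fst measurableSet_Ioc).inter (MeasurableSet.iInter fun x => ?_)
  split_ifs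
  · exact meas_part x
  · exact (meas_part x).compl

/-- the marks part of the box -/
def Dx (S : Finset (Fin (m + 1))) : Set (ℝ × (ℕ → ℝ)) :=
  {p | ∀ x : Fin (m + 1), decide (p.2 x < p.1) = decide (x ∈ S)}

lemma meas_Dx (S : Finset (Fin (m + 1))) : MeasurableSet (Dx S) := by
  have : Dx S = ⋂ x : Fin (m + 1),
      (if x ∈ S then {p : ℝ × (ℕ → ℝ) | p.2 x < p.1} else {p : ℝ × (ℕ → ℝ) | p.2 x < p.1}ᶜ) := by
    ext p
    simp only [Dx, Set.mem_ofPred_eq, Set.mem_iInter]
    apply forall_congr'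
    intro x
    split_ifs with h
    · simp [h]
    · simp [h]
  rw [this]
  refine MeasurableSet.iInter fun x => ?_
  have h1 : MeasurableSet {p : ℝ × (ℕ → ℝ) | p.2 x < p.1} :=
    measurableSet_lt (by fun_prop) (by fun_prop)
  split_ifs
  · exact h1
  · exact h1.compl

lemma unif_Iio {u : ℝ} (hu1 : u ≤ 1) : unif (Set.Iio u) = ENNReal.ofReal u := by
  unfold unif
  rw [Measure.restrict_apply measurableSet_Iio]
  have : Set.Iio u ∩ Set.Icc (0 : ℝ) 1 = Set.Ico 0 u := by
    ext z
    simp only [Set.mem_inter_iff, Set.mem_Iio, Set.mem_Icc, Set.mem_Ico]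
    constructor
    · rintro ⟨h1, h2, h3⟩; exact ⟨h2, h1⟩
    · rintro ⟨h1, h2⟩; exact ⟨h2, h1, by linarith⟩
  rw [this, Real.volume_Ico, sub_zero]

lemma unif_Ici {u : ℝ} (hu : 0 < u) : unif (Set.Ici u) = ENNReal.ofReal (1 - u) := by
  unfold unif
  rw [Measure.restrict_apply measurableSet_Ici]
  have : Set.Ici u ∩ Set.Icc (0 : ℝ) 1 = Set.Icc u 1 := by
    ext z
    simp only [Set.mem_inter_iff, Set.mem_Ici, Set.mem_Icc]
    constructor
    · rintro ⟨h1, h2, h3⟩; exact ⟨h1, h3⟩
    · rintro ⟨h1, h2⟩; exact ⟨h1, by linarith, h2⟩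
  rw [this, Real.volume_Icc]

lemma marks_prob {u : ℝ} (hu : 0 < u) (hu1 : u ≤ 1) (S : Finset (Fin (m + 1))) :
    (Measure.infinitePi fun _ : ℕ => unif) (Prod.mk u ⁻¹' Dx S) =
      ENNReal.ofReal (u ^ S.card * (1 - u) ^ (Sᶜ).card) := by
  classical
  have h1 : Prod.mk u ⁻¹' Dx S = ((Finset.range (m + 1) : Finset ℕ) : Set ℕ).pi
      (fun x => if JS S x = true then Set.Iio u else Set.Ici u) := by
    ext w
    simp only [Dx, Set.mem_preimage, Set.mem_ofPred_eq, Set.mem_pi, Finset.coe_range, Set.mem_Iio]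
    constructor
    · intro h x hx
      have h2 := h ⟨x, hx⟩
      have h3 := JS_fin S ⟨x, hx⟩
      simp only at h2 h3
      rw [← h3] at h2
      split_ifs with h4
      · rw [h4] at h2
        exact of_decide_eq_true h2
      · have h5 : JS S x = false := by simpa using h4
        rw [h5] at h2
        have := of_decide_eq_false h2
        exact not_lt.1 this
    · intro h x
      have h2 := h x x.2
      have h3 := JS_fin S x
      rw [h3] at h2
      by_cases hx : x ∈ S
      · simp only [hx, decide_true, if_true] at h2 ⊢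
        simpa using h2
      · simp only [hx, decide_false] at h2 ⊢
        simpa using h2
  rw [h1, Measure.infinitePi_pi]
  · have h2 : ∀ x ∈ Finset.range (m + 1), unif (if JS S x = true then Set.Iio u else Set.Ici u) =
        (if JS S x = true then ENNReal.ofReal u else ENNReal.ofReal (1 - u)) := by
      intro x _
      split_ifs
      · exact unif_Iio hu1
      · exact unif_Ici hu
    rw [Finset.prod_congr rfl h2, Finset.prod_range
      (fun x => if JS S x = true then ENNReal.ofReal u else ENNReal.ofReal (1 - u))]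
    have h3 : ∀ i : Fin (m + 1), (if JS S i = true then ENNReal.ofReal u
        else ENNReal.ofReal (1 - u)) = if i ∈ S then ENNReal.ofReal u
        else ENNReal.ofReal (1 - u) := by
      intro i
      rw [JS_fin]
      simp
    rw [Finset.prod_congr rfl (fun i _ => h3 i), Finset.prod_ite, Finset.prod_const,
      Finset.prod_const]
    have h4 : (Finset.univ.filter fun i => i ∈ S) = S := by ext; simp
    have h5 : (Finset.univ.filter fun i => i ∉ S) = Sᶜ := by ext; simp
    rw [h4, h5, ← ENNReal.ofReal_pow hu.le, ← ENNReal.ofReal_pow (by linarith),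
      ← ENNReal.ofReal_mul (pow_nonneg hu.le _)]
  · intro x _
    split_ifs
    · exact measurableSet_Iio
    · exact measurableSet_Ici

section

variable {nu : Measure ℝ} [SFinite nu] (hs : ∀ᵐ u ∂nu, 0 < u ∧ u ≤ 1)
  (hi : Integrable (fun u : ℝ => u) nu)
include hs hi

lemma intensity_Bx {t : ℝ} (ht : 0 < t) {n : ℕ} (l : ℕ) (S : Finset (Fin (m + 1)))
    (hS : 2 ≤ S.card) :
    intensity nu (Bx t n l S) = ENNReal.ofReal (t / n * kap nu S) := by
  have h1 : Bx t n l S = cell t n l ×ˢ Dx S := by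
    ext a
    simp only [Bx, Dx, Set.mem_ofPred_eq, Set.mem_prod, part]
  unfold intensity
  rw [h1, Measure.prod_prod]
  have h2' : MeasurableSet (cell t n l) := measurableSet_Ioc
  rw [Measure.restrict_apply h2']
  have h2 : cell t n l ∩ Set.Ioi 0 = cell t n l := by
    rw [Set.inter_eq_left]
    intro s hs'
    have h3 : t * l / n < s := hs'.1
    have h4 : 0 ≤ t * l / n := by positivity
    exact lt_of_le_of_lt h4 h3
  rw [h2]
  unfold cell
  rw [Real.volume_Ioc, Measure.prod_apply (meas_Dx S)]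
  have h3 : ∫⁻ u, (Measure.infinitePi fun _ : ℕ => unif) (Prod.mk u ⁻¹' Dx S) ∂nu =
      ∫⁻ u, ENNReal.ofReal (u ^ S.card * (1 - u) ^ (Sᶜ).card) ∂nu := by
    apply lintegral_congr_ae
    filter_upwards [hs] with u hu
    exact marks_prob hu.1 hu.2 S
  rw [h3, ← ofReal_integral_eq_lintegral_ofReal (int_pow' hs hi _ _ (by omega))]
  · have h4 : t * (l + 1) / n - t * l / n = t / n := by ring
    rw [h4, ENNReal.ofReal_mul (by positivity)]
    rfl
  · filter_upwards [hs] with u hu
    exact mul_nonneg (pow_nonneg hu.1.le _) (pow_nonneg (by linarith [hu.2]) _)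

end

lemma Bx_disjoint (t : ℝ) (ht : 0 < t) (n : ℕ) :
    Pairwise (Function.onFun Disjoint
      (fun i : Fin n × {S : Finset (Fin (m + 1)) // 2 ≤ S.card} => Bx t n i.1 i.2.1)) := by
  intro i j hij
  show Disjoint _ _
  rw [Set.disjoint_left]
  intro a ha hb
  apply hij
  have h1 : i.1 = j.1 := by
    rcases lt_trichotomy i.1 j.1 with h | h | h
    · exact absurd (cell_lt ht h ha.1 hb.1) (lt_irrefl _)
    · exact h
    · exact absurd (cell_lt ht h hb.1 ha.1) (lt_irrefl _)
  have h2 : i.2.1 = j.2.1 := by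
    ext x
    have h3 := ha.2 x
    rw [hb.2 x] at h3
    constructor
    · intro h
      by_contra hc
      simp [h, hc] at h3
    · intro h
      by_contra hc
      simp [h, hc] at h3
  exact Prod.ext h1 (Subtype.ext h2)

/-- a valid sequence of patterns -/
def valid {n : ℕ} (y : Fin n → Finset (Fin (m + 1))) : Prop := ∀ l, y l = ∅ ∨ 2 ≤ (y l).card

lemma prod_pois {h : ℝ} (hh : 0 ≤ h) {k : Finset (Fin (m + 1)) → ℝ}
    (hk : ∀ S ∈ rel m, 0 ≤ k S) (Y : Finset (Fin (m + 1))) (hY : Y = ∅ ∨ 2 ≤ Y.card) :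
    ∏ S : {S : Finset (Fin (m + 1)) // 2 ≤ S.card},
      ENNReal.ofReal (pois (h * k S.1) (if Y = S.1 then 1 else 0)) = ENNReal.ofReal (ww h k Y) := by
  have hp : ∀ S : {S : Finset (Fin (m + 1)) // 2 ≤ S.card},
      0 ≤ pois (h * k S.1) (if Y = S.1 then 1 else 0) := by
    intro S
    unfold pois
    have := mul_nonneg hh (hk S.1 (mem_rel.2 S.2))
    positivity
  rw [← ENNReal.ofReal_prod_of_nonneg (fun S _ => hp S)]
  congr 1
  have h1 : ∀ S : {S : Finset (Fin (m + 1)) // 2 ≤ S.card},
      pois (h * k S.1) (if Y = S.1 then 1 else 0) =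
        Real.exp (-(h * k S.1)) * (if Y = S.1 then h * k S.1 else 1) := by
    intro S
    unfold pois
    split_ifs <;> simp
  rw [Finset.prod_congr rfl (fun S _ => h1 S), Finset.prod_mul_distrib, ← Real.exp_sum]
  unfold ww
  have h2 : ∑ S : {S : Finset (Fin (m + 1)) // 2 ≤ S.card}, -(h * k S.1) = -(h * tot k) := by
    rw [Finset.sum_neg_distrib, ← Finset.mul_sum]
    congr 2
    unfold tot rel
    rw [Finset.sum_filter, ← Finset.sum_filter]
    exact (Finset.sum_subtype (Finset.univ.filter fun S : Finset (Fin (m + 1)) => 2 ≤ S.card)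
      (by simp) k).symm
  rw [h2]
  congr 1
  rcases hY with h0 | h0
  · rw [if_pos h0]
    apply Finset.prod_eq_one
    intro S _
    rw [if_neg]
    intro h3
    have := S.2
    rw [← h3, h0] at this
    simp at this
  · rw [if_neg (by rintro rfl; simp at h0), if_pos h0]
    rw [Finset.prod_eq_single (⟨Y, h0⟩ : {S : Finset (Fin (m + 1)) // 2 ≤ S.card})]
    · simp
    · intro S _ hS
      rw [if_neg]
      intro h3
      apply hS
      exact Subtype.ext h3.symm
    · intro h3
      exact absurd (Finset.mem_univ _) h3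

section

variable {nu : Measure ℝ} [SFinite nu] (hs : ∀ᵐ u ∂nu, 0 < u ∧ u ≤ 1)
  (hi : Integrable (fun u : ℝ => u) nu) {Ω : Type} [MeasurableSpace Ω] {P : Measure Ω} [IsProbabilityMeasure P]
  {A : Ω → Set Atom} {U : Ω → ℕ → ℝ}
include hs hi

lemma prob_good (N : Noise nu P A U) {t : ℝ} (ht : 0 < t) {n : ℕ}
    (y : Fin n → Finset (Fin (m + 1))) (hy : valid y) (B : Fin (m + 1) → Set ℝ)
    (hB : ∀ j, MeasurableSet (B j)) :
    P {ω | good (A ω) t y ∧ ∀ j : Fin (m + 1), U ω j ∈ B j} =
      ENNReal.ofReal (∏ l, ww (t / n) (kap nu) (y l)) * ∏ j, unif (B j) := by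
  have h := N.law (Fin n × {S : Finset (Fin (m + 1)) // 2 ≤ S.card})
    (fun i => Bx t n i.1 i.2.1) (fun i => if y i.1 = i.2.1 then 1 else 0) (m + 1) B
    (fun i => meas_Bx t n i.1 i.2.1)
    (fun i => by rw [intensity_Bx hs hi ht _ _ i.2.2]; exact ENNReal.ofReal_ne_top)
    (Bx_disjoint t ht n) hB
  have hset : {ω | good (A ω) t y ∧ ∀ j : Fin (m + 1), U ω j ∈ B j} =
      {ω | (∀ i : Fin n × {S : Finset (Fin (m + 1)) // 2 ≤ S.card},
        (A ω ∩ Bx t n i.1 i.2.1).encard = ((if y i.1 = i.2.1 then 1 else 0 : ℕ) : ℕ∞)) ∧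
        ∀ j : Fin (m + 1), U ω j ∈ B j} := by
    ext ω
    simp only [good, Set.mem_ofPred_eq, Prod.forall]
  rw [hset, h]
  congr 1
  rw [Fintype.prod_prod_type]
  have hw : ∀ l, 0 ≤ ww (t / n) (kap nu) (y l) := fun l =>
    ww_nonneg (by positivity) (fun S _ => kap_nonneg hs hi S) _
  rw [ENNReal.ofReal_prod_of_nonneg (fun l _ => hw l)]
  apply Finset.prod_congr rfl
  intro l _
  rw [← prod_pois (by positivity) (fun S _ => kap_nonneg hs hi S) (y l) (hy l)]
  apply Finset.prod_congr rfl
  intro S _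
  rw [intensity_Bx hs hi ht _ _ S.2, ENNReal.toReal_ofReal]
  exact mul_nonneg (by positivity) (kap_nonneg hs hi _)

omit [SFinite nu] [IsProbabilityMeasure P] hs hi in
lemma meas_good (N : Noise nu P A U) (t : ℝ) {n : ℕ} (y : Fin n → Finset (Fin (m + 1))) :
    MeasurableSet {ω | good (A ω) t y} := by
  have : {ω | good (A ω) t y} = ⋂ l : Fin n, ⋂ S : {S : Finset (Fin (m + 1)) // 2 ≤ S.card},
      (fun ω => (A ω ∩ Bx t n l S.1).encard) ⁻¹' {((if y l = S.1 then 1 else 0 : ℕ) : ℕ∞)} := by
    ext ω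
    simp [good]
  rw [this]
  exact MeasurableSet.iInter fun l => MeasurableSet.iInter fun S =>
    (N.meas_count _ (meas_Bx _ _ _ _)) (measurableSet_singleton _)

/-- the law of the initial types on the good event -/
lemma lint_good (N : Noise nu P A U) {t : ℝ} (ht : 0 < t) {n : ℕ}
    (y : Fin n → Finset (Fin (m + 1))) (hy : valid y) (φ : (Fin (m + 1) → ℝ) → ℝ≥0∞)
    (hφ : Measurable φ) :
    ∫⁻ ω in {ω | good (A ω) t y}, φ (fun j => U ω j) ∂P =
      ENNReal.ofReal (∏ l, ww (t / n) (kap nu) (y l)) *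
        ∫⁻ u, φ u ∂(Measure.pi fun _ : Fin (m + 1) => unif) := by
  set G := {ω | good (A ω) t y} with hG
  have hGm : MeasurableSet G := meas_good N t y
  have hUm : Measurable (fun ω (j : Fin (m + 1)) => U ω j) :=
    measurable_pi_lambda _ fun j => N.meas_type j
  set c := ENNReal.ofReal (∏ l, ww (t / n) (kap nu) (y l)) with hc
  have hPG : P G = c := by
    have := prob_good hs hi N ht y hy (fun _ => Set.univ) (fun _ => MeasurableSet.univ)
    simpa using this
  have hbox : ∀ B : Fin (m + 1) → Set ℝ, (∀ j, MeasurableSet (B j)) →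
      ((P.restrict G).map (fun ω (j : Fin (m + 1)) => U ω j)) (Set.univ.pi B) =
        c * ∏ j, unif (B j) := by
    intro B hB
    rw [Measure.map_apply hUm (MeasurableSet.univ_pi hB), Measure.restrict_apply
      (hUm (MeasurableSet.univ_pi hB)), ← prob_good hs hi N ht y hy B hB]
    congr 1
    ext ω
    simp [hG, and_comm]
  rw [← lintegral_map (μ := P.restrict G) hφ hUm]
  by_cases hc0 : c = 0
  · have : P.restrict G = 0 := by
      rw [Measure.restrict_eq_zero, hPG, hc0]
    rw [this, Measure.map_zero, lintegral_zero_measure, hc0, zero_mul]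
  · have hct : c ≠ ⊤ := ENNReal.ofReal_ne_top
    have h1 : (Measure.pi fun _ : Fin (m + 1) => unif) =
        c⁻¹ • ((P.restrict G).map (fun ω (j : Fin (m + 1)) => U ω j)) := by
      apply Measure.pi_eq
      intro B hB
      rw [Measure.smul_apply, hbox B hB, smul_eq_mul, ← mul_assoc, ENNReal.inv_mul_cancel hc0 hct,
        one_mul]
    rw [h1, lintegral_smul_measure, smul_eq_mul, ← mul_assoc, ENNReal.mul_inv_cancel hc0 hct,
      one_mul]

/-- **The law of the lookdown (lower bound).** -/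
theorem law_lower (N : Noise nu P A U) {t : ℝ} (ht : 0 < t) {n : ℕ} (hn : 0 < n)
    (ξ : Ω → ℕ → ℝ) (hξ : ∀ᵐ ω ∂P, ∀ x, ∃ z, Anc (A ω) t x z ∧ ξ ω x = U ω z)
    (φ : (Fin (m + 1) → ℝ) → ℝ≥0∞) (hφ : Measurable φ) :
    ∑ y : Fin n → Finset (Fin (m + 1)), ENNReal.ofReal (∏ l, ww (t / n) (kap nu) (y l)) *
        ∫⁻ u, φ (fun x => u (Psi y x)) ∂(Measure.pi fun _ : Fin (m + 1) => unif) ≤
      ∫⁻ ω, φ (fun x => ξ ω x) ∂P := by
  classical
  have h0 : ∀ y : Fin n → Finset (Fin (m + 1)), ¬ valid y →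
      ∏ l, ww (t / n) (kap nu) (y l) = 0 := by
    intro y hy
    unfold valid at hy
    push Not at hy
    obtain ⟨l, h1, h2⟩ := hy
    apply Finset.prod_eq_zero (Finset.mem_univ l)
    unfold ww
    rw [if_neg (Finset.nonempty_iff_ne_empty.1 h1), if_neg (not_le.2 h2), mul_zero]
  have hdisj : ∀ y y' : Fin n → Finset (Fin (m + 1)), valid y → valid y' → y ≠ y' →
      Disjoint {ω | good (A ω) t y} {ω | good (A ω) t y'} := by
    intro y y' hy hy' hne
    rw [Set.disjoint_left]
    intro ω h1 h2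
    apply hne
    ext1 l
    by_contra hl
    rcases hy l with h3 | h3
    · rcases hy' l with h4 | h4
      · exact hl (h3.trans h4.symm)
      · have h5 := h1 l ⟨y' l, h4⟩
        have h6 := h2 l ⟨y' l, h4⟩
        simp only [if_true] at h6
        simp only [if_neg hl] at h5
        rw [h5] at h6
        simp at h6
    · have h5 := h1 l ⟨y l, h3⟩
      have h6 := h2 l ⟨y l, h3⟩
      simp only [if_true] at h5
      simp only [if_neg (Ne.symm hl)] at h6
      rw [h5] at h6
      simp at h6
  -- the events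
  set V : Finset (Fin n → Finset (Fin (m + 1))) := Finset.univ.filter (fun y => valid y) with hV
  have e1 : ∑ y : Fin n → Finset (Fin (m + 1)), ENNReal.ofReal (∏ l, ww (t / n) (kap nu) (y l)) *
        ∫⁻ u, φ (fun x => u (Psi y x)) ∂(Measure.pi fun _ : Fin (m + 1) => unif) =
      ∑ y ∈ V, ∫⁻ ω in {ω | good (A ω) t y}, φ (fun x => ξ ω x) ∂P := by
    rw [hV, Finset.sum_filter]
    apply Finset.sum_congr rfl
    intro y _
    split_ifs with hy
    · have hφ' : Measurable (fun u : Fin (m + 1) → ℝ => φ (fun x => u (Psi y x))) :=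
        hφ.comp (measurable_pi_lambda _ fun x => measurable_pi_apply _)
      rw [← lint_good hs hi N ht y hy _ hφ']
      apply lintegral_congr_ae
      filter_upwards [ae_restrict_of_ae hξ, ae_restrict_mem (meas_good N t y)] with ω hω hg
      congr 1
      ext x
      obtain ⟨z0, ⟨l0, hl0, _⟩, _⟩ := hω m
      have h1 := good_anc (A ω) ht hn y hy hg l0 hl0 x
      obtain ⟨z, hz, hzU⟩ := hω x
      have h2 := anc_uniq (A ω) t x _ _ h1 hz
      rw [hzU, ← h2]
    · rw [h0 y hy, ENNReal.ofReal_zero, zero_mul]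
  rw [e1, ← lintegral_biUnion_finset]
  · exact lintegral_mono' Measure.restrict_le_self (le_refl _)
  · intro y hy y' hy' hne
    rw [hV] at hy hy'
    simp only [Finset.coe_filter, Finset.mem_univ, true_and, Set.mem_ofPred_eq] at hy hy'
    exact hdisj y y' hy hy' hne
  · intro y _
    exact meas_good N t y

end

end Pool.Agent.H89.FV
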