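import Mathlib

/-!
# The lookdown representation of the Lambda Fleming-Viot process and its Eves

Levels are numbered `0, 1, 2, …` (so level `i` of the problem is level `i - 1` here).
-/

namespace Pool.Agent.H89.FV

open MeasureTheory ProbabilityTheory Filter Set
open scoped ENNReal Topology

/-- The jump measure `ν(du) = u⁻² Λ(du)`. -/
noncomputable def nuOf (L : Measure ℝ) : Measure ℝ :=
  L.withDensity fun u => ENNReal.ofReal ((u ^ 2)⁻¹)

/-- The intensive regime with dust: `Λ` is a finite measure on `[0,1]` without mass at `0`,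
`∫ u⁻¹ Λ(du) < ∞` and `∫ u⁻² Λ(du) = ∞`. -/
structure DustRegime (L : Measure ℝ) : Prop where
  finite : IsFiniteMeasure L
  supp : L (Set.Ioc 0 1)ᶜ = 0
  dust : ∫⁻ u, ENNReal.ofReal u⁻¹ ∂L < ⊤
  infinite : ∫⁻ u, ENNReal.ofReal ((u ^ 2)⁻¹) ∂L = ⊤

/-- The uniform distribution on `[0,1]`. -/
noncomputable def unif : Measure ℝ := volume.restrict (Set.Icc 0 1)

instance : IsProbabilityMeasure unif := ⟨by simp [unif]⟩

/-- An atom of the driving noise: its time, its size `u`, and one mark in `[0,1]` per level. -/
abbrev Atom : Type := ℝ × ℝ × (ℕ → ℝ)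

/-- Does the level `x` participate in the atom? Its mark has to be smaller than the size `u`;
the marks are independent and uniform, so every level participates independently with
probability `u`. -/
noncomputable def part (a : Atom) (x : ℕ) : Bool := decide (a.2.2 x < a.2.1)

/-- The intensity `dt ⊗ ν(du) ⊗ (uniform marks)` of the marked Poisson point process. -/
noncomputable def intensity (nu : Measure ℝ) : Measure Atom :=
  (volume.restrict (Set.Ioi (0 : ℝ))).prod (nu.prod (Measure.infinitePi fun _ : ℕ => unif))

/-- Looking down through one atom with set of participating levels `J`: the level whose type just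
before the atom is carried by level `x` just after the atom. A participating level takes the
type of the lowest participating level; the types on the other levels are shifted upward: the
type of a nonparticipating level `x` comes from the level `x - (#{y < x, y ∈ J} - 1)⁺`. -/
noncomputable def shiftDown (J : ℕ → Bool) (x : ℕ) : ℕ :=
  if J x = true then sInf {y | J y = true} else x - (Nat.count (fun y => J y = true) x - 1)

/-- At least two of the levels `0, …, x` participate; the other atoms do not change the types
of the levels `0, …, x`. -/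
def Rel (J : ℕ → Bool) (x : ℕ) : Prop := 2 ≤ Nat.count (fun y => J y = true) (x + 1)

/-- `l` lists, in the order of time, all atoms of `A` in the time interval `(0,t]` which are
relevant for the levels `0, …, x`. -/
def History (A : Set Atom) (t : ℝ) (x : ℕ) (l : List Atom) : Prop :=
  l.Pairwise (fun a b => a.1 < b.1) ∧
    ∀ a, a ∈ l ↔ (a ∈ A ∧ 0 < a.1 ∧ a.1 ≤ t ∧ Rel (part a) x)

/-- Looking down from level `x` through all the atoms of the list, the last one first. -/
noncomputable def back (l : List Atom) (x : ℕ) : ℕ :=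
  l.foldr (fun a y => shiftDown (part a) y) x

/-- The level `x` at time `t` descends from the level `y` at time `0`, that is, it carries the
initial type of the level `y`. -/
def Anc (A : Set Atom) (t : ℝ) (x y : ℕ) : Prop :=
  ∃ l, History A t x l ∧ back l x = y

/-- The Poisson probability with parameter `r` of the number `k`. -/
noncomputable def pois (r : ℝ) (k : ℕ) : ℝ := Real.exp (-r) * r ^ k / (k.factorial : ℝ)

/-- The driving noise of the lookdown representation: `A` is a Poisson point process with
intensity `dt ⊗ ν(du) ⊗ (uniform marks)` (the numbers of points in disjoint sets of finite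
intensity are independent Poisson variables), and, independent of `A`, the initial types
`U 0, U 1, …` are independent and uniform on `[0,1]`. -/
structure Noise (nu : Measure ℝ) {Ω : Type} [MeasurableSpace Ω] (P : Measure Ω)
    (A : Ω → Set Atom) (U : Ω → ℕ → ℝ) : Prop where
  meas_count : ∀ S : Set Atom, MeasurableSet S → Measurable fun ω => (A ω ∩ S).encard
  meas_type : ∀ j : ℕ, Measurable fun ω => U ω j
  law : ∀ (ι : Type) [Fintype ι] (S : ι → Set Atom) (k : ι → ℕ) (r : ℕ) (B : Fin r → Set ℝ),
    (∀ i, MeasurableSet (S i)) → (∀ i, intensity nu (S i) ≠ ⊤) →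
    Pairwise (Function.onFun Disjoint S) → (∀ j, MeasurableSet (B j)) →
    P {ω | (∀ i, (A ω ∩ S i).encard = (k i : ℕ∞)) ∧ ∀ j : Fin r, U ω j ∈ B j} =
      (∏ i, ENNReal.ofReal (pois (intensity nu (S i)).toReal (k i))) * ∏ j, unif (B j)

/-- `ρ` is the Fleming-Viot process of the lookdown representation: for every time `t`, almost
surely, `ρ t` is the (weak) limit of the empirical measures of the types
`ξ 0, …, ξ (n-1)` of the levels `0, …, n-1` at time `t`. -/
structure IsFlemingViot {Ω : Type} [MeasurableSpace Ω] (P : Measure Ω)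
    (A : Ω → Set Atom) (U : Ω → ℕ → ℝ) (ρ : ℝ → Ω → Measure ℝ) : Prop where
  prob : ∀ t ω, IsProbabilityMeasure (ρ t ω)
  supp : ∀ t ω, ρ t ω (Set.Icc 0 1)ᶜ = 0
  lim : ∀ t, 0 ≤ t → ∀ᵐ ω ∂P, ∃ ξ : ℕ → ℝ,
    (∀ x, ∃ y, Anc (A ω) t x y ∧ ξ x = U ω y) ∧
    ∀ g : ℝ → ℝ, Continuous g → (∃ C, ∀ z, |g z| ≤ C) →
      Tendsto (fun n : ℕ => (∑ x ∈ Finset.range n, g (ξ x)) / n) atTop (𝓝 (∫ z, g z ∂ρ t ω))

/-- The process admits an infinite sequence of Eves: distinct random points `e 0, e 1, …` of
`[0,1]` such that almost surely, for every `i`, the ratio of the mass of `e i` and the mass of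
`[0,1] \ {e 0, …, e (i-1)}` tends to `1`. -/
def AdmitsEves {Ω : Type} [MeasurableSpace Ω] (P : Measure Ω) (ρ : ℝ → Ω → Measure ℝ) : Prop :=
  ∃ e : ℕ → Ω → ℝ, ∀ᵐ ω ∂P, (∀ i, e i ω ∈ Set.Icc (0 : ℝ) 1) ∧
    (∀ i j, i ≠ j → e i ω ≠ e j ω) ∧
    ∀ i, Tendsto (fun t : ℝ => (ρ t ω {e i ω}).toReal /
      (ρ t ω (Set.Icc 0 1 \ {z | ∃ j < i, z = e j ω})).toReal) atTop (𝓝 1)

end Pool.Agent.H89.FV
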