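import Pool.Agent.H89.FV.Final

/-! There is no infinite sequence of Eves in the regime with dust. -/

namespace Pool.Agent.H89.FV

open MeasureTheory Filter
open scoped ENNReal Topology

set_option linter.style.haveILetI false
set_option linter.unusedSectionVars false

section basic

variable {L : Measure ℝ} (hL : DustRegime L)
include hL

lemma nuOf_sfinite : SFinite (nuOf L) := by
  haveI := hL.finite
  unfold nuOf
  infer_instance

lemma ae_L : ∀ᵐ u ∂L, 0 < u ∧ u ≤ 1 := by
  have h := hL.supp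
  have h2 : ∀ᵐ u ∂L, u ∈ Set.Ioc (0 : ℝ) 1 := h
  filter_upwards [h2] with u hu using hu

lemma nuOf_supp : ∀ᵐ u ∂(nuOf L), 0 < u ∧ u ≤ 1 :=
  (withDensity_absolutelyContinuous L _).ae_le (ae_L hL)

lemma nuOf_int : Integrable (fun u : ℝ => u) (nuOf L) := by
  refine ⟨measurable_id.aestronglyMeasurable, ?_⟩
  unfold HasFiniteIntegral nuOf
  rw [lintegral_withDensity_eq_lintegral_mul _ (by fun_prop) (by fun_prop)]
  have h1 : ∫⁻ u, ((fun u : ℝ => ENNReal.ofReal ((u ^ 2)⁻¹)) * (fun u : ℝ => ‖u‖ₑ)) u ∂L =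
      ∫⁻ u, ENNReal.ofReal u⁻¹ ∂L := by
    apply lintegral_congr_ae
    filter_upwards [ae_L hL] with u hu
    rw [Pi.mul_apply, Real.enorm_eq_ofReal hu.1.le,
      ← ENNReal.ofReal_mul (by positivity)]
    congr 1
    have := hu.1.ne'
    field_simp
  rw [h1]
  exact hL.dust

lemma nuOf_ne : nuOf L ≠ 0 := by
  intro h
  have h1 : nuOf L Set.univ = ⊤ := by
    unfold nuOf
    rw [withDensity_apply _ MeasurableSet.univ, Measure.restrict_univ]
    exact hL.infinite
  rw [h] at h1
  simp at h1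

end basic

lemma FF_le_of {P Q q : ℝ} (hP : 0 ≤ P) (hQ : 0 ≤ Q) (hR : 0 < P + Q)
    (h : q * (P + Q) ≤ P ∨ q * (P + Q) ≤ Q) : FF P Q ≤ 1 - q := by
  unfold FF
  rw [if_neg hR.ne', div_le_iff₀ (by positivity)]
  rcases h with h | h
  · have h1 : P * Q ≤ (P + Q) * Q := by nlinarith
    have h2 : (P + Q) * (q * (P + Q)) ≤ (P + Q) * P := mul_le_mul_of_nonneg_left h hR.le
    nlinarith
  · have h1 : P * Q ≤ (P + Q) * P := by nlinarith
    have h2 : (P + Q) * (q * (P + Q)) ≤ (P + Q) * Q := mul_le_mul_of_nonneg_left h hR.le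
    nlinarith

lemma PP_QQ (μ : Measure ℝ) [IsProbabilityMeasure μ] (c : ℝ) :
    PP μ c + QQ μ c = (μ {c}ᶜ).toReal := by
  unfold PP QQ
  rw [← ENNReal.toReal_add (measure_ne_top _ _) (measure_ne_top _ _), ← measure_union]
  · congr 2
    ext z
    simp only [Set.mem_union, Set.mem_sdiff, Set.mem_Iic, Set.mem_singleton_iff, Set.mem_Ioi,
      Set.mem_compl_iff]
    constructor
    · rintro (h | h) <;> exact h.2
    · intro h
      rcases le_or_gt z (1 / 2) with h1 | h1
      · exact Or.inl ⟨h1, h⟩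
      · exact Or.inr ⟨h1, h⟩
  · rw [Set.disjoint_left]
    rintro z ⟨h1, _⟩ ⟨h2, _⟩
    exact absurd (show 1 / 2 < z from h2) (not_lt.2 h1)
  · exact measurableSet_Ioi.diff (measurableSet_singleton c)

theorem noEves (L : Measure ℝ) (hL : DustRegime L) {Ω : Type} [MeasurableSpace Ω]
    (P : Measure Ω) [IsProbabilityMeasure P] (A : Ω → Set Atom) (U : Ω → ℕ → ℝ)
    (ρ : ℝ → Ω → Measure ℝ) (hN : Noise (nuOf L) P A U) (hρ : IsFlemingViot P A U ρ) :
    ¬ AdmitsEves P ρ := by
  classical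
  haveI := nuOf_sfinite hL
  have hs := nuOf_supp hL
  have hi := nuOf_int hL
  have hν := nuOf_ne hL
  obtain ⟨c1, hc1, hEF⟩ := EF (P := P) hs hi hν
  obtain ⟨l0, hl0, hER⟩ := ER (P := P) hs hi hν
  rintro ⟨e, he⟩
  have hprob := hρ.prob
  have hfull : ∀ t ω, ρ t ω (Set.Icc 0 1) = 1 := by
    intro t ω
    haveI := hprob t ω
    rw [prob_compl_eq_zero_iff measurableSet_Icc |>.1 (hρ.supp t ω)]
  have htop : Tendsto (fun n : ℕ => (n : ℝ) + 1) atTop atTop :=
    tendsto_atTop_add_const_right _ _ tendsto_natCast_atTop_atTop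
  -- the first Eve is the first type
  have hA : (1 : ℝ≥0∞) ≤ ∫⁻ ω, (if e 0 ω = U ω 0 then 1 else 0 : ℝ≥0∞) ∂P := by
    refine LL (fun n ω => ENNReal.ofReal (1 - (ρ ((n : ℝ) + 1) ω {U ω 0}ᶜ).toReal)) _ 1
      ENNReal.one_ne_top (fun n ω => ?_) ?_
      (fun n => ENNReal.ofReal (1 - Real.exp (-(l0 * ((n : ℝ) + 1))))) _
      (fun n => hER A U ρ hN hρ _ (by positivity)) ?_
    · rw [← ENNReal.ofReal_one]
      have h0 : 0 ≤ (ρ ((n : ℝ) + 1) ω {U ω 0}ᶜ).toReal := ENNReal.toReal_nonneg
      exact ENNReal.ofReal_le_ofReal (by linarith)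
    · filter_upwards [he] with ω hω
      have h0 := hω.2.2 0
      have hset : (Set.Icc (0 : ℝ) 1 \ {z | ∃ j < 0, z = e j ω}) = Set.Icc 0 1 := by
        ext z; simp
      rw [hset] at h0
      simp only [hfull, ENNReal.toReal_one, div_one] at h0
      have h1 := h0.comp htop
      have h2 : ∀ n : ℕ, (1 - (ρ ((n : ℝ) + 1) ω {U ω 0}ᶜ).toReal) =
          (ρ ((n : ℝ) + 1) ω {U ω 0}).toReal := by
        intro n
        haveI := hprob ((n : ℝ) + 1) ω
        rw [prob_compl_eq_one_sub (measurableSet_singleton _), ENNReal.toReal_sub_of_le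
          prob_le_one ENNReal.one_ne_top, ENNReal.toReal_one]
        ring
      by_cases h3 : e 0 ω = U ω 0
      · rw [if_pos h3]
        have h4 : Tendsto (fun n : ℕ => ENNReal.ofReal
            (1 - (ρ ((n : ℝ) + 1) ω {U ω 0}ᶜ).toReal)) atTop (𝓝 (ENNReal.ofReal 1)) := by
          apply ENNReal.tendsto_ofReal
          simp only [h2]
          rw [← h3]
          exact h1
        rwa [ENNReal.ofReal_one] at h4
      · rw [if_neg h3]
        have h4 : Tendsto (fun n : ℕ => ENNReal.ofReal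
            (1 - (ρ ((n : ℝ) + 1) ω {U ω 0}ᶜ).toReal)) atTop (𝓝 (ENNReal.ofReal 0)) := by
          apply ENNReal.tendsto_ofReal
          have h5 : Tendsto (fun n : ℕ => 1 - (ρ ((n : ℝ) + 1) ω {e 0 ω}).toReal) atTop
              (𝓝 (1 - 1)) := tendsto_const_nhds.sub h1
          rw [sub_self] at h5
          refine squeeze_zero (fun n => ?_) (fun n => ?_) h5
          · rw [h2]; exact ENNReal.toReal_nonneg
          · haveI := hprob ((n : ℝ) + 1) ω
            have h6 : (ρ ((n : ℝ) + 1) ω {e 0 ω}).toReal ≤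
                (ρ ((n : ℝ) + 1) ω {U ω 0}ᶜ).toReal := by
              apply ENNReal.toReal_mono (measure_ne_top _ _)
              apply measure_mono
              intro z hz
              rw [Set.mem_singleton_iff] at hz
              rw [Set.mem_compl_iff, Set.mem_singleton_iff, hz]
              exact h3
            linarith
        rwa [ENNReal.ofReal_zero] at h4
    · have h1 : Tendsto (fun n : ℕ => Real.exp (-(l0 * ((n : ℝ) + 1)))) atTop (𝓝 0) := by
        apply Real.tendsto_exp_neg_atTop_nhds_zero.comp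
        exact htop.const_mul_atTop hl0
      have h2 := ENNReal.tendsto_ofReal ((tendsto_const_nhds (x := (1 : ℝ))).sub h1)
      rw [sub_zero, ENNReal.ofReal_one] at h2
      exact h2
  have hB : ∀ᵐ ω ∂P, e 0 ω = U ω 0 := by
    obtain ⟨h, hm, hle, hint⟩ := exists_measurable_le_lintegral_eq P
      (fun ω => (if e 0 ω = U ω 0 then 1 else 0 : ℝ≥0∞))
    have h1 : ∀ ω, h ω ≤ 1 := fun ω => (hle ω).trans (by show (ite _ _ _ : ℝ≥0∞) ≤ 1; split_ifs <;> simp)
    have h2 : h =ᵐ[P] fun _ => (1 : ℝ≥0∞) := by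
      apply ae_eq_of_ae_le_of_lintegral_le (ae_of_all _ h1)
      · have : ∫⁻ ω, h ω ∂P ≤ 1 := by
          calc ∫⁻ ω, h ω ∂P ≤ ∫⁻ _ω, 1 ∂P := lintegral_mono h1
            _ = 1 := by simp
        exact ne_top_of_le_ne_top ENNReal.one_ne_top this
      · exact aemeasurable_const
      · rw [← hint]
        simpa using hA
    filter_upwards [h2] with ω hω
    by_contra hc
    have h3 := hle ω
    rw [hω] at h3
    simp only [if_neg hc] at h3
    exact absurd h3 (by simp)
  -- the functional tends to zero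
  have hC : ENNReal.ofReal c1 ≤ ∫⁻ _ω, (0 : ℝ≥0∞) ∂P := by
    refine LL (fun n ω => ENNReal.ofReal (FF (PP (ρ ((n : ℝ) + 1) ω) (U ω 0))
        (QQ (ρ ((n : ℝ) + 1) ω) (U ω 0)))) _ (ENNReal.ofReal (1 / 4)) ENNReal.ofReal_ne_top
      (fun n ω => ?_) ?_ (fun _ => ENNReal.ofReal c1) _
      (fun n => hEF A U ρ hN hρ _ (by positivity)) tendsto_const_nhds
    · haveI := hprob ((n : ℝ) + 1) ω
      apply ENNReal.ofReal_le_ofReal
      apply FF_le
      refine ⟨ENNReal.toReal_nonneg, ENNReal.toReal_nonneg, ?_⟩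
      rw [PP_QQ]
      have h1 : ρ ((n : ℝ) + 1) ω {U ω 0}ᶜ ≤ 1 := prob_le_one
      calc (ρ ((n : ℝ) + 1) ω {U ω 0}ᶜ).toReal ≤ (1 : ℝ≥0∞).toReal :=
            ENNReal.toReal_mono ENNReal.one_ne_top h1
        _ = 1 := ENNReal.toReal_one
    · filter_upwards [he, hB] with ω hω hω0
      have h1 := (hω.2.2 1).comp htop
      have hset : (Set.Icc (0 : ℝ) 1 \ {z | ∃ j < 1, z = e j ω}) = Set.Icc 0 1 \ {U ω 0} := by
        ext z
        simp only [Set.mem_sdiff, Set.mem_ofPred_eq, Set.mem_singleton_iff]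
        constructor
        · rintro ⟨h2, h3⟩
          exact ⟨h2, fun h4 => h3 ⟨0, by norm_num, by rw [h4, hω0]⟩⟩
        · rintro ⟨h2, h3⟩
          refine ⟨h2, ?_⟩
          rintro ⟨j, hj, hz⟩
          have hj0 : j = 0 := by omega
          rw [hj0, hω0] at hz
          exact h3 hz
      have hD : ∀ t, (ρ t ω (Set.Icc 0 1 \ {z | ∃ j < 1, z = e j ω})).toReal =
          PP (ρ t ω) (U ω 0) + QQ (ρ t ω) (U ω 0) := by
        intro t
        haveI := hprob t ω
        rw [PP_QQ, hset]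
        congr 1
        have h2 : ({U ω 0} : Set ℝ)ᶜ = (Set.Icc 0 1 \ {U ω 0}) ∪ ({U ω 0}ᶜ \ Set.Icc 0 1) := by
          ext z
          simp only [Set.mem_compl_iff, Set.mem_union, Set.mem_sdiff]
          tauto
        rw [h2]
        have h3 : ρ t ω ({U ω 0}ᶜ \ Set.Icc 0 1) = 0 :=
          measure_mono_null (fun z hz => hz.2) (hρ.supp t ω)
        apply le_antisymm
        · exact measure_mono Set.subset_union_left
        · refine (measure_union_le _ _).trans ?_
          rw [h3, add_zero]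
      simp only [hD] at h1
      have h01 : e 1 ω ≠ U ω 0 := by
        rw [← hω0]
        exact hω.2.1 1 0 (by norm_num)
      have h5 : Tendsto (fun n : ℕ => 1 - (((fun t : ℝ => (ρ t ω {e 1 ω}).toReal /
          (PP (ρ t ω) (U ω 0) + QQ (ρ t ω) (U ω 0))) ∘ fun n : ℕ => (n : ℝ) + 1) n)) atTop
          (𝓝 (1 - 1)) := tendsto_const_nhds.sub h1
      rw [sub_self] at h5
      have h6 : Tendsto (fun n : ℕ => FF (PP (ρ ((n : ℝ) + 1) ω) (U ω 0))
          (QQ (ρ ((n : ℝ) + 1) ω) (U ω 0))) atTop (𝓝 0) := by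
        have hpos : ∀ᶠ n : ℕ in atTop, 0 < ((fun t : ℝ => (ρ t ω {e 1 ω}).toReal /
          (PP (ρ t ω) (U ω 0) + QQ (ρ t ω) (U ω 0))) ∘ fun n : ℕ => (n : ℝ) + 1) n :=
          h1.eventually (lt_mem_nhds one_pos)
        refine squeeze_zero' ?_ ?_ h5
        · apply Eventually.of_forall
          intro n
          haveI := hprob ((n : ℝ) + 1) ω
          apply FF_nonneg
          refine ⟨ENNReal.toReal_nonneg, ENNReal.toReal_nonneg, ?_⟩
          rw [PP_QQ]
          have h1 : ρ ((n : ℝ) + 1) ω {U ω 0}ᶜ ≤ 1 := prob_le_one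
          calc (ρ ((n : ℝ) + 1) ω {U ω 0}ᶜ).toReal ≤ (1 : ℝ≥0∞).toReal :=
                ENNReal.toReal_mono ENNReal.one_ne_top h1
            _ = 1 := ENNReal.toReal_one
        · filter_upwards [hpos] with n hn
          haveI := hprob ((n : ℝ) + 1) ω
          have hP0 : 0 ≤ PP (ρ ((n : ℝ) + 1) ω) (U ω 0) := ENNReal.toReal_nonneg
          have hQ0 : 0 ≤ QQ (ρ ((n : ℝ) + 1) ω) (U ω 0) := ENNReal.toReal_nonneg
          simp only [Function.comp_apply] at hn ⊢
          have hR : 0 < PP (ρ ((n : ℝ) + 1) ω) (U ω 0) + QQ (ρ ((n : ℝ) + 1) ω) (U ω 0) := by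
            rcases eq_or_lt_of_le (add_nonneg hP0 hQ0) with h | h
            · rw [← h, div_zero] at hn
              exact absurd hn (lt_irrefl _)
            · exact h
          apply FF_le_of hP0 hQ0 hR
          rw [div_mul_cancel₀ _ hR.ne']
          rcases le_or_gt (e 1 ω) (1 / 2) with h7 | h7
          · left
            apply ENNReal.toReal_mono (measure_ne_top _ _)
            apply measure_mono
            intro z hz
            rw [Set.mem_singleton_iff] at hz
            rw [hz]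
            exact ⟨h7, h01⟩
          · right
            apply ENNReal.toReal_mono (measure_ne_top _ _)
            apply measure_mono
            intro z hz
            rw [Set.mem_singleton_iff] at hz
            rw [hz]
            exact ⟨h7, h01⟩
      have h7 := ENNReal.tendsto_ofReal h6
      rwa [ENNReal.ofReal_zero] at h7
  rw [lintegral_zero] at hC
  have := ENNReal.ofReal_eq_zero.1 (le_antisymm hC bot_le)
  linarith

end Pool.Agent.H89.FV
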