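import Pool.Agent.H89.FV.Limit

/-! The functional of the Fleming-Viot process and the Eves. -/

namespace Pool.Agent.H89.FV

open MeasureTheory Filter
open scoped ENNReal Topology

set_option linter.style.haveILetI false
set_option linter.unusedSectionVars false

lemma xi_zero {A : Set Atom} {t : ℝ} {U ξ : ℕ → ℝ}
    (h : ∀ x, ∃ z, Anc A t x z ∧ ξ x = U z) : ξ 0 = U 0 := by
  obtain ⟨z, ⟨l, _, hb⟩, hz⟩ := h 0
  have h1 := back_le l 0
  rw [hb] at h1
  rw [hz, Nat.le_zero.1 h1]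

lemma av_range (g : ℝ → ℝ) (ξ : ℕ → ℝ) (n : ℕ) :
    av (fun x : Fin (n + 1) => g (ξ x)) =
      (∑ x ∈ Finset.range (n + 1), g (ξ x)) / ((n + 1 : ℕ) : ℝ) := by
  unfold av
  rw [Fin.sum_univ_eq_sum_range (fun x => g (ξ x)) (n + 1)]
  push_cast
  rfl

lemma Fd_cont {δ x y : ℝ} (hδ : 0 < δ) : ContinuousAt (fun p : ℝ × ℝ => Fd δ p.1 p.2) (x, y) := by
  unfold Fd
  apply ContinuousAt.div
  · fun_prop
  · fun_prop
  · simp only
    positivity

lemma Fd_tend {δ x y : ℝ} (hδ : 0 < δ) {a b : ℕ → ℝ} (ha : Tendsto a atTop (𝓝 x))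
    (hb : Tendsto b atTop (𝓝 y)) :
    Tendsto (fun n => ENNReal.ofReal (Fd δ (a n) (b n))) atTop (𝓝 (ENNReal.ofReal (Fd δ x y))) := by
  apply ENNReal.tendsto_ofReal
  exact (Fd_cont hδ).tendsto.comp (ha.prodMk_nhds hb)

lemma Fd_delta (x y : ℝ) (hx : 0 ≤ x) (hy : 0 ≤ y) :
    Tendsto (fun k : ℕ => Fd (1 / ((k : ℝ) + 1)) x y) atTop (𝓝 (FF x y)) := by
  by_cases h : x + y = 0
  · have hx0 : x = 0 := by linarith
    have hy0 : y = 0 := by linarith
    have h1 : ∀ k : ℕ, Fd (1 / ((k : ℝ) + 1)) x y = 1 / 4 := by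
      intro k
      unfold Fd
      rw [hx0, hy0]
      field_simp
      ring
    simp only [h1]
    unfold FF
    rw [if_pos h]
    exact tendsto_const_nhds
  · unfold FF Fd
    rw [if_neg h]
    have h1 : Tendsto (fun k : ℕ => 1 / ((k : ℝ) + 1)) atTop (𝓝 0) :=
      tendsto_one_div_add_atTop_nhds_zero_nat
    have h2 : Tendsto (fun k : ℕ => x * y + 1 / ((k : ℝ) + 1)) atTop (𝓝 (x * y + 0)) :=
      tendsto_const_nhds.add h1
    have h3 : Tendsto (fun k : ℕ => (x + y) ^ 2 + 4 * (1 / ((k : ℝ) + 1))) atTop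
        (𝓝 ((x + y) ^ 2 + 4 * 0)) := tendsto_const_nhds.add (h1.const_mul 4)
    have h4 := h2.div h3 (by
      rw [mul_zero, add_zero]
      positivity)
    rw [add_zero, mul_zero, add_zero] at h4
    exact h4

lemma aa_lim (z : ℝ) : ∀ᶠ k : ℕ in atTop,
    aa ((k : ℝ) + 1) z = if z ≤ 1 / 2 then 1 else 0 := by
  by_cases hz : z ≤ 1 / 2
  · apply Eventually.of_forall
    intro k
    rw [if_pos hz]
    unfold aa
    have : 1 ≤ 1 - ((k : ℝ) + 1) * (z - 1 / 2) := by
      have hk : (0 : ℝ) ≤ (k : ℝ) + 1 := by positivity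
      nlinarith
    rw [min_eq_left this]
    norm_num
  · rw [if_neg hz]
    have hz' : 0 < z - 1 / 2 := by linarith [not_le.1 hz]
    obtain ⟨K, hK⟩ := exists_nat_gt (1 / (z - 1 / 2))
    filter_upwards [eventually_ge_atTop K] with k hk
    unfold aa
    apply max_eq_left
    refine le_trans (min_le_right _ _) ?_
    have hk' : (K : ℝ) ≤ k := by exact_mod_cast hk
    rw [div_lt_iff₀ hz'] at hK
    nlinarith

lemma chi_lim (d : ℝ) : ∀ᶠ k : ℕ in atTop, chi ((k : ℝ) + 1) d = if d = 0 then 0 else 1 := by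
  by_cases hd : d = 0
  · apply Eventually.of_forall
    intro k
    rw [if_pos hd, hd]
    simp [chi]
  · rw [if_neg hd]
    have hd' : 0 < |d| := abs_pos.2 hd
    obtain ⟨K, hK⟩ := exists_nat_gt (1 / |d|)
    filter_upwards [eventually_ge_atTop K] with k hk
    unfold chi
    apply min_eq_left
    have hk' : (K : ℝ) ≤ k := by exact_mod_cast hk
    rw [div_lt_iff₀ hd'] at hK
    nlinarith

/-- the two masses -/
noncomputable def PP (μ : Measure ℝ) (c : ℝ) : ℝ := (μ (Set.Iic (1 / 2) \ {c})).toReal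
noncomputable def QQ (μ : Measure ℝ) (c : ℝ) : ℝ := (μ (Set.Ioi (1 / 2) \ {c})).toReal

noncomputable def IA (r : ℝ) (μ : Measure ℝ) (c : ℝ) : ℝ := ∫ z, aa r z * chi r (z - c) ∂μ
noncomputable def IQ (r : ℝ) (μ : Measure ℝ) (c : ℝ) : ℝ := ∫ z, (1 - aa r z) * chi r (z - c) ∂μ
noncomputable def IR (r : ℝ) (μ : Measure ℝ) (c : ℝ) : ℝ := ∫ z, chi r (z - c) ∂μ

section

variable (μ : Measure ℝ) [IsProbabilityMeasure μ] (c : ℝ)

lemma dom_lim (g : ℕ → ℝ → ℝ) (s : Set ℝ) (hs : MeasurableSet s)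
    (hg : ∀ k, Continuous (g k)) (hb : ∀ k z, |g k z| ≤ 1)
    (hl : ∀ z, ∀ᶠ k in atTop, g k z = s.indicator (fun _ => (1 : ℝ)) z) :
    Tendsto (fun k => ∫ z, g k z ∂μ) atTop (𝓝 (μ s).toReal) := by
  have h1 : (μ s).toReal = ∫ z, s.indicator (fun _ => (1 : ℝ)) z ∂μ := by
    rw [integral_indicator_const _ hs]
    simp [Measure.real]
  rw [h1]
  refine tendsto_integral_of_dominated_convergence (fun _ => (1 : ℝ))
    (fun k => (hg k).aestronglyMeasurable) (integrable_const _)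
    (fun k => ae_of_all _ fun z => hb k z) (ae_of_all _ fun z => ?_)
  exact (tendsto_congr' (hl z)).2 tendsto_const_nhds

lemma IA_lim : Tendsto (fun k : ℕ => IA ((k : ℝ) + 1) μ c) atTop (𝓝 (PP μ c)) := by
  apply dom_lim μ _ _ (measurableSet_Iic.diff (measurableSet_singleton c))
  · intro k
    exact (aa_cont _).mul ((chi_cont _).comp (continuous_id.sub continuous_const))
  · intro k z
    have h1 := aa_bd ((k : ℝ) + 1) z
    have h2 := chi_bd (r := (k : ℝ) + 1) (by positivity) (z - c)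
    rw [abs_of_nonneg (mul_nonneg h1.1 h2.1)]
    exact mul_le_one₀ h1.2 h2.1 h2.2
  · intro z
    filter_upwards [aa_lim z, chi_lim (z - c)] with k h1 h2
    rw [h1, h2]
    by_cases h3 : z ≤ 1 / 2
    · by_cases h4 : z = c
      · have h5 : z - c = 0 := by rw [h4, sub_self]
        rw [Set.indicator_of_notMem (fun h => h.2 h4), if_pos h5, mul_zero]
      · rw [Set.indicator_of_mem (show z ∈ Set.Iic (1 / 2) \ {c} from ⟨h3, h4⟩), if_pos h3,
          if_neg (sub_ne_zero.2 h4), mul_one]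
    · rw [Set.indicator_of_notMem (fun h => h3 h.1), if_neg h3, zero_mul]

lemma IQ_lim : Tendsto (fun k : ℕ => IQ ((k : ℝ) + 1) μ c) atTop (𝓝 (QQ μ c)) := by
  apply dom_lim μ _ _ (measurableSet_Ioi.diff (measurableSet_singleton c))
  · intro k
    exact (continuous_const.sub (aa_cont _)).mul
      ((chi_cont _).comp (continuous_id.sub continuous_const))
  · intro k z
    have h1 := aa_bd ((k : ℝ) + 1) z
    have h2 := chi_bd (r := (k : ℝ) + 1) (by positivity) (z - c)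
    rw [abs_of_nonneg (mul_nonneg (by linarith [h1.2]) h2.1)]
    exact mul_le_one₀ (by linarith [h1.1]) h2.1 h2.2
  · intro z
    filter_upwards [aa_lim z, chi_lim (z - c)] with k h1 h2
    rw [h1, h2]
    by_cases h3 : z ≤ 1 / 2
    · rw [Set.indicator_of_notMem (fun h => absurd h.1 (not_lt.2 h3)), if_pos h3]
      ring
    · by_cases h4 : z = c
      · have h5 : z - c = 0 := by rw [h4, sub_self]
        rw [Set.indicator_of_notMem (fun h => h.2 h4), if_pos h5, mul_zero]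
      · rw [Set.indicator_of_mem (show z ∈ Set.Ioi (1 / 2) \ {c} from ⟨not_le.1 h3, h4⟩),
          if_neg h3, if_neg (sub_ne_zero.2 h4)]
        ring

lemma IR_lim : Tendsto (fun k : ℕ => IR ((k : ℝ) + 1) μ c) atTop (𝓝 (μ {c}ᶜ).toReal) := by
  apply dom_lim μ _ _ (measurableSet_singleton c).compl
  · intro k
    exact (chi_cont _).comp (continuous_id.sub continuous_const)
  · intro k z
    have h2 := chi_bd (r := (k : ℝ) + 1) (by positivity) (z - c)
    rw [abs_of_nonneg h2.1]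
    exact h2.2
  · intro z
    filter_upwards [chi_lim (z - c)] with k h2
    rw [h2]
    by_cases h4 : z = c
    · have h5 : z - c = 0 := by rw [h4, sub_self]
      rw [Set.indicator_of_notMem (show z ∉ ({c} : Set ℝ)ᶜ from fun h => h h4), if_pos h5]
    · rw [Set.indicator_of_mem (show z ∈ ({c} : Set ℝ)ᶜ from h4), if_neg (sub_ne_zero.2 h4)]

end

section

variable {nu : Measure ℝ} [SFinite nu] (hs : ∀ᵐ u ∂nu, 0 < u ∧ u ≤ 1)
  (hi : Integrable (fun u : ℝ => u) nu) {Ω : Type} [MeasurableSpace Ω] {P : Measure Ω}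
  [IsProbabilityMeasure P]
include hs hi

/-- **The functional of the Fleming-Viot process stays bounded from below in mean.** -/
theorem EF (hν : nu ≠ 0) : ∃ c1 > 0, ∀ (A : Ω → Set Atom) (U : Ω → ℕ → ℝ)
    (ρ : ℝ → Ω → Measure ℝ), Noise nu P A U → IsFlemingViot P A U ρ → ∀ t : ℝ, 0 < t →
      ENNReal.ofReal c1 ≤
        ∫⁻ ω, ENNReal.ofReal (FF (PP (ρ t ω) (U ω 0)) (QQ (ρ t ω) (U ω 0))) ∂P := by
  obtain ⟨c1, hc1, hL⟩ := low_phi (P := P) hs hi hν
  refine ⟨c1, hc1, ?_⟩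
  intro A U ρ N hFV t ht
  obtain ⟨ξ, hξ⟩ := (hFV.lim t ht.le).choice
  have hξ1 : ∀ᵐ ω ∂P, ∀ x, ∃ z, Anc (A ω) t x z ∧ ξ ω x = U ω z := hξ.mono fun ω h => h.1
  have h4 : ENNReal.ofReal (1 / 4) ≠ ⊤ := ENNReal.ofReal_ne_top
  -- first step
  have s1 : ∀ δ r : ℝ, 0 < δ → 0 < r → ENNReal.ofReal (c1 - 3 / (δ * r)) ≤
      ∫⁻ ω, ENNReal.ofReal (Fd δ (IA r (ρ t ω) (U ω 0)) (IQ r (ρ t ω) (U ω 0))) ∂P := by
    intro δ r hδ hr
    refine LL (fun n ω => ENNReal.ofReal (phi δ r (fun x : Fin (n + 1) => ξ ω x))) _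
      (ENNReal.ofReal (1 / 4)) h4
      (fun n ω => ENNReal.ofReal_le_ofReal (phi_bd hδ hr.le _).2) ?_
      (fun n => ENNReal.ofReal (c1 - 2 / (δ * Real.sqrt (n + 1)) - 3 / (δ * r))) _
      (fun n => hL A U N t ht ξ hξ1 n δ r hδ hr) ?_
    · filter_upwards [hξ] with ω hω
      have h0 := xi_zero hω.1
      unfold phi
      apply Fd_tend hδ
      · have h1 := hω.2 (fun z => aa r z * chi r (z - U ω 0))
          ((aa_cont _).mul ((chi_cont _).comp (continuous_id.sub continuous_const)))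
          ⟨1, fun z => by
            have h1 := aa_bd r z
            have h2 := chi_bd hr.le (z - U ω 0)
            rw [abs_of_nonneg (mul_nonneg h1.1 h2.1)]
            exact mul_le_one₀ h1.2 h2.1 h2.2⟩
        have h2 := (tendsto_add_atTop_iff_nat 1).2 h1
        refine h2.congr fun n => ?_
        have h3 := av_range (fun z => aa r z * chi r (z - U ω 0)) (ξ ω) n
        rw [← h3]
        unfold gA
        simp only [Fin.val_zero, h0]
      · have h1 := hω.2 (fun z => (1 - aa r z) * chi r (z - U ω 0))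
          ((continuous_const.sub (aa_cont _)).mul
            ((chi_cont _).comp (continuous_id.sub continuous_const)))
          ⟨1, fun z => by
            have h1 := aa_bd r z
            have h2 := chi_bd hr.le (z - U ω 0)
            rw [abs_of_nonneg (mul_nonneg (by linarith [h1.2]) h2.1)]
            exact mul_le_one₀ (by linarith [h1.1]) h2.1 h2.2⟩
        have h2 := (tendsto_add_atTop_iff_nat 1).2 h1
        refine h2.congr fun n => ?_
        have h3 := av_range (fun z => (1 - aa r z) * chi r (z - U ω 0)) (ξ ω) n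
        rw [← h3]
        unfold gQ
        simp only [Fin.val_zero, h0]
    · apply ENNReal.tendsto_ofReal
      have h1 : Tendsto (fun n : ℕ => Real.sqrt ((n : ℝ) + 1)) atTop atTop := by
        apply Real.tendsto_sqrt_atTop.comp
        exact tendsto_atTop_add_const_right _ _ tendsto_natCast_atTop_atTop
      have h2 : Tendsto (fun n : ℕ => δ * Real.sqrt ((n : ℝ) + 1)) atTop atTop :=
        h1.const_mul_atTop hδ
      have h3 : Tendsto (fun n : ℕ => 2 / (δ * Real.sqrt ((n : ℝ) + 1))) atTop (𝓝 0) :=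
        tendsto_const_nhds.div_atTop h2
      have h5 := (tendsto_const_nhds (x := c1)).sub h3
      have h6 := h5.sub (tendsto_const_nhds (x := 3 / (δ * r)))
      simpa using h6
  -- second step
  have s2 : ∀ δ : ℝ, 0 < δ → ENNReal.ofReal c1 ≤
      ∫⁻ ω, ENNReal.ofReal (Fd δ (PP (ρ t ω) (U ω 0)) (QQ (ρ t ω) (U ω 0))) ∂P := by
    intro δ hδ
    refine LL (fun k ω => ENNReal.ofReal (Fd δ (IA ((k : ℝ) + 1) (ρ t ω) (U ω 0))
      (IQ ((k : ℝ) + 1) (ρ t ω) (U ω 0)))) _
      (ENNReal.ofReal (1 / 4)) h4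
      (fun n ω => ENNReal.ofReal_le_ofReal (Fd_le hδ)) (ae_of_all _ fun ω => ?_)
      (fun k => ENNReal.ofReal (c1 - 3 / (δ * ((k : ℝ) + 1)))) _
      (fun k => s1 δ _ hδ (by positivity)) ?_
    · haveI := hFV.prob t ω
      exact Fd_tend hδ (IA_lim _ _) (IQ_lim _ _)
    · apply ENNReal.tendsto_ofReal
      have h2 : Tendsto (fun k : ℕ => δ * ((k : ℝ) + 1)) atTop atTop :=
        (tendsto_atTop_add_const_right _ _ tendsto_natCast_atTop_atTop).const_mul_atTop hδ
      have h3 : Tendsto (fun k : ℕ => 3 / (δ * ((k : ℝ) + 1))) atTop (𝓝 0) :=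
        tendsto_const_nhds.div_atTop h2
      simpa using (tendsto_const_nhds (x := c1)).sub h3
  -- third step
  refine LL (fun k ω => ENNReal.ofReal (Fd (1 / ((k : ℝ) + 1)) (PP (ρ t ω) (U ω 0))
      (QQ (ρ t ω) (U ω 0)))) _ (ENNReal.ofReal (1 / 4)) h4
      (fun n ω => ENNReal.ofReal_le_ofReal (Fd_le (by positivity))) (ae_of_all _ fun ω => ?_)
      (fun _ => ENNReal.ofReal c1) _ (fun k => s2 _ (by positivity)) tendsto_const_nhds
  exact ENNReal.tendsto_ofReal (Fd_delta _ _ ENNReal.toReal_nonneg ENNReal.toReal_nonneg)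

/-- **The mass of the first type tends to one in mean.** -/
theorem ER (hν : nu ≠ 0) : ∃ l0 > 0, ∀ (A : Ω → Set Atom) (U : Ω → ℕ → ℝ)
    (ρ : ℝ → Ω → Measure ℝ), Noise nu P A U → IsFlemingViot P A U ρ → ∀ t : ℝ, 0 < t →
      ENNReal.ofReal (1 - Real.exp (-(l0 * t))) ≤
        ∫⁻ ω, ENNReal.ofReal (1 - (ρ t ω {U ω 0}ᶜ).toReal) ∂P := by
  obtain ⟨l0, hl0, hL⟩ := low_chi (P := P) hs hi hν
  refine ⟨l0, hl0, ?_⟩
  intro A U ρ N hFV t ht
  obtain ⟨ξ, hξ⟩ := (hFV.lim t ht.le).choice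
  have hξ1 : ∀ᵐ ω ∂P, ∀ x, ∃ z, Anc (A ω) t x z ∧ ξ ω x = U ω z := hξ.mono fun ω h => h.1
  have hone : ∀ x : ℝ, 0 ≤ x → ENNReal.ofReal (1 - x) ≤ 1 := fun x hx => by
    rw [← ENNReal.ofReal_one]
    exact ENNReal.ofReal_le_ofReal (by linarith)
  have s1 : ∀ r : ℝ, 0 < r → ENNReal.ofReal (1 - Real.exp (-(l0 * t))) ≤
      ∫⁻ ω, ENNReal.ofReal (1 - IR r (ρ t ω) (U ω 0)) ∂P := by
    intro r hr
    refine LL (fun n ω => ENNReal.ofReal (1 - av (fun x : Fin (n + 1) =>
      chi r (ξ ω x - ξ ω 0)))) _ 1 ENNReal.one_ne_top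
      (fun n ω => hone _ (av_bd (fun x => chi_bd hr.le _)).1) ?_
      (fun _ => ENNReal.ofReal (1 - Real.exp (-(l0 * t)))) _
      (fun n => hL A U N t ht ξ hξ1 n r hr) tendsto_const_nhds
    filter_upwards [hξ] with ω hω
    have h0 := xi_zero hω.1
    apply ENNReal.tendsto_ofReal
    apply tendsto_const_nhds.sub
    have h1 := hω.2 (fun z => chi r (z - U ω 0))
      ((chi_cont _).comp (continuous_id.sub continuous_const))
      ⟨1, fun z => by
        have h2 := chi_bd hr.le (z - U ω 0)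
        rw [abs_of_nonneg h2.1]
        exact h2.2⟩
    have h2 := (tendsto_add_atTop_iff_nat 1).2 h1
    refine h2.congr fun n => ?_
    have h3 := av_range (fun z => chi r (z - U ω 0)) (ξ ω) n
    rw [← h3, h0]
  refine LL (fun k ω => ENNReal.ofReal (1 - IR ((k : ℝ) + 1) (ρ t ω) (U ω 0))) _ 1
      ENNReal.one_ne_top (fun k ω => hone _ ?_) (ae_of_all _ fun ω => ?_)
      (fun _ => ENNReal.ofReal (1 - Real.exp (-(l0 * t)))) _
      (fun k => s1 _ (by positivity)) tendsto_const_nhds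
  · unfold IR
    exact integral_nonneg fun z => (chi_bd (by positivity) _).1
  · haveI := hFV.prob t ω
    apply ENNReal.tendsto_ofReal
    exact tendsto_const_nhds.sub (IR_lim _ _)

end

end Pool.Agent.H89.FV
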