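import Pool.Agent.H89.FV.Ops

/-! Iterates of the one-cell operator. -/

namespace Pool.Agent.H89.FV

open MeasureTheory

set_option linter.unusedSectionVars false
set_option linter.style.haveILetI false

variable {m : ℕ}

/-- weight of a pattern in one cell -/
noncomputable def ww (h : ℝ) (k : Finset (Fin (m + 1)) → ℝ) (S : Finset (Fin (m + 1))) : ℝ :=
  Real.exp (-(h * tot k)) * (if S = ∅ then 1 else if 2 ≤ S.card then h * k S else 0)

lemma ww_nonneg {h : ℝ} (hh : 0 ≤ h) {k : Finset (Fin (m + 1)) → ℝ}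
    (hk : ∀ S ∈ rel m, 0 ≤ k S) (S : Finset (Fin (m + 1))) : 0 ≤ ww h k S := by
  unfold ww
  apply mul_nonneg (Real.exp_pos _).le
  split_ifs with h1 h2
  · norm_num
  · exact mul_nonneg hh (hk S (mem_rel.2 h2))
  · exact le_refl _

lemma MM_eq (h : ℝ) (k : Finset (Fin (m + 1)) → ℝ) (f : (Fin (m + 1) → Cl) → ℝ)
    (c : Fin (m + 1) → Cl) : MM h k f c = ∑ S, ww h k S * TT S f c := by
  unfold MM ww tot
  have e1 : ∀ S : Finset (Fin (m + 1)),
      (Real.exp (-(h * ∑ S ∈ rel m, k S)) *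
        (if S = ∅ then 1 else if 2 ≤ S.card then h * k S else 0)) * TT S f c =
      Real.exp (-(h * ∑ S ∈ rel m, k S)) * ((if S = ∅ then f c else 0) +
        (if 2 ≤ S.card then h * (k S * TT S f c) else 0)) := by
    intro S
    rw [mul_assoc]
    congr 1
    by_cases h1 : S = ∅
    · subst h1
      rw [TT_empty]
      simp
    · rw [if_neg h1, if_neg h1]
      split_ifs <;> ring
  rw [Finset.sum_congr rfl (fun S _ => e1 S), ← Finset.mul_sum, Finset.sum_add_distrib,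
    Finset.sum_ite_eq' Finset.univ ∅ (fun _ => f c), if_pos (Finset.mem_univ _),
    ← Finset.sum_filter, ← Finset.mul_sum]
  rfl

/-- The composition of the shifts of the cells, looking backward. -/
noncomputable def Psi {n : ℕ} (y : Fin n → Finset (Fin (m + 1))) (i : Fin (m + 1)) : Fin (m + 1) :=
  (List.ofFn y).foldr (fun S z => sdF S z) i

lemma Psi_zero {n : ℕ} (y : Fin n → Finset (Fin (m + 1))) : Psi y 0 = 0 := by
  unfold Psi
  generalize List.ofFn y = l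
  induction l with
  | nil => rfl
  | cons a t ih => rw [List.foldr_cons, ih, sdF_zero]

lemma Psi_cons {n : ℕ} (y : Fin (n + 1) → Finset (Fin (m + 1))) (i : Fin (m + 1)) :
    Psi y i = sdF (y 0) (Psi (fun l => y l.succ) i) := by
  unfold Psi
  rw [List.ofFn_succ, List.foldr_cons]

lemma iter_expand (h : ℝ) (k : Finset (Fin (m + 1)) → ℝ) (f : (Fin (m + 1) → Cl) → ℝ) (n : ℕ)
    (c : Fin (m + 1) → Cl) :
    (MM h k)^[n] f c = ∑ y : Fin n → Finset (Fin (m + 1)), (∏ l, ww h k (y l)) *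
      f (fun i => c (Psi y i)) := by
  induction n generalizing c with
  | zero =>
    simp only [Function.iterate_zero, id]
    rw [Fintype.sum_unique]
    simp [Psi]
  | succ n ih =>
    rw [Function.iterate_succ_apply', MM_eq,
      ← (Fin.consEquiv (fun _ : Fin (n + 1) => Finset (Fin (m + 1)))).sum_comp,
      Fintype.sum_prod_type]
    apply Finset.sum_congr rfl
    intro S _
    show ww h k S * ((MM h k)^[n] f (fun i => c (sdF S i))) = _
    rw [ih, Finset.mul_sum]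
    apply Finset.sum_congr rfl
    intro y _
    have e0 : (Fin.consEquiv (fun _ : Fin (n + 1) => Finset (Fin (m + 1)))) (S, y) =
      Fin.cons S y := rfl
    rw [e0, Fin.prod_univ_succ]
    simp only [Fin.cons_zero, Fin.cons_succ]
    rw [mul_assoc]
    congr 2
    congr 1
    ext i
    rw [Psi_cons]
    simp only [Fin.cons_zero, Fin.cons_succ]

lemma iter_bd {h B : ℝ} (hh : 0 ≤ h) {k : Finset (Fin (m + 1)) → ℝ}
    (hk : ∀ S ∈ rel m, 0 ≤ k S) {f : (Fin (m + 1) → Cl) → ℝ} (hf : ∀ c, 0 ≤ f c ∧ f c ≤ B)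
    (n : ℕ) : ∀ c, 0 ≤ (MM h k)^[n] f c ∧ (MM h k)^[n] f c ≤ B := by
  induction n with
  | zero => exact hf
  | succ n ih =>
    intro c
    rw [Function.iterate_succ_apply']
    exact MM_nonneg hh hk ih c

section

variable {nu' : Measure ℝ} [IsFiniteMeasure nu'] (hs : ∀ᵐ u ∂nu', 0 < u ∧ u ≤ 1)
include hs

lemma kap_nonneg' (S : Finset (Fin (m + 1))) : 0 ≤ kap nu' S := by
  unfold kap
  apply integral_nonneg_of_ae
  filter_upwards [hs] with u hu
  have h1 : 0 ≤ u ^ S.card := pow_nonneg hu.1.le _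
  have h3 : 0 ≤ (1 - u) ^ (Sᶜ).card := pow_nonneg (by linarith [hu.2]) _
  exact mul_nonneg h1 h3

/-- the error of one cell -/
noncomputable def err (h B : ℝ) (k k' : Finset (Fin (m + 1)) → ℝ) : ℝ :=
  (h * (tot k - tot k') + h ^ 2 * (tot k) ^ 2) * B

/-- one cell, for `MM` -/
lemma propagateM {h B : ℝ} (hh : 0 ≤ h) (hh1 : h * nu'.real Set.univ ≤ 1)
    {k : Finset (Fin (m + 1)) → ℝ} (hkk : ∀ S ∈ rel m, kap nu' S ≤ k S)
    {J : ℝ → ℝ → ℝ} {g : ℝ → ℝ → ℝ → ℝ} {b : ℝ}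
    (hstep : ∀ P Q v, Del P Q → 0 < v → v ≤ 1 → J P Q + g P Q v ≤ Phi v J P Q)
    (hg : ∀ P Q, Del P Q → Integrable (g P Q) nu')
    {f : (Fin (m + 1) → Cl) → ℝ} (hfB : ∀ c, 0 ≤ f c ∧ f c ≤ B)
    (hf : ∀ P Q, Del P Q → J P Q - b ≤ Ex P Q f)
    {P Q : ℝ} (hPQ : Del P Q) :
    J P Q - b - err h B k (kap nu') + h * ∫ v, g P Q v ∂nu' ≤ Ex P Q (MM h k f) := by
  have h1 := propagate hs hh hh1 hstep hg hf hPQ
  have h2 : Ex P Q (fun c => KK h (kap nu') f c - err h B k (kap nu')) ≤ Ex P Q (MM h k f) :=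
    Ex_mono hPQ fun c => MM_ge hh (fun S _ => kap_nonneg' hs S) hkk hfB c
  rw [Ex_sub_const] at h2
  linarith

lemma iterH {h B : ℝ} (hh : 0 ≤ h) (hh1 : h * nu'.real Set.univ ≤ 1) (hl : 0 < lam nu')
    {k : Finset (Fin (m + 1)) → ℝ} (hkk : ∀ S ∈ rel m, kap nu' S ≤ k S)
    {f : (Fin (m + 1) → Cl) → ℝ} (hfB : ∀ c, 0 ≤ f c ∧ f c ≤ B) {b : ℝ}
    (hf : ∀ P Q, Del P Q → FF P Q - b ≤ Ex P Q f) (n : ℕ) :
    ∀ P Q, Del P Q → HH nu' P Q - (b + n * err h B k (kap nu')) ≤ Ex P Q ((MM h k)^[n] f) := by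
  induction n with
  | zero =>
    intro P Q hPQ
    have := hf P Q hPQ
    have := HH_le_FF hs hl hPQ
    simp only [Function.iterate_zero, id, Nat.cast_zero, zero_mul, add_zero]
    linarith
  | succ n ih =>
    intro P Q hPQ
    rw [Function.iterate_succ_apply']
    have h1 := propagateM hs hh hh1 hkk (J := HH nu') (g := gH nu')
      (fun P Q v h1 h2 h3 => HH_step hs hl h1 h2 h3) (fun P Q h => int_gH hs h)
      (iter_bd hh (fun S hS => (kap_nonneg' hs S).trans (hkk S hS)) hfB n) ih hPQ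
    rw [integral_gH hs hl hPQ] at h1
    push_cast
    linarith

lemma iterR {h : ℝ} (hh : 0 ≤ h) (hh1 : h * nu'.real Set.univ ≤ 1)
    {k : Finset (Fin (m + 1)) → ℝ} (hkk : ∀ S ∈ rel m, kap nu' S ≤ k S)
    {f : (Fin (m + 1) → Cl) → ℝ} (hfB : ∀ c, 0 ≤ f c ∧ f c ≤ 1)
    (hf : ∀ P Q, Del P Q → 1 - (P + Q) ≤ Ex P Q f) (n : ℕ) :
    ∀ P Q, Del P Q → 1 - (1 - h * lam nu') ^ n * (P + Q) - (n * err h 1 k (kap nu')) ≤
      Ex P Q ((MM h k)^[n] f) := by
  induction n with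
  | zero =>
    intro P Q hPQ
    have := hf P Q hPQ
    simp only [Function.iterate_zero, id, Nat.cast_zero, zero_mul, pow_zero, one_mul]
    linarith
  | succ n ih =>
    intro P Q hPQ
    rw [Function.iterate_succ_apply']
    have h1 := propagateM hs hh hh1 hkk (J := fun P Q => 1 - (1 - h * lam nu') ^ n * (P + Q))
      (g := fun P Q v => (1 - h * lam nu') ^ n * (P + Q) * v ^ 2)
      (fun P Q v h1 h2 h3 => by
        unfold Phi
        apply le_of_eq
        ring) (fun P Q h => (int_sq hs).const_mul _)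
      (iter_bd hh (fun S hS => (kap_nonneg' hs S).trans (hkk S hS)) hfB n) ih hPQ
    rw [integral_const_mul] at h1
    have e : ∫ u, u ^ 2 ∂nu' = lam nu' := rfl
    rw [e] at h1
    push_cast
    rw [pow_succ]
    linarith

end

section limit

variable {nu : Measure ℝ} (hs : ∀ᵐ u ∂nu, 0 < u ∧ u ≤ 1) (hi : Integrable (fun u : ℝ => u) nu)
include hs hi

lemma fin_restrict {ε : ℝ} (hε : 0 < ε) : IsFiniteMeasure (nu.restrict (Set.Ioi ε)) := by
  constructor
  rw [Measure.restrict_apply_univ]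
  exact hi.measure_gt_lt_top hε

lemma int_pow' (a b : ℕ) (ha : 1 ≤ a) : Integrable (fun u : ℝ => u ^ a * (1 - u) ^ b) nu := by
  refine Integrable.mono' hi (by fun_prop) ?_
  filter_upwards [hs] with u hu
  have h1 : 0 ≤ u ^ a := pow_nonneg hu.1.le _
  have h2 : u ^ a ≤ u := by
    calc u ^ a ≤ u ^ 1 := pow_le_pow_of_le_one hu.1.le hu.2 ha
      _ = u := pow_one u
  have h3 : 0 ≤ (1 - u) ^ b := pow_nonneg (by linarith [hu.2]) _
  have h4 : (1 - u) ^ b ≤ 1 := pow_le_one₀ (by linarith [hu.2]) (by linarith [hu.1])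
  rw [Real.norm_eq_abs, abs_of_nonneg (mul_nonneg h1 h3)]
  nlinarith

lemma kap_diff {ε : ℝ} (hε : 0 < ε) (S : Finset (Fin (m + 1))) (hS : S ∈ rel m) :
    kap (nu.restrict (Set.Ioi ε)) S ≤ kap nu S ∧
    kap nu S - kap (nu.restrict (Set.Ioi ε)) S ≤ ε * ∫ u, u ∂nu := by
  rw [mem_rel] at hS
  have h1 := int_pow' hs hi S.card (Sᶜ).card (by omega)
  have h2 := integral_add_compl (measurableSet_Ioi (a := ε)) h1
  have e1 : kap (nu.restrict (Set.Ioi ε)) S =
    ∫ x in Set.Ioi ε, x ^ S.card * (1 - x) ^ (Sᶜ).card ∂nu := rfl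
  have e2 : kap nu S = ∫ x, x ^ S.card * (1 - x) ^ (Sᶜ).card ∂nu := rfl
  rw [e1, e2, ← h2]
  have h3 : 0 ≤ ∫ x in (Set.Ioi ε)ᶜ, x ^ S.card * (1 - x) ^ (Sᶜ).card ∂nu := by
    apply integral_nonneg_of_ae
    filter_upwards [ae_restrict_of_ae hs] with u hu
    exact mul_nonneg (pow_nonneg hu.1.le _) (pow_nonneg (by linarith [hu.2]) _)
  refine ⟨by linarith, ?_⟩
  rw [add_sub_cancel_left]
  calc ∫ x in (Set.Ioi ε)ᶜ, x ^ S.card * (1 - x) ^ (Sᶜ).card ∂nu
      ≤ ∫ x in (Set.Ioi ε)ᶜ, ε * x ∂nu := by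
        apply integral_mono_ae h1.integrableOn (hi.const_mul ε).integrableOn
        filter_upwards [ae_restrict_of_ae hs, ae_restrict_mem (measurableSet_Ioi (a := ε)).compl]
          with u hu hu2
        have hu3 : u ≤ ε := by simpa using hu2
        show u ^ S.card * (1 - u) ^ (Sᶜ).card ≤ ε * u
        have h1 : 0 ≤ u ^ S.card := pow_nonneg hu.1.le _
        have h2 : u ^ S.card ≤ u * u := by
          calc u ^ S.card ≤ u ^ 2 := pow_le_pow_of_le_one hu.1.le hu.2 hS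
            _ = u * u := by ring
        have h3 : 0 ≤ (1 - u) ^ (Sᶜ).card := pow_nonneg (by linarith [hu.2]) _
        have h4 : (1 - u) ^ (Sᶜ).card ≤ 1 := pow_le_one₀ (by linarith [hu.2]) (by linarith [hu.1])
        nlinarith [hu.1]
    _ ≤ ∫ x, ε * x ∂nu := by
        apply setIntegral_le_integral (hi.const_mul ε)
        filter_upwards [hs] with u hu
        exact mul_nonneg hε.le hu.1.le
    _ = ε * ∫ u, u ∂nu := integral_const_mul _ _

lemma kap_nonneg (S : Finset (Fin (m + 1))) : 0 ≤ kap nu S := by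
  unfold kap
  apply integral_nonneg_of_ae
  filter_upwards [hs] with u hu
  exact mul_nonneg (pow_nonneg hu.1.le _) (pow_nonneg (by linarith [hu.2]) _)

lemma tot_diff {ε : ℝ} (hε : 0 < ε) :
    tot (m := m) (kap nu) - tot (m := m) (kap (nu.restrict (Set.Ioi ε))) ≤
      (rel m).card * (ε * ∫ u, u ∂nu) := by
  unfold tot
  rw [← Finset.sum_sub_distrib, ← nsmul_eq_mul]
  exact Finset.sum_le_card_nsmul _ _ _ fun S hS => (kap_diff hs hi hε S hS).2

lemma exists_eps (hν : nu ≠ 0) : ∃ ε > 0, 0 < lam (nu.restrict (Set.Ioi ε)) := by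
  have hne : ∃ n : ℕ, nu (Set.Ioi (1 / ((n : ℝ) + 1))) ≠ 0 := by
    by_contra hc
    push Not at hc
    apply hν
    have h1 : nu (Set.Ioi 0) = 0 := by
      refine measure_mono_null ?_ (measure_iUnion_null hc)
      intro u hu
      obtain ⟨n, hn⟩ := exists_nat_one_div_lt (show (0 : ℝ) < u from hu)
      exact Set.mem_iUnion.2 ⟨n, hn⟩
    rw [← Measure.measure_univ_eq_zero]
    have h2 : nu (Set.Ioi (0 : ℝ))ᶜ = 0 := by
      have : ∀ᵐ u ∂nu, u ∈ Set.Ioi (0 : ℝ) := by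
        filter_upwards [hs] with u hu using hu.1
      exact this
    rw [← Set.union_compl_self (Set.Ioi (0 : ℝ))]
    exact measure_union_null h1 h2
  obtain ⟨n, hn⟩ := hne
  have hε : (0 : ℝ) < 1 / ((n : ℝ) + 1) := by positivity
  refine ⟨_, hε, ?_⟩
  haveI := fin_restrict hs hi hε
  unfold lam
  rw [integral_pos_iff_support_of_nonneg (fun u => sq_nonneg u) (int_sq (ae_restrict_of_ae hs))]
  rw [Measure.restrict_apply₀']
  · refine lt_of_lt_of_le (pos_iff_ne_zero.2 hn) (measure_mono ?_)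
    intro u hu
    refine ⟨?_, hu⟩
    rw [Function.mem_support]
    have : (0 : ℝ) < u := hε.trans hu
    positivity
  · exact measurableSet_Ioi.nullMeasurableSet

lemma lam_mono {ε ε0 : ℝ} (hε : 0 < ε) (h : ε ≤ ε0) :
    lam (nu.restrict (Set.Ioi ε0)) ≤ lam (nu.restrict (Set.Ioi ε)) := by
  haveI := fin_restrict hs hi hε
  unfold lam
  apply setIntegral_mono_set
  · exact int_sq (ae_restrict_of_ae hs)
  · exact Filter.Eventually.of_forall fun u => sq_nonneg u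
  · exact (Set.Ioi_subset_Ioi h).eventuallyLE

lemma lam_le {ε : ℝ} (hε : 0 < ε) :
    lam (nu.restrict (Set.Ioi ε)) ≤ (nu.restrict (Set.Ioi ε)).real Set.univ := by
  haveI := fin_restrict hs hi hε
  have h1 : (nu.restrict (Set.Ioi ε)).real Set.univ = ∫ _u, (1 : ℝ) ∂(nu.restrict (Set.Ioi ε)) := by
    rw [integral_const, smul_eq_mul, mul_one]
  rw [h1]
  unfold lam
  apply integral_mono_ae (int_sq (ae_restrict_of_ae hs)) (integrable_const _)
  filter_upwards [ae_restrict_of_ae hs] with u hu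
  show u ^ 2 ≤ 1
  nlinarith [hu.1, hu.2]

/-- choice of the parameters -/
lemma params {ε0 t B η : ℝ} (hε0 : 0 < ε0) (ht : 0 ≤ t) (hB : 0 ≤ B) (hη : 0 < η) :
    ∃ ε > 0, ε ≤ ε0 ∧ ∃ n : ℕ, 1 ≤ n ∧
      (t / n) * (nu.restrict (Set.Ioi ε)).real Set.univ ≤ 1 ∧
      n * err (t / n) B (kap nu) (kap (m := m) (nu.restrict (Set.Ioi ε))) ≤ η := by
  set μ := ∫ u, u ∂nu with hμ
  have hμ0 : 0 ≤ μ := by
    apply integral_nonneg_of_ae
    filter_upwards [hs] with u hu using hu.1.le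
  set N : ℝ := ((rel m).card : ℝ) with hN
  have hN0 : 0 ≤ N := Nat.cast_nonneg _
  set ε := min ε0 (η / (2 * (t * N * μ * B + 1))) with hε
  have hd : 0 < t * N * μ * B + 1 := by positivity
  have hεpos : 0 < ε := lt_min hε0 (by positivity)
  refine ⟨ε, hεpos, min_le_left _ _, ?_⟩
  haveI := fin_restrict hs hi hεpos
  set V := (nu.restrict (Set.Ioi ε)).real Set.univ with hV
  set K := tot (m := m) (kap nu) with hK
  obtain ⟨n, hn⟩ := exists_nat_gt (1 + t * V + 2 * (t ^ 2 * K ^ 2 * B) / η)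
  have hV0 : 0 ≤ V := measureReal_nonneg
  have hx : 0 ≤ 2 * (t ^ 2 * K ^ 2 * B) / η := by positivity
  have htV : 0 ≤ t * V := mul_nonneg ht hV0
  have hn1 : (1 : ℝ) < n := by linarith
  have hn0 : (0 : ℝ) < n := by linarith
  refine ⟨n, by exact_mod_cast hn1.le, ?_, ?_⟩
  · rw [div_mul_eq_mul_div, div_le_one hn0]
    linarith
  · unfold err
    have e1 : (n : ℝ) * (((t / n) * (K - tot (m := m) (kap (nu.restrict (Set.Ioi ε)))) +
        (t / n) ^ 2 * K ^ 2) * B) = t * (K - tot (m := m) (kap (nu.restrict (Set.Ioi ε)))) * B +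
        t ^ 2 * K ^ 2 * B / n := by
      field_simp
    rw [e1]
    have e2 : K - tot (m := m) (kap (nu.restrict (Set.Ioi ε))) ≤ N * (ε * μ) := tot_diff hs hi hεpos
    have e3 : t * (K - tot (m := m) (kap (nu.restrict (Set.Ioi ε)))) * B ≤ t * (N * (ε * μ)) * B :=
      mul_le_mul_of_nonneg_right (mul_le_mul_of_nonneg_left e2 ht) hB
    have e4 : t * (N * (ε * μ)) * B ≤ η / 2 := by
      have h1 : ε ≤ η / (2 * (t * N * μ * B + 1)) := min_le_right _ _
      have h2 : 0 ≤ t * N * μ * B := by positivity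
      calc t * (N * (ε * μ)) * B = ε * (t * N * μ * B) := by ring
        _ ≤ η / (2 * (t * N * μ * B + 1)) * (t * N * μ * B) := mul_le_mul_of_nonneg_right h1 h2
        _ ≤ η / (2 * (t * N * μ * B + 1)) * (t * N * μ * B + 1) := by
            apply mul_le_mul_of_nonneg_left (by linarith) (by positivity)
        _ = η / 2 := by field_simp
    have e5 : t ^ 2 * K ^ 2 * B / n ≤ η / 2 := by
      rw [div_le_iff₀ hn0]
      have h1 : 2 * (t ^ 2 * K ^ 2 * B) / η ≤ n := by linarith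
      rw [div_le_iff₀ hη] at h1
      linarith
    linarith

/-- **Lower bound for the functional `FF`.** -/
theorem lowF (hν : nu ≠ 0) : ∃ c1 > 0, ∀ t : ℝ, 0 ≤ t → ∀ (m : ℕ)
    (f : (Fin (m + 1) → Cl) → ℝ) (B b : ℝ), (∀ c, 0 ≤ f c ∧ f c ≤ B) →
    (∀ P Q, Del P Q → FF P Q - b ≤ Ex P Q f) → ∀ η > 0, ∃ n : ℕ, 1 ≤ n ∧
      c1 - b - η ≤ Ex (1 / 2) (1 / 2) ((MM (t / n) (kap nu))^[n] f) := by
  obtain ⟨ε0, hε0, hl0⟩ := exists_eps hs hi hν
  set μ := ∫ u, u ∂nu with hμ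
  have hμ0 : 0 ≤ μ := by
    apply integral_nonneg_of_ae
    filter_upwards [hs] with u hu using hu.1.le
  refine ⟨1 / 4 * Real.exp (-((lam (nu.restrict (Set.Ioi ε0)))⁻¹ * μ)), by positivity, ?_⟩
  intro t ht m f B b hfB hf η hη
  have hB : 0 ≤ B := (hfB (fun _ => Cl.E)).1.trans (hfB (fun _ => Cl.E)).2
  obtain ⟨ε, hε, hεε, n, hn, hh1, herr⟩ := params (m := m) hs hi hε0 ht hB hη
  refine ⟨n, hn, ?_⟩
  haveI := fin_restrict hs hi hε
  have hs' : ∀ᵐ u ∂(nu.restrict (Set.Ioi ε)), 0 < u ∧ u ≤ 1 := ae_restrict_of_ae hs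
  have hlm := lam_mono hs hi hε hεε
  have hl : 0 < lam (nu.restrict (Set.Ioi ε)) := hl0.trans_le hlm
  have h1 := iterH hs' (h := t / n) (by positivity) hh1 hl
    (k := kap nu) (fun S hS => (kap_diff hs hi hε S hS).1) hfB hf n (1 / 2) (1 / 2)
    ⟨by norm_num, by norm_num, by norm_num⟩
  rw [HH_half hs'] at h1
  have h2 : 1 / 4 * Real.exp (-((lam (nu.restrict (Set.Ioi ε0)))⁻¹ * μ)) ≤
      1 / 4 * Real.exp (-((lam (nu.restrict (Set.Ioi ε)))⁻¹ *
        psi (nu.restrict (Set.Ioi ε)) 1)) := by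
    apply mul_le_mul_of_nonneg_left _ (by norm_num)
    apply Real.exp_le_exp.2
    have h3 : psi (nu.restrict (Set.Ioi ε)) 1 ≤ μ := by
      apply psi_one_le hs'
      apply setIntegral_le_integral hi
      filter_upwards [hs] with u hu using hu.1.le
    have h4 : (lam (nu.restrict (Set.Ioi ε)))⁻¹ ≤ (lam (nu.restrict (Set.Ioi ε0)))⁻¹ :=
      inv_anti₀ hl0 hlm
    have h5 : (lam (nu.restrict (Set.Ioi ε)))⁻¹ * psi (nu.restrict (Set.Ioi ε)) 1 ≤
        (lam (nu.restrict (Set.Ioi ε)))⁻¹ * μ :=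
      mul_le_mul_of_nonneg_left h3 (inv_nonneg.2 hl.le)
    have h6 := mul_le_mul_of_nonneg_right h4 hμ0
    linarith
  linarith

/-- **Lower bound for the probability that a level descends from level `0`.** -/
theorem lowR (hν : nu ≠ 0) : ∃ l0 > 0, ∀ t : ℝ, 0 ≤ t → ∀ (m : ℕ)
    (f : (Fin (m + 1) → Cl) → ℝ), (∀ c, 0 ≤ f c ∧ f c ≤ 1) →
    (∀ P Q, Del P Q → 1 - (P + Q) ≤ Ex P Q f) →
    ∀ η > 0, ∃ n : ℕ, 1 ≤ n ∧
      1 - Real.exp (-(l0 * t)) - η ≤ Ex (1 / 2) (1 / 2) ((MM (t / n) (kap nu))^[n] f) := by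
  obtain ⟨ε0, hε0, hl0⟩ := exists_eps hs hi hν
  refine ⟨lam (nu.restrict (Set.Ioi ε0)), hl0, ?_⟩
  intro t ht m f hfB hf η hη
  obtain ⟨ε, hε, hεε, n, hn, hh1, herr⟩ := params (m := m) hs hi hε0 ht zero_le_one hη
  refine ⟨n, hn, ?_⟩
  haveI := fin_restrict hs hi hε
  have hs' : ∀ᵐ u ∂(nu.restrict (Set.Ioi ε)), 0 < u ∧ u ≤ 1 := ae_restrict_of_ae hs
  have hlm := lam_mono hs hi hε hεε
  have hl : 0 < lam (nu.restrict (Set.Ioi ε)) := hl0.trans_le hlm
  have hn0 : (0 : ℝ) < n := by exact_mod_cast hn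
  have h1 := iterR hs' (h := t / n) (by positivity) hh1
    (k := kap nu) (fun S hS => (kap_diff hs hi hε S hS).1) hfB hf n (1 / 2) (1 / 2)
    ⟨by norm_num, by norm_num, by norm_num⟩
  have h2 : (1 - (t / n) * lam (nu.restrict (Set.Ioi ε))) ^ n ≤
      Real.exp (-(lam (nu.restrict (Set.Ioi ε0)) * t)) := by
    have h3 : 0 ≤ 1 - (t / n) * lam (nu.restrict (Set.Ioi ε)) := by
      have := mul_le_mul_of_nonneg_left (lam_le hs hi hε) (show 0 ≤ t / n by positivity)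
      linarith
    have h4 : 1 - (t / n) * lam (nu.restrict (Set.Ioi ε)) ≤
        Real.exp (-((t / n) * lam (nu.restrict (Set.Ioi ε0)))) := by
      have h5 := Real.add_one_le_exp (-((t / n) * lam (nu.restrict (Set.Ioi ε0))))
      have h6 := mul_le_mul_of_nonneg_left hlm (show 0 ≤ t / n by positivity)
      linarith
    calc _ ≤ (Real.exp (-((t / n) * lam (nu.restrict (Set.Ioi ε0))))) ^ n :=
          pow_le_pow_left₀ h3 h4 n
      _ = Real.exp (-(lam (nu.restrict (Set.Ioi ε0)) * t)) := by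
          rw [← Real.exp_nat_mul]
          congr 1
          field_simp
  have h3 : (1 - (t / n) * lam (nu.restrict (Set.Ioi ε))) ^ n * (1 / 2 + 1 / 2) =
    (1 - (t / n) * lam (nu.restrict (Set.Ioi ε))) ^ n := by ring
  rw [h3] at h1
  linarith

end limit

end Pool.Agent.H89.FV
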