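import Pool.Agent.H89.FV.Defs

/-! The one-event kernel on the masses of the two classes, and a positive subinvariant function. -/

namespace Pool.Agent.H89.FV

open MeasureTheory

/-- The one-event kernel on the pair `(P, Q)` of the masses of two classes. -/
noncomputable def Phi (u : ℝ) (J : ℝ → ℝ → ℝ) (P Q : ℝ) : ℝ :=
  (u + (1 - u) * (1 - P - Q)) * J ((1 - u) * P) ((1 - u) * Q)
  + (1 - u) * P * J ((1 - u) * P + u) ((1 - u) * Q)
  + (1 - u) * Q * J ((1 - u) * P) ((1 - u) * Q + u)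

/-- The product of the relative masses (with the convention `1/4` if the total mass vanishes). -/
noncomputable def FF (P Q : ℝ) : ℝ := if P + Q = 0 then 1 / 4 else P * Q / (P + Q) ^ 2

/-- The simplex. -/
structure Del (P Q : ℝ) : Prop where
  hP : 0 ≤ P
  hQ : 0 ≤ Q
  hR : P + Q ≤ 1

lemma FF_nonneg {P Q : ℝ} (h : Del P Q) : 0 ≤ FF P Q := by
  unfold FF
  split_ifs
  · norm_num
  · have := h.hP; have := h.hQ; positivity

lemma FF_le {P Q : ℝ} (h : Del P Q) : FF P Q ≤ 1 / 4 := by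
  unfold FF
  split_ifs with h0
  · exact le_refl _
  · have h1 : 0 < P + Q := lt_of_le_of_ne (add_nonneg h.hP h.hQ) (Ne.symm h0)
    rw [div_le_div_iff₀ (by positivity) (by norm_num)]
    nlinarith [sq_nonneg (P - Q)]

noncomputable def kk (u R : ℝ) : ℝ := u / ((1 - u) * R + u)

lemma kk_den {u R : ℝ} (hu : 0 < u) (hu1 : u ≤ 1) (hR : 0 ≤ R) : 0 < (1 - u) * R + u := by
  have : 0 ≤ (1 - u) * R := mul_nonneg (by linarith) hR
  linarith

lemma kk_nonneg {u R : ℝ} (hu : 0 < u) (hu1 : u ≤ 1) (hR : 0 ≤ R) : 0 ≤ kk u R :=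
  div_nonneg hu.le (kk_den hu hu1 hR).le

lemma kk_le_one {u R : ℝ} (hu : 0 < u) (hu1 : u ≤ 1) (hR : 0 ≤ R) : kk u R ≤ 1 := by
  unfold kk
  rw [div_le_one (kk_den hu hu1 hR)]
  have : 0 ≤ (1 - u) * R := mul_nonneg (by linarith) hR
  linarith

lemma kk_anti {u R R' : ℝ} (hu : 0 < u) (hu1 : u ≤ 1) (hR : 0 ≤ R) (h : R ≤ R') :
    kk u R' ≤ kk u R := by
  unfold kk
  apply div_le_div_of_nonneg_left hu.le (kk_den hu hu1 hR)
  have := mul_le_mul_of_nonneg_left h (show 0 ≤ 1 - u by linarith)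
  linarith

lemma kk_jensen {u v R : ℝ} (hu : 0 < u) (hu1 : u ≤ 1) (hv : 0 < v) (hv1 : v ≤ 1) (hR : 0 ≤ R)
    (hR1 : R ≤ 1) :
    v ^ 2 * ((1 - u) * R * (kk u R) ^ 2) ≤
      u * ((1 - (1 - v) * R) * kk u ((1 - v) * R) + (1 - v) * R * kk u ((1 - v) * R + v)
        - kk u R) := by
  have ha : 0 ≤ 1 - u := by linarith
  have hb : 0 ≤ 1 - v := by linarith
  have hq : 0 ≤ (1 - v) * R := mul_nonneg hb hR
  have hq1 : 0 ≤ 1 - (1 - v) * R := by nlinarith
  have h1 := kk_den (R := (1 - v) * R) hu hu1 hq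
  have h2 := kk_den (R := (1 - v) * R + v) hu hu1 (by positivity)
  have h3 := kk_den (R := R) hu hu1 hR
  unfold kk
  set d1 := (1 - u) * ((1 - v) * R) + u with hd1
  set d2 := (1 - u) * ((1 - v) * R + v) + u with hd2
  set d := (1 - u) * R + u with hd
  set q := (1 - v) * R with hqd
  have hdm : (1 - q) * d1 + q * d2 = d - (1 - u) * v ^ 2 * R := by
    rw [hd1, hd2, hd, hqd]; ring
  have hdm0 : 0 < (1 - q) * d1 + q * d2 := by
    rcases eq_or_lt_of_le hq with h0 | h0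
    · rw [← h0]; linarith
    · nlinarith [mul_nonneg hq1 h1.le, mul_pos h0 h2]
  have e1 : 1 / ((1 - q) * d1 + q * d2) ≤ (1 - q) / d1 + q / d2 := by
    rw [div_add_div _ _ h1.ne' h2.ne', div_le_div_iff₀ hdm0 (mul_pos h1 h2)]
    nlinarith [mul_nonneg (mul_nonneg hq hq1) (sq_nonneg (d1 - d2))]
  have e2 : 1 / d + ((1 - u) * v ^ 2 * R) / d ^ 2 ≤ 1 / ((1 - q) * d1 + q * d2) := by
    rw [hdm] at hdm0 ⊢
    have hx : 0 ≤ (1 - u) * v ^ 2 * R := by positivity
    set x := (1 - u) * v ^ 2 * R with hxd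
    have : 1 / d + x / d ^ 2 = (d + x) / d ^ 2 := by
      field_simp
    rw [this, div_le_div_iff₀ (by positivity) hdm0]
    nlinarith [sq_nonneg x]
  have e3 := e2.trans e1
  have e4 := mul_le_mul_of_nonneg_left e3 (show 0 ≤ u * u by positivity)
  have l1 : v ^ 2 * ((1 - u) * R * (u / d) ^ 2) = u * u * (((1 - u) * v ^ 2 * R) / d ^ 2) := by
    field_simp
  have l2 : u * ((1 - q) * (u / d1) + q * (u / d2) - u / d) =
      u * u * ((1 - q) / d1 + q / d2) - u * u * (1 / d) := by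
    field_simp
  rw [l1, l2]
  linarith [mul_add (u * u) (1 / d) (((1 - u) * v ^ 2 * R) / d ^ 2)]

section

set_option linter.unusedSectionVars false

variable (nu : Measure ℝ)

noncomputable def psi (R : ℝ) : ℝ := ∫ u, u * (1 - kk u R) ∂nu

noncomputable def GG (R : ℝ) : ℝ := ∫ u, (1 - u) * R * (kk u R) ^ 2 ∂nu

noncomputable def lam : ℝ := ∫ u, u ^ 2 ∂nu

noncomputable def EEE (R : ℝ) : ℝ := Real.exp (-((lam nu)⁻¹ * psi nu R))

noncomputable def HH (P Q : ℝ) : ℝ := FF P Q * EEE nu (P + Q)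

/-- the lower bound for the increment of `HH` -/
noncomputable def gH (P Q v : ℝ) : ℝ :=
  FF P Q * EEE nu (P + Q) *
    ((lam nu)⁻¹ * (v ^ 2 * GG nu (P + Q)) - (1 - v) * (P + Q) * (kk v (P + Q)) ^ 2)

variable {nu}

lemma meas_kk (R : ℝ) : Measurable fun u => kk u R := by
  unfold kk
  fun_prop

variable [IsFiniteMeasure nu] (hs : ∀ᵐ u ∂nu, 0 < u ∧ u ≤ 1)
include hs

lemma int_psi {R : ℝ} (hR : 0 ≤ R) : Integrable (fun u => u * (1 - kk u R)) nu := by
  refine Integrable.of_bound (C := 1) ?_ ?_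
  · exact (measurable_id.mul (measurable_const.sub (meas_kk R))).aestronglyMeasurable
  · filter_upwards [hs] with u hu
    have h1 := kk_nonneg hu.1 hu.2 hR
    have h2 := kk_le_one hu.1 hu.2 hR
    rw [Real.norm_eq_abs, abs_le]
    constructor <;> nlinarith [hu.1, hu.2]

lemma int_kk {R : ℝ} (hR : 0 ≤ R) : Integrable (fun u => u * kk u R) nu := by
  refine Integrable.of_bound (C := 1) ?_ ?_
  · exact (measurable_id.mul (meas_kk R)).aestronglyMeasurable
  · filter_upwards [hs] with u hu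
    have h1 := kk_nonneg hu.1 hu.2 hR
    have h2 := kk_le_one hu.1 hu.2 hR
    rw [Real.norm_eq_abs, abs_le]
    constructor <;> nlinarith [hu.1, hu.2]

lemma int_G {R : ℝ} (hR : 0 ≤ R) : Integrable (fun u => (1 - u) * R * (kk u R) ^ 2) nu := by
  refine Integrable.of_bound (C := R) ?_ ?_
  · exact (((measurable_const.sub measurable_id).mul measurable_const).mul
      ((meas_kk R).pow_const 2)).aestronglyMeasurable
  · filter_upwards [hs] with u hu
    have h1 := kk_nonneg hu.1 hu.2 hR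
    have h2 := kk_le_one hu.1 hu.2 hR
    have h3 : (kk u R) ^ 2 ≤ 1 := by nlinarith
    have h4 : 0 ≤ (1 - u) * R := mul_nonneg (by linarith [hu.2]) hR
    have h5 : (1 - u) * R ≤ R := by nlinarith [hu.1]
    rw [Real.norm_eq_abs, abs_le]
    constructor
    · nlinarith [mul_nonneg h4 (sq_nonneg (kk u R))]
    · nlinarith [mul_nonneg h4 (sub_nonneg.2 h3)]

lemma int_sq : Integrable (fun u => u ^ 2) nu := by
  refine Integrable.of_bound (C := 1) ?_ ?_
  · exact (measurable_id.pow_const 2).aestronglyMeasurable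
  · filter_upwards [hs] with u hu
    rw [Real.norm_eq_abs, abs_le]
    constructor <;> nlinarith [hu.1, hu.2]

lemma psi_mono {R R' : ℝ} (hR : 0 ≤ R) (h : R ≤ R') : psi nu R ≤ psi nu R' := by
  unfold psi
  apply integral_mono_ae (int_psi hs hR) (int_psi hs (hR.trans h))
  filter_upwards [hs] with u hu
  have := kk_anti hu.1 hu.2 hR h
  have := hu.1
  show u * (1 - kk u R) ≤ u * (1 - kk u R')
  nlinarith

lemma psi_nonneg {R : ℝ} (hR : 0 ≤ R) : 0 ≤ psi nu R := by
  unfold psi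
  apply integral_nonneg_of_ae
  filter_upwards [hs] with u hu
  have h2 := kk_le_one hu.1 hu.2 hR
  have := hu.1
  show 0 ≤ u * (1 - kk u R)
  nlinarith

lemma psi_diff {v R : ℝ} (hv : 0 < v) (hv1 : v ≤ 1) (hR : 0 ≤ R) (hR1 : R ≤ 1) :
    v ^ 2 * GG nu R ≤ psi nu R - (1 - (1 - v) * R) * psi nu ((1 - v) * R)
      - (1 - v) * R * psi nu ((1 - v) * R + v) := by
  have hb : 0 ≤ 1 - v := by linarith
  have hq : 0 ≤ (1 - v) * R := mul_nonneg hb hR
  have hq2 : 0 ≤ (1 - v) * R + v := by linarith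
  have i0 := int_psi hs hR
  have i1 := (int_psi hs hq).const_mul (1 - (1 - v) * R)
  have i2 := (int_psi hs hq2).const_mul ((1 - v) * R)
  have e0 : psi nu R - (1 - (1 - v) * R) * psi nu ((1 - v) * R)
      - (1 - v) * R * psi nu ((1 - v) * R + v) = ∫ u, (u * (1 - kk u R)
    - (1 - (1 - v) * R) * (u * (1 - kk u ((1 - v) * R)))
    - (1 - v) * R * (u * (1 - kk u ((1 - v) * R + v)))) ∂nu := by
    unfold psi
    rw [← integral_const_mul, ← integral_const_mul]
    have := integral_sub (i0.sub i1) i2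
    simp only [Pi.sub_apply] at this
    rw [this, integral_sub i0 i1]
  rw [e0]
  unfold GG
  rw [← integral_const_mul]
  apply integral_mono_ae ((int_G hs hR).const_mul _) ((i0.sub i1).sub i2)
  filter_upwards [hs] with u hu
  have := kk_jensen hu.1 hu.2 hv hv1 hR hR1
  show v ^ 2 * ((1 - u) * R * kk u R ^ 2) ≤ u * (1 - kk u R)
    - (1 - (1 - v) * R) * (u * (1 - kk u ((1 - v) * R)))
    - (1 - v) * R * (u * (1 - kk u ((1 - v) * R + v)))
  nlinarith

lemma EEE_pos (R : ℝ) : 0 < EEE nu R := Real.exp_pos _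

lemma HH_le_FF (hl : 0 < lam nu) {P Q : ℝ} (h : Del P Q) : HH nu P Q ≤ FF P Q := by
  unfold HH EEE
  have h1 := psi_nonneg hs (add_nonneg h.hP h.hQ)
  have h2 : Real.exp (-((lam nu)⁻¹ * psi nu (P + Q))) ≤ 1 := by
    rw [Real.exp_le_one_iff]
    have : 0 ≤ (lam nu)⁻¹ * psi nu (P + Q) := mul_nonneg (inv_nonneg.2 hl.le) h1
    linarith
  nlinarith [FF_nonneg h]

lemma HH_nonneg {P Q : ℝ} (h : Del P Q) : 0 ≤ HH nu P Q :=
  mul_nonneg (FF_nonneg h) (Real.exp_pos _).le

lemma EEE_lower (R x : ℝ) :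
    EEE nu R * (1 + (lam nu)⁻¹ * (psi nu R - psi nu x)) ≤ EEE nu x := by
  unfold EEE
  have h : Real.exp (-((lam nu)⁻¹ * psi nu x)) = Real.exp (-((lam nu)⁻¹ * psi nu R)) *
      Real.exp ((lam nu)⁻¹ * (psi nu R - psi nu x)) := by
    rw [← Real.exp_add]
    congr 1
    ring
  rw [h]
  apply mul_le_mul_of_nonneg_left _ (Real.exp_pos _).le
  have := Real.add_one_le_exp ((lam nu)⁻¹ * (psi nu R - psi nu x))
  linarith

lemma HH_step (hl : 0 < lam nu) {P Q v : ℝ} (h : Del P Q) (hv : 0 < v) (hv1 : v ≤ 1) :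
    HH nu P Q + gH nu P Q v ≤ Phi v (HH nu) P Q := by
  have hP := h.hP
  have hQ := h.hQ
  have hR1 := h.hR
  set R := P + Q with hRd
  have hR : 0 ≤ R := add_nonneg hP hQ
  have hb : 0 ≤ 1 - v := by linarith
  have hq : 0 ≤ (1 - v) * R := mul_nonneg hb hR
  have hq1 : 0 ≤ 1 - (1 - v) * R := by nlinarith
  have hF0 := FF_nonneg h
  have hF1 := FF_le h
  have hE := EEE_pos hs (nu := nu) R
  have hE1 := EEE_lower hs (nu := nu) R ((1 - v) * R)
  have hE2 := EEE_lower hs (nu := nu) R ((1 - v) * R + v)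
  have hE3 : EEE nu ((1 - v) * R + v) ≤ EEE nu R := by
    unfold EEE
    apply Real.exp_le_exp.2
    have := psi_mono hs (nu := nu) hR (show R ≤ (1 - v) * R + v by nlinarith)
    have := mul_le_mul_of_nonneg_left this (inv_nonneg.2 hl.le)
    linarith
  have hd := kk_den (R := R) hv hv1 hR
  -- first term
  have t1 : FF P Q ≤ FF ((1 - v) * P) ((1 - v) * Q) := by
    by_cases h0 : (1 - v) * P + (1 - v) * Q = 0
    · have : FF ((1 - v) * P) ((1 - v) * Q) = 1 / 4 := by unfold FF; rw [if_pos h0]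
      rw [this]; exact hF1
    · have hv' : 1 - v ≠ 0 := by
        intro hh; apply h0; rw [hh]; ring
      have hR' : P + Q ≠ 0 := by
        intro hh; apply h0; rw [← mul_add, hh, mul_zero]
      unfold FF
      rw [if_neg h0, if_neg hR']
      apply le_of_eq
      rw [← mul_add]
      field_simp
  -- second terms
  have t2 : (1 - v) * P * FF ((1 - v) * P + v) ((1 - v) * Q) +
      (1 - v) * Q * FF ((1 - v) * P) ((1 - v) * Q + v) =
      (1 - v) * R * (1 - (kk v R) ^ 2) * FF P Q := by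
    have s1 : (1 - v) * P + v + (1 - v) * Q = (1 - v) * R + v := by rw [hRd]; ring
    have s2 : (1 - v) * P + ((1 - v) * Q + v) = (1 - v) * R + v := by rw [hRd]; ring
    have f1 : FF ((1 - v) * P + v) ((1 - v) * Q) =
        ((1 - v) * P + v) * ((1 - v) * Q) / ((1 - v) * R + v) ^ 2 := by
      unfold FF
      rw [s1, if_neg hd.ne']
    have f2 : FF ((1 - v) * P) ((1 - v) * Q + v) =
        ((1 - v) * P) * ((1 - v) * Q + v) / ((1 - v) * R + v) ^ 2 := by
      unfold FF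
      rw [s2, if_neg hd.ne']
    rw [f1, f2]
    unfold kk
    by_cases h0 : P + Q = 0
    · have hP0 : P = 0 := by linarith
      have hQ0 : Q = 0 := by linarith
      rw [hRd, hP0, hQ0]
      simp
    · unfold FF
      rw [if_neg h0, ← hRd]
      have hR0 : R ≠ 0 := h0
      field_simp
      rw [hRd]
      ring
  have hkk0 := kk_nonneg hv hv1 hR
  have hkk1 := kk_le_one hv hv1 hR
  have hkk2 : (kk v R) ^ 2 ≤ 1 := by nlinarith
  -- assemble
  have hPhi : Phi v (HH nu) P Q = (1 - (1 - v) * R) *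
        (FF ((1 - v) * P) ((1 - v) * Q) * EEE nu ((1 - v) * R)) +
      ((1 - v) * P * FF ((1 - v) * P + v) ((1 - v) * Q) +
        (1 - v) * Q * FF ((1 - v) * P) ((1 - v) * Q + v)) * EEE nu ((1 - v) * R + v) := by
    unfold Phi HH
    have s0 : (1 - v) * P + (1 - v) * Q = (1 - v) * R := by rw [hRd]; ring
    have s1 : (1 - v) * P + v + (1 - v) * Q = (1 - v) * R + v := by rw [hRd]; ring
    have s2 : (1 - v) * P + ((1 - v) * Q + v) = (1 - v) * R + v := by rw [hRd]; ring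
    rw [s0, s1, s2, hRd]
    ring
  rw [hPhi, t2]
  have a1 : (1 - (1 - v) * R) * (FF P Q * (EEE nu R * (1 + (lam nu)⁻¹ *
      (psi nu R - psi nu ((1 - v) * R))))) ≤ (1 - (1 - v) * R) *
        (FF ((1 - v) * P) ((1 - v) * Q) * EEE nu ((1 - v) * R)) := by
    apply mul_le_mul_of_nonneg_left _ hq1
    calc FF P Q * (EEE nu R * (1 + (lam nu)⁻¹ * (psi nu R - psi nu ((1 - v) * R))))
        ≤ FF P Q * EEE nu ((1 - v) * R) := mul_le_mul_of_nonneg_left hE1 hF0
      _ ≤ _ := mul_le_mul_of_nonneg_right t1 (EEE_pos hs _).le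
  have a2 : EEE nu R * (1 + (lam nu)⁻¹ * (psi nu R - psi nu ((1 - v) * R + v)) - (kk v R) ^ 2) ≤
      (1 - (kk v R) ^ 2) * EEE nu ((1 - v) * R + v) := by
    have := mul_le_mul_of_nonneg_right hE3 (sq_nonneg (kk v R))
    linarith
  have a3 := mul_le_mul_of_nonneg_left a2 (mul_nonneg hq hF0)
  have a4 := psi_diff hs (nu := nu) hv hv1 hR hR1
  have a5 := mul_le_mul_of_nonneg_left a4 (mul_nonneg (mul_nonneg hF0 hE.le) (inv_nonneg.2 hl.le))
  unfold HH gH
  rw [← hRd]
  calc FF P Q * EEE nu R + FF P Q * EEE nu R *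
        ((lam nu)⁻¹ * (v ^ 2 * GG nu R) - (1 - v) * R * kk v R ^ 2)
      = FF P Q * EEE nu R + (FF P Q * EEE nu R * (lam nu)⁻¹ * (v ^ 2 * GG nu R)) -
        FF P Q * EEE nu R * ((1 - v) * R * kk v R ^ 2) := by ring
    _ ≤ FF P Q * EEE nu R + (FF P Q * EEE nu R * (lam nu)⁻¹ * (psi nu R -
        (1 - (1 - v) * R) * psi nu ((1 - v) * R) - (1 - v) * R * psi nu ((1 - v) * R + v))) -
        FF P Q * EEE nu R * ((1 - v) * R * kk v R ^ 2) := by linarith
    _ = (1 - (1 - v) * R) * (FF P Q * (EEE nu R * (1 + (lam nu)⁻¹ *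
          (psi nu R - psi nu ((1 - v) * R))))) +
        (1 - v) * R * FF P Q * (EEE nu R * (1 + (lam nu)⁻¹ *
          (psi nu R - psi nu ((1 - v) * R + v)) - (kk v R) ^ 2)) := by ring
    _ ≤ _ := by
        have e : (1 - v) * R * (1 - kk v R ^ 2) * FF P Q * EEE nu ((1 - v) * R + v) =
          (1 - v) * R * FF P Q * ((1 - kk v R ^ 2) * EEE nu ((1 - v) * R + v)) := by ring
        rw [e]
        linarith

lemma int_gH {P Q : ℝ} (h : Del P Q) : Integrable (gH nu P Q) nu := by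
  have hR : 0 ≤ P + Q := add_nonneg h.hP h.hQ
  unfold gH
  exact ((((int_sq hs).mul_const (GG nu (P + Q))).const_mul _).sub (int_G hs hR)).const_mul _

lemma integral_gH (hl : 0 < lam nu) {P Q : ℝ} (h : Del P Q) : ∫ v, gH nu P Q v ∂nu = 0 := by
  have hR : 0 ≤ P + Q := add_nonneg h.hP h.hQ
  unfold gH
  rw [integral_const_mul, integral_sub (((int_sq hs).mul_const _).const_mul _) (int_G hs hR),
    integral_const_mul, integral_mul_const]
  have e1 : ∫ u, u ^ 2 ∂nu = lam nu := rfl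
  have e2 : ∫ u, (1 - u) * (P + Q) * kk u (P + Q) ^ 2 ∂nu = GG nu (P + Q) := rfl
  rw [e1, e2, ← mul_assoc, inv_mul_cancel₀ hl.ne', one_mul, sub_self, mul_zero]

lemma HH_half : HH nu (1 / 2) (1 / 2) = 1 / 4 * Real.exp (-((lam nu)⁻¹ * psi nu 1)) := by
  unfold HH EEE FF
  norm_num

lemma psi_one_le {B : ℝ} (hB : ∫ u, u ∂nu ≤ B) : psi nu 1 ≤ B := by
  refine le_trans ?_ hB
  unfold psi
  apply integral_mono_ae (int_psi hs zero_le_one)
  · refine Integrable.of_bound (C := 1) measurable_id.aestronglyMeasurable ?_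
    filter_upwards [hs] with u hu
    rw [Real.norm_eq_abs, abs_le]
    constructor <;> linarith [hu.1, hu.2]
  filter_upwards [hs] with u hu
  have h1 := kk_nonneg (R := 1) hu.1 hu.2 zero_le_one
  have := hu.1
  show u * (1 - kk u 1) ≤ u
  nlinarith

end

end Pool.Agent.H89.FV
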