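import Pool.Agent.H89.FV.Ops

/-! The regularized functional `Fd` and its expectation over patterns. -/

namespace Pool.Agent.H89.FV

open MeasureTheory

variable {m : ℕ}

/-- the regularized functional -/
noncomputable def Fd (δ x y : ℝ) : ℝ := (x * y + δ) / ((x + y) ^ 2 + 4 * δ)

lemma Fd_nonneg {δ x y : ℝ} (hδ : 0 < δ) (hx : 0 ≤ x) (hy : 0 ≤ y) : 0 ≤ Fd δ x y := by
  unfold Fd; positivity

lemma Fd_le {δ x y : ℝ} (hδ : 0 < δ) : Fd δ x y ≤ 1 / 4 := by
  unfold Fd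
  rw [div_le_div_iff₀ (by positivity) (by norm_num)]
  nlinarith [sq_nonneg (x - y)]

lemma FF_le_Fd {δ P Q : ℝ} (hδ : 0 < δ) (h : Del P Q) : FF P Q ≤ Fd δ P Q := by
  unfold FF Fd
  have hP := h.hP
  have hQ := h.hQ
  split_ifs with h0
  · have hP0 : P = 0 := by linarith
    have hQ0 : Q = 0 := by linarith
    rw [hP0, hQ0, div_le_div_iff₀ (by norm_num) (by positivity)]
    nlinarith
  · have h1 : 0 < P + Q := lt_of_le_of_ne (add_nonneg hP hQ) (Ne.symm h0)
    rw [div_le_div_iff₀ (by positivity) (by positivity)]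
    nlinarith [mul_nonneg hδ.le (sq_nonneg (P - Q))]

lemma Fd_lip {δ x y x' y' : ℝ} (hδ : 0 < δ) (hx : 0 ≤ x) (hx1 : x ≤ 1) (hy : 0 ≤ y) (hy1 : y ≤ 1)
    (hx' : 0 ≤ x') (hx1' : x' ≤ 1) (hy' : 0 ≤ y') (hy1' : y' ≤ 1) :
    Fd δ x y ≤ Fd δ x' y' + (1 / (2 * δ)) * (|x - x'| + |y - y'|) := by
  have hN := Fd_nonneg hδ hx hy
  have hN4 := Fd_le (x := x) (y := y) hδ
  have hD : 0 < (x + y) ^ 2 + 4 * δ := by positivity
  have hD' : 0 < (x' + y') ^ 2 + 4 * δ := by positivity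
  have e1 : Fd δ x y - Fd δ x' y' = (Fd δ x y * (((x' + y') ^ 2 + 4 * δ) - ((x + y) ^ 2 + 4 * δ)) +
      ((x * y + δ) - (x' * y' + δ))) / ((x' + y') ^ 2 + 4 * δ) := by
    unfold Fd
    field_simp
    ring
  have a1 : x - x' ≤ |x - x'| := le_abs_self _
  have a2 : -(x - x') ≤ |x - x'| := neg_le_abs _
  have a3 : y - y' ≤ |y - y'| := le_abs_self _
  have a4 : -(y - y') ≤ |y - y'| := neg_le_abs _
  have a5 := abs_nonneg (x - x')
  have a6 := abs_nonneg (y - y')
  have e2 : (x' + y') ^ 2 - (x + y) ^ 2 ≤ 4 * (|x - x'| + |y - y'|) := by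
    have h1 : (x' + y') ^ 2 - (x + y) ^ 2 = ((x' - x) + (y' - y)) * (x' + y' + x + y) := by ring
    rw [h1]
    have h2 : (x' - x) + (y' - y) ≤ |x - x'| + |y - y'| := by linarith
    have h3 : 0 ≤ x' + y' + x + y := by positivity
    have h4 : x' + y' + x + y ≤ 4 := by linarith
    nlinarith [mul_le_mul_of_nonneg_right h2 h3]
  have e3 : x * y - x' * y' ≤ |x - x'| + |y - y'| := by
    have h1 : x * y - x' * y' = x * (y - y') + y' * (x - x') := by ring
    rw [h1]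
    have h2 : x * (y - y') ≤ x * |y - y'| := mul_le_mul_of_nonneg_left a3 hx
    have h3 : y' * (x - x') ≤ y' * |x - x'| := mul_le_mul_of_nonneg_left a1 hy'
    nlinarith
  have e4 : Fd δ x y * (((x' + y') ^ 2 + 4 * δ) - ((x + y) ^ 2 + 4 * δ)) +
      ((x * y + δ) - (x' * y' + δ)) ≤ 2 * (|x - x'| + |y - y'|) := by
    have h1 : Fd δ x y * ((x' + y') ^ 2 - (x + y) ^ 2) ≤
        Fd δ x y * (4 * (|x - x'| + |y - y'|)) := mul_le_mul_of_nonneg_left e2 hN
    nlinarith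
  have e5 : Fd δ x y - Fd δ x' y' ≤ 2 * (|x - x'| + |y - y'|) / ((x' + y') ^ 2 + 4 * δ) := by
    rw [e1]
    exact div_le_div_of_nonneg_right e4 hD'.le
  have e6 : 2 * (|x - x'| + |y - y'|) / ((x' + y') ^ 2 + 4 * δ) ≤
      2 * (|x - x'| + |y - y'|) / (4 * δ) := by
    apply div_le_div_of_nonneg_left (by positivity) (by positivity)
    nlinarith [sq_nonneg (x' + y')]
  have e7 : 2 * (|x - x'| + |y - y'|) / (4 * δ) = (1 / (2 * δ)) * (|x - x'| + |y - y'|) := by
    field_simp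
    ring
  linarith

/-- the number of levels of class `z` -/
def cnt (z : Cl) (c : Fin (m + 1) → Cl) : ℝ := ∑ x, if c x = z then (1 : ℝ) else 0

lemma cnt_nonneg (z : Cl) (c : Fin (m + 1) → Cl) : 0 ≤ cnt z c :=
  Finset.sum_nonneg fun x _ => by split_ifs <;> norm_num

lemma cnt_le (z : Cl) (c : Fin (m + 1) → Cl) : cnt z c ≤ m + 1 := by
  unfold cnt
  calc ∑ x : Fin (m + 1), (if c x = z then (1 : ℝ) else 0) ≤ ∑ _x : Fin (m + 1), (1 : ℝ) :=
        Finset.sum_le_sum fun x _ => by split_ifs <;> norm_num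
    _ = m + 1 := by simp

/-- the test function on patterns -/
noncomputable def ft (m : ℕ) (δ : ℝ) (c : Fin (m + 1) → Cl) : ℝ :=
  Fd δ (cnt Cl.A c / (m + 1)) (cnt Cl.Q c / (m + 1))

lemma ft_bd {δ : ℝ} (hδ : 0 < δ) (c : Fin (m + 1) → Cl) : 0 ≤ ft m δ c ∧ ft m δ c ≤ 1 / 4 := by
  constructor
  · apply Fd_nonneg hδ
    · exact div_nonneg (cnt_nonneg _ _) (by positivity)
    · exact div_nonneg (cnt_nonneg _ _) (by positivity)
  · exact Fd_le hδ

lemma Ex_one_pt (P Q : ℝ) (i : Fin (m + 1)) (a : Cl → ℝ) :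
    Ex P Q (fun c => a (c i)) = mu P Q i a := by
  have h1 := Ex_prod P Q (fun (k : Fin (m + 1)) z => if k = i then a z else 1)
  have h2 : (fun c : Fin (m + 1) → Cl => ∏ j, if j = i then a (c j) else 1) =
      fun c => a (c i) := by
    ext c
    rw [Finset.prod_eq_single i]
    · simp
    · intro j _ hj
      rw [if_neg hj]
    · intro h; exact absurd (Finset.mem_univ _) h
  rw [h2] at h1
  rw [h1, Finset.prod_eq_single i]
  · simp
  · intro j _ hj
    simp only [if_neg hj]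
    exact mu_one P Q j
  · intro h; exact absurd (Finset.mem_univ _) h

lemma Ex_two_pt (P Q : ℝ) (i j : Fin (m + 1)) (hij : i ≠ j) (a b : Cl → ℝ) :
    Ex P Q (fun c => a (c i) * b (c j)) = mu P Q i a * mu P Q j b := by
  have h1 := Ex_prod P Q (fun (k : Fin (m + 1)) z =>
    (if k = i then a z else 1) * (if k = j then b z else 1))
  have h2 : (fun c : Fin (m + 1) → Cl => ∏ k, (if k = i then a (c k) else 1) *
      (if k = j then b (c k) else 1)) = fun c => a (c i) * b (c j) := by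
    ext c
    rw [Finset.prod_mul_distrib, Finset.prod_ite_eq' Finset.univ i (fun k => a (c k)),
      Finset.prod_ite_eq' Finset.univ j (fun k => b (c k))]
    simp
  rw [h2] at h1
  rw [h1, ← Finset.mul_prod_erase Finset.univ _ (Finset.mem_univ i),
    ← Finset.mul_prod_erase (Finset.univ.erase i) _
      (Finset.mem_erase.2 ⟨hij.symm, Finset.mem_univ j⟩)]
  have h3 : ∏ x ∈ (Finset.univ.erase i).erase j, mu P Q x
      (fun z => (if x = i then a z else 1) * (if x = j then b z else 1)) = 1 := by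
    apply Finset.prod_eq_one
    intro x hx
    rw [Finset.mem_erase, Finset.mem_erase] at hx
    simp only [if_neg hx.1, if_neg hx.2.1, mul_one]
    exact mu_one P Q x
  rw [h3]
  simp [hij, hij.symm]

/-- second moment bound -/
lemma Ex_sq {P Q : ℝ} (h : Del P Q) (z : Cl) (p : ℝ) (hz : z = Cl.A ∧ p = P ∨ z = Cl.Q ∧ p = Q) :
    Ex P Q (fun c : Fin (m + 1) → Cl => (cnt z c / (m + 1) - p) ^ 2) ≤ 2 / (m + 1) := by
  have hp0 : 0 ≤ p := by
    rcases hz with ⟨_, h1⟩ | ⟨_, h1⟩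
    · rw [h1]; exact h.hP
    · rw [h1]; exact h.hQ
  have hp1 : p ≤ 1 := by
    have := h.hP; have := h.hQ; have := h.hR
    rcases hz with ⟨_, h1⟩ | ⟨_, h1⟩ <;> rw [h1] <;> linarith
  -- the probabilities
  set q : Fin (m + 1) → ℝ := fun i => if i = 0 then 0 else p with hq
  set Y : Fin (m + 1) → Cl → ℝ := fun i w => (if w = z then 1 else 0) - q i with hY
  have hmuX : ∀ i : Fin (m + 1), mu P Q i (fun w => if w = z then (1 : ℝ) else 0) = q i := by
    intro i
    by_cases hi : i = 0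
    · subst hi
      rw [mu_zero]
      rcases hz with ⟨h1, _⟩ | ⟨h1, _⟩ <;> rw [h1] <;> simp [hq]
    · rw [mu_ne P Q i hi]
      rcases hz with ⟨h1, h2⟩ | ⟨h1, h2⟩ <;> rw [h1] <;> simp [hq, hi, h2]
  have hmuY : ∀ i : Fin (m + 1), mu P Q i (Y i) = 0 := by
    intro i
    have h1 := hmuX i
    have h2 := mu_one P Q i
    unfold mu at h1 h2 ⊢
    simp only [mul_one] at h2
    simp only [hY, mul_sub, Finset.sum_sub_distrib]
    rw [h1, ← Finset.sum_mul, h2, one_mul, sub_self]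
  have hmuY2 : ∀ i : Fin (m + 1), mu P Q i (fun w => Y i w * Y i w) ≤ 1 / 4 := by
    intro i
    have h1 := hmuX i
    have h2 := mu_one P Q i
    have h3 : mu P Q i (fun w => Y i w * Y i w) = q i * (1 - q i) := by
      have h4 : ∀ w, Y i w * Y i w = (1 - 2 * q i) * (if w = z then 1 else 0) + q i * q i := by
        intro w
        simp only [hY]
        split_ifs <;> ring
      unfold mu at h1 h2 ⊢
      simp only [mul_one] at h2
      simp only [h4, mul_add, Finset.sum_add_distrib]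
      have h5 : ∑ x, wl P Q i x * ((1 - 2 * q i) * (if x = z then 1 else 0)) =
          (1 - 2 * q i) * ∑ x, wl P Q i x * (if x = z then 1 else 0) := by
        rw [Finset.mul_sum]
        apply Finset.sum_congr rfl
        intro x _; ring
      rw [h5, h1, ← Finset.sum_mul, h2]
      ring
    rw [h3]
    nlinarith [sq_nonneg (q i - 1 / 2)]
  have hsum : ∀ c : Fin (m + 1) → Cl, cnt z c / (m + 1) - p = (∑ i, Y i (c i) - p) / (m + 1) := by
    intro c
    have h1 : ∑ i, Y i (c i) = cnt z c - m * p := by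
      simp only [hY, Finset.sum_sub_distrib]
      congr 1
      rw [Fin.sum_univ_succ]
      simp [hq]
    rw [h1]
    field_simp
    ring
  have hE : Ex P Q (fun c : Fin (m + 1) → Cl => (∑ i, Y i (c i) - p) ^ 2) ≤
      (m + 1) * (1 / 4) + 1 := by
    have h1 : (fun c : Fin (m + 1) → Cl => (∑ i, Y i (c i) - p) ^ 2) =
        fun c => (∑ i, ∑ j, Y i (c i) * Y j (c j)) + ((∑ i, (-(2 * p)) * Y i (c i)) + p ^ 2) := by
      ext c
      rw [← Finset.mul_sum, ← Finset.sum_mul_sum]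
      ring
    rw [h1, Ex_add, Ex_add, Ex_const, Ex_sum, Ex_sum]
    have h2 : ∀ i : Fin (m + 1), Ex P Q (fun c => -(2 * p) * Y i (c i)) = 0 := by
      intro i
      rw [Ex_smul, Ex_one_pt, hmuY, mul_zero]
    rw [Finset.sum_congr rfl (fun i _ => h2 i), Finset.sum_const_zero, zero_add]
    have h3 : ∀ i : Fin (m + 1), Ex P Q (fun c => ∑ j, Y i (c i) * Y j (c j)) ≤ 1 / 4 := by
      intro i
      rw [Ex_sum, Finset.sum_eq_single i]
      · have := Ex_one_pt P Q i (fun w => Y i w * Y i w)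
        rw [this]
        exact hmuY2 i
      · intro j _ hj
        rw [Ex_two_pt P Q i j hj.symm, hmuY, zero_mul]
      · intro h; exact absurd (Finset.mem_univ _) h
    have h4 : ∑ i : Fin (m + 1), Ex P Q (fun c => ∑ j, Y i (c i) * Y j (c j)) ≤
        ∑ _i : Fin (m + 1), (1 / 4 : ℝ) := Finset.sum_le_sum fun i _ => h3 i
    rw [Finset.sum_const, Finset.card_univ, Fintype.card_fin, nsmul_eq_mul] at h4
    push_cast at h4
    nlinarith
  simp only [hsum, div_pow]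
  have h5 : (fun c : Fin (m + 1) → Cl => (∑ i, Y i (c i) - p) ^ 2 / ((m : ℝ) + 1) ^ 2) =
      fun c => (1 / ((m : ℝ) + 1) ^ 2) * (∑ i, Y i (c i) - p) ^ 2 := by
    ext c; ring
  rw [h5, Ex_smul]
  rw [one_div, inv_mul_le_iff₀ (by positivity)]
  calc _ ≤ ((m : ℝ) + 1) * (1 / 4) + 1 := hE
    _ ≤ ((m : ℝ) + 1) ^ 2 * (2 / ((m : ℝ) + 1)) := by
        have hm0 : (0 : ℝ) ≤ m := Nat.cast_nonneg m
        have : ((m : ℝ) + 1) ^ 2 * (2 / ((m : ℝ) + 1)) = 2 * ((m : ℝ) + 1) := by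
          field_simp
        rw [this]
        linarith

lemma Ex_abs {P Q : ℝ} (h : Del P Q) (z : Cl) (p : ℝ) (hz : z = Cl.A ∧ p = P ∨ z = Cl.Q ∧ p = Q) :
    Ex P Q (fun c : Fin (m + 1) → Cl => |cnt z c / (m + 1) - p|) ≤ 2 / Real.sqrt (m + 1) := by
  have hM : (0 : ℝ) < (m : ℝ) + 1 := by positivity
  set s := Real.sqrt (m + 1) with hs
  have hs0 : 0 < s := Real.sqrt_pos.2 hM
  have hs2 : s ^ 2 = m + 1 := Real.sq_sqrt hM.le
  have h1 : ∀ c : Fin (m + 1) → Cl, |cnt z c / (m + 1) - p| ≤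
      (s / 2) * (cnt z c / (m + 1) - p) ^ 2 + 1 / (2 * s) := by
    intro c
    set x := cnt z c / (m + 1) - p
    have h2 : 0 ≤ (s * |x| - 1) ^ 2 := sq_nonneg _
    have h3 : |x| ^ 2 = x ^ 2 := sq_abs x
    have h4 : (s / 2) * x ^ 2 + 1 / (2 * s) = (s ^ 2 * x ^ 2 + 1) / (2 * s) := by
      field_simp
    rw [h4, le_div_iff₀ (by positivity)]
    nlinarith
  have h2 := Ex_mono h h1
  rw [Ex_add, Ex_smul, Ex_const] at h2
  have h3 := Ex_sq (m := m) h z p hz
  have h4 : (s / 2) * Ex P Q (fun c : Fin (m + 1) → Cl => (cnt z c / (m + 1) - p) ^ 2) ≤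
      (s / 2) * (2 / (m + 1)) := mul_le_mul_of_nonneg_left h3 (by positivity)
  have h5 : (s / 2) * (2 / ((m : ℝ) + 1)) + 1 / (2 * s) ≤ 2 / s := by
    have : (s / 2) * (2 / ((m : ℝ) + 1)) + 1 / (2 * s) = (3 / 2) / s := by
      rw [← hs2]; field_simp; ring
    rw [this]
    apply div_le_div_of_nonneg_right _ hs0.le
    norm_num
  linarith

/-- **Bernstein bound** -/
theorem ft_lower {δ : ℝ} (hδ : 0 < δ) {P Q : ℝ} (h : Del P Q) :
    FF P Q - 2 / (δ * Real.sqrt (m + 1)) ≤ Ex P Q (ft m δ) := by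
  have hP := h.hP; have hQ := h.hQ; have hR := h.hR
  have hM : (0 : ℝ) < (m : ℝ) + 1 := by positivity
  have h1 : ∀ c : Fin (m + 1) → Cl, Fd δ P Q ≤ ft m δ c + ((1 / (2 * δ)) *
      |cnt Cl.A c / (m + 1) - P| + (1 / (2 * δ)) * |cnt Cl.Q c / (m + 1) - Q|) := by
    intro c
    have h2 := Fd_lip (x := P) (y := Q) (x' := cnt Cl.A c / (m + 1)) (y' := cnt Cl.Q c / (m + 1))
      hδ hP (by linarith) hQ (by linarith) (div_nonneg (cnt_nonneg _ _) hM.le)
      ((div_le_one hM).2 (cnt_le _ _)) (div_nonneg (cnt_nonneg _ _) hM.le)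
      ((div_le_one hM).2 (cnt_le _ _))
    rw [abs_sub_comm P, abs_sub_comm Q] at h2
    unfold ft
    linarith
  have h2 := Ex_mono h h1
  rw [Ex_const, Ex_add, Ex_add, Ex_smul, Ex_smul] at h2
  have h3 := Ex_abs (m := m) h Cl.A P (Or.inl ⟨rfl, rfl⟩)
  have h4 := Ex_abs (m := m) h Cl.Q Q (Or.inr ⟨rfl, rfl⟩)
  have hd : 0 ≤ 1 / (2 * δ) := by positivity
  have h5 := mul_le_mul_of_nonneg_left h3 hd
  have h6 := mul_le_mul_of_nonneg_left h4 hd
  have h7 := FF_le_Fd hδ h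
  have hs0 : 0 < Real.sqrt ((m : ℝ) + 1) := Real.sqrt_pos.2 hM
  have h8 : 1 / (2 * δ) * (2 / Real.sqrt ((m : ℝ) + 1)) + 1 / (2 * δ) *
      (2 / Real.sqrt ((m : ℝ) + 1)) = 2 / (δ * Real.sqrt ((m : ℝ) + 1)) := by
    field_simp; ring
  linarith

end Pool.Agent.H89.FV
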