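import Pool.Agent.H89.FV.Cells2
import Pool.Agent.H89.FV.Test

/-! From patterns of classes to the types of the levels. -/

namespace Pool.Agent.H89.FV

open MeasureTheory
open scoped ENNReal

set_option linter.style.haveILetI false
set_option linter.unusedSectionVars false

variable {m : ℕ}

/-- the law of the initial types of the levels `0, …, m` -/
noncomputable def pim (m : ℕ) : Measure (Fin (m + 1) → ℝ) :=
  Measure.pi fun _ : Fin (m + 1) => unif

instance : IsProbabilityMeasure (pim m) := by unfold pim; infer_instance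

/-- the class of an initial level -/
noncomputable def cls (u : Fin (m + 1) → ℝ) (i : Fin (m + 1)) : Cl :=
  if i = 0 then Cl.E else if u i ≤ 1 / 2 then Cl.A else Cl.Q

noncomputable def Tset (i : Fin (m + 1)) (z : Cl) : Set ℝ :=
  if i = 0 then (if z = Cl.E then Set.univ else ∅) else
    match z with
    | .E => ∅
    | .A => Set.Iic (1 / 2)
    | .Q => Set.Ioi (1 / 2)

lemma meas_Tset (i : Fin (m + 1)) (z : Cl) : MeasurableSet (Tset i z) := by
  unfold Tset
  split_ifs
  · exact MeasurableSet.univ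
  · exact MeasurableSet.empty
  · cases z
    · exact MeasurableSet.empty
    · exact measurableSet_Iic
    · exact measurableSet_Ioi

lemma cls_iff (u : Fin (m + 1) → ℝ) (i : Fin (m + 1)) (z : Cl) : cls u i = z ↔ u i ∈ Tset i z := by
  unfold cls Tset
  by_cases h0 : i = 0
  · rw [if_pos h0, if_pos h0]
    cases z <;> simp
  · rw [if_neg h0, if_neg h0]
    by_cases h1 : u i ≤ 1 / 2
    · rw [if_pos h1]
      cases z
      · simp
      · simpa using h1
      · simp only [reduceCtorEq, Set.mem_Ioi, false_iff, not_lt]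
        exact h1
    · rw [if_neg h1]
      cases z
      · simp
      · simp only [reduceCtorEq, Set.mem_Iic, false_iff]
        exact h1
      · simp only [Set.mem_Ioi, true_iff]
        exact not_le.1 h1

lemma unif_half1 : unif (Set.Iic (1 / 2)) = ENNReal.ofReal (1 / 2) := by
  unfold unif
  rw [Measure.restrict_apply measurableSet_Iic]
  have : Set.Iic (1 / 2 : ℝ) ∩ Set.Icc (0 : ℝ) 1 = Set.Icc 0 (1 / 2) := by
    ext z
    simp only [Set.mem_inter_iff, Set.mem_Iic, Set.mem_Icc]
    constructor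
    · rintro ⟨h1, h2, h3⟩; exact ⟨h2, h1⟩
    · rintro ⟨h1, h2⟩; exact ⟨h2, h1, by linarith⟩
  rw [this, Real.volume_Icc, sub_zero]

lemma unif_half2 : unif (Set.Ioi (1 / 2)) = ENNReal.ofReal (1 / 2) := by
  unfold unif
  rw [Measure.restrict_apply measurableSet_Ioi]
  have : Set.Ioi (1 / 2 : ℝ) ∩ Set.Icc (0 : ℝ) 1 = Set.Ioc (1 / 2) 1 := by
    ext z
    simp only [Set.mem_inter_iff, Set.mem_Ioi, Set.mem_Icc, Set.mem_Ioc]
    constructor
    · rintro ⟨h1, h2, h3⟩; exact ⟨h1, h3⟩
    · rintro ⟨h1, h2⟩; exact ⟨h1, by linarith, h2⟩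
  rw [this, Real.volume_Ioc]
  norm_num

lemma unif_Tset (i : Fin (m + 1)) (z : Cl) :
    unif (Tset i z) = ENNReal.ofReal (wl (1 / 2) (1 / 2) i z) := by
  unfold Tset wl
  by_cases h0 : i = 0
  · rw [if_pos h0, if_pos h0]
    split_ifs
    · simp
    · simp
  · rw [if_neg h0, if_neg h0]
    cases z
    · simp only [wt, measure_empty]
      norm_num
    · exact unif_half1
    · exact unif_half2

lemma wl_half_nonneg (i : Fin (m + 1)) (z : Cl) : 0 ≤ wl (1 / 2) (1 / 2) i z := by
  unfold wl
  split_ifs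
  · norm_num
  · norm_num
  · cases z <;> simp only [wt] <;> norm_num

/-- the expectation of a function of the classes of the initial levels -/
lemma cls_lint (F : (Fin (m + 1) → Cl) → ℝ) (hF : ∀ c, 0 ≤ F c) :
    Measurable (fun u : Fin (m + 1) → ℝ => ENNReal.ofReal (F (cls u))) ∧
    ∫⁻ u, ENNReal.ofReal (F (cls u)) ∂(pim m) = ENNReal.ofReal (Ex (1 / 2) (1 / 2) F) := by
  classical
  have h1 : ∀ c : Fin (m + 1) → Cl, {u : Fin (m + 1) → ℝ | cls u = c} =
      Set.univ.pi (fun i => Tset i (c i)) := by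
    intro c
    ext u
    simp only [Set.mem_ofPred_eq, Set.mem_pi, Set.mem_univ, true_implies]
    rw [funext_iff]
    exact forall_congr' fun i => cls_iff u i (c i)
  have hm : ∀ c : Fin (m + 1) → Cl, MeasurableSet {u : Fin (m + 1) → ℝ | cls u = c} := by
    intro c
    rw [h1]
    exact MeasurableSet.univ_pi fun i => meas_Tset i (c i)
  have h2 : (fun u : Fin (m + 1) → ℝ => ENNReal.ofReal (F (cls u))) = fun u =>
      ∑ c, ({u : Fin (m + 1) → ℝ | cls u = c}).indicator (fun _ => ENNReal.ofReal (F c)) u := by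
    ext u
    rw [Finset.sum_eq_single (cls u)]
    · rw [Set.indicator_of_mem]
      rfl
    · intro c _ hc
      rw [Set.indicator_of_notMem]
      exact fun h => hc h.symm
    · intro h; exact absurd (Finset.mem_univ _) h
  have hmi : ∀ c ∈ (Finset.univ : Finset (Fin (m + 1) → Cl)), Measurable
      (({u : Fin (m + 1) → ℝ | cls u = c}).indicator (fun _ => ENNReal.ofReal (F c))) :=
    fun c _ => measurable_const.indicator (hm c)
  rw [h2]
  refine ⟨Finset.measurable_sum _ hmi, ?_⟩
  rw [lintegral_finsetSum _ hmi]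
  unfold Ex
  rw [ENNReal.ofReal_sum_of_nonneg]
  · apply Finset.sum_congr rfl
    intro c _
    rw [lintegral_indicator_const (hm c), h1]
    unfold pim
    rw [Measure.pi_pi, ENNReal.ofReal_mul (Finset.prod_nonneg fun i _ => wl_half_nonneg i (c i)),
      ENNReal.ofReal_prod_of_nonneg (fun i _ => wl_half_nonneg i (c i)), mul_comm]
    congr 1
    apply Finset.prod_congr rfl
    intro i _
    exact unif_Tset i (c i)
  · intro c _
    exact mul_nonneg (Finset.prod_nonneg fun i _ => wl_half_nonneg i (c i)) (hF c)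

/-- continuous approximation of the indicator of `z ≤ 1/2` -/
noncomputable def aa (r z : ℝ) : ℝ := max 0 (min 1 (1 - r * (z - 1 / 2)))

/-- continuous approximation of the indicator of `d ≠ 0` -/
noncomputable def chi (r d : ℝ) : ℝ := min 1 (r * |d|)

lemma aa_bd (r z : ℝ) : 0 ≤ aa r z ∧ aa r z ≤ 1 := by
  unfold aa
  exact ⟨le_max_left _ _, max_le zero_le_one (min_le_left _ _)⟩

lemma chi_bd {r : ℝ} (hr : 0 ≤ r) (d : ℝ) : 0 ≤ chi r d ∧ chi r d ≤ 1 := by
  unfold chi
  exact ⟨le_min zero_le_one (mul_nonneg hr (abs_nonneg _)), min_le_left _ _⟩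

lemma aa_cont (r : ℝ) : Continuous (aa r) := by unfold aa; fun_prop

lemma chi_cont (r : ℝ) : Continuous (chi r) := by unfold chi; fun_prop

/-- the average of a function over the levels -/
noncomputable def av (g : Fin (m + 1) → ℝ) : ℝ := (∑ x, g x) / (m + 1)

lemma av_bd {g : Fin (m + 1) → ℝ} (hg : ∀ x, 0 ≤ g x ∧ g x ≤ 1) : 0 ≤ av g ∧ av g ≤ 1 := by
  unfold av
  have hM : (0 : ℝ) < (m : ℝ) + 1 := by positivity
  constructor
  · exact div_nonneg (Finset.sum_nonneg fun x _ => (hg x).1) hM.le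
  · rw [div_le_one hM]
    calc ∑ x, g x ≤ ∑ _x : Fin (m + 1), (1 : ℝ) := Finset.sum_le_sum fun x _ => (hg x).2
      _ = m + 1 := by simp

lemma av_sub (g g' : Fin (m + 1) → ℝ) : |av g - av g'| ≤ av (fun x => |g x - g' x|) := by
  unfold av
  have hM : (0 : ℝ) < (m : ℝ) + 1 := by positivity
  rw [← sub_div, ← Finset.sum_sub_distrib, abs_div, abs_of_pos hM]
  apply div_le_div_of_nonneg_right _ hM.le
  exact Finset.abs_sum_le_sum_abs _ _

/-- the two functions of the types -/
noncomputable def gA (r : ℝ) (v : Fin (m + 1) → ℝ) (x : Fin (m + 1)) : ℝ :=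
  aa r (v x) * chi r (v x - v 0)

noncomputable def gQ (r : ℝ) (v : Fin (m + 1) → ℝ) (x : Fin (m + 1)) : ℝ :=
  (1 - aa r (v x)) * chi r (v x - v 0)

/-- the test function on types -/
noncomputable def phi (δ r : ℝ) (v : Fin (m + 1) → ℝ) : ℝ := Fd δ (av (gA r v)) (av (gQ r v))

lemma gA_bd {r : ℝ} (hr : 0 ≤ r) (v : Fin (m + 1) → ℝ) (x : Fin (m + 1)) :
    0 ≤ gA r v x ∧ gA r v x ≤ 1 := by
  have h1 := aa_bd r (v x)
  have h2 := chi_bd hr (v x - v 0)
  unfold gA
  exact ⟨mul_nonneg h1.1 h2.1, mul_le_one₀ h1.2 h2.1 h2.2⟩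

lemma gQ_bd {r : ℝ} (hr : 0 ≤ r) (v : Fin (m + 1) → ℝ) (x : Fin (m + 1)) :
    0 ≤ gQ r v x ∧ gQ r v x ≤ 1 := by
  have h1 := aa_bd r (v x)
  have h2 := chi_bd hr (v x - v 0)
  unfold gQ
  exact ⟨mul_nonneg (by linarith [h1.2]) h2.1, mul_le_one₀ (by linarith [h1.1]) h2.1 h2.2⟩

lemma phi_bd {δ r : ℝ} (hδ : 0 < δ) (hr : 0 ≤ r) (v : Fin (m + 1) → ℝ) :
    0 ≤ phi δ r v ∧ phi δ r v ≤ 1 / 4 :=
  ⟨Fd_nonneg hδ (av_bd (gA_bd hr v)).1 (av_bd (gQ_bd hr v)).1, Fd_le hδ⟩

/-- the error for one level -/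
noncomputable def er (r : ℝ) (u : Fin (m + 1) → ℝ) (y : Fin (m + 1)) : ℝ :=
  if y = 0 then 0 else
    (if 1 / 2 < u y ∧ u y < 1 / 2 + 1 / r then 1 else 0) + (if |u y - u 0| < 1 / r then 1 else 0)

lemma er_nonneg (r : ℝ) (u : Fin (m + 1) → ℝ) (y : Fin (m + 1)) : 0 ≤ er r u y := by
  unfold er
  split_ifs <;> norm_num

lemma er_bound {r : ℝ} (hr : 0 < r) (u : Fin (m + 1) → ℝ) (y : Fin (m + 1)) :
    |(if cls u y = Cl.A then (1 : ℝ) else 0) - gA r u y| ≤ er r u y ∧
    |(if cls u y = Cl.Q then (1 : ℝ) else 0) - gQ r u y| ≤ er r u y := by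
  unfold gA gQ er
  by_cases h0 : y = 0
  · subst h0
    simp [cls, chi]
  · rw [if_neg h0]
    have h1 := aa_bd r (u y)
    have h2 := chi_bd hr.le (u y - u 0)
    have hc : cls u y = if u y ≤ 1 / 2 then Cl.A else Cl.Q := by
      unfold cls; rw [if_neg h0]
    rw [hc]
    have hchi : ¬ |u y - u 0| < 1 / r → chi r (u y - u 0) = 1 := by
      intro h
      unfold chi
      apply min_eq_left
      have h3 : 1 / r ≤ |u y - u 0| := not_lt.1 h
      rw [div_le_iff₀ hr] at h3
      linarith
    set X := aa r (u y) with hX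
    set Y := chi r (u y - u 0) with hY
    have hXY0 : 0 ≤ X * Y := mul_nonneg h1.1 h2.1
    have hXY1 : X * Y ≤ 1 := mul_le_one₀ h1.2 h2.1 h2.2
    have hZY0 : 0 ≤ (1 - X) * Y := mul_nonneg (by linarith) h2.1
    have hZY1 : (1 - X) * Y ≤ 1 := mul_le_one₀ (by linarith) h2.1 h2.2
    by_cases h3 : u y ≤ 1 / 2
    · have hX1 : X = 1 := by
        rw [hX]
        unfold aa
        have : 1 ≤ 1 - r * (u y - 1 / 2) := by nlinarith
        rw [min_eq_left this]
        norm_num
      have h4 : ¬ (1 / 2 < u y ∧ u y < 1 / 2 + 1 / r) := fun h => absurd h.1 (not_lt.2 h3)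
      have h4' : ¬ (Cl.A = Cl.Q) := by simp
      rw [if_pos h3, if_pos rfl, if_neg h4', if_neg h4, hX1]
      by_cases h5 : |u y - u 0| < 1 / r
      · rw [if_pos h5]
        constructor
        · rw [abs_le]; constructor <;> linarith [h2.1, h2.2]
        · simp
      · rw [if_neg h5, hchi h5]
        simp
    · have h4' : ¬ (Cl.Q = Cl.A) := by simp
      rw [if_neg h3, if_neg h4', if_pos rfl]
      by_cases h4 : u y < 1 / 2 + 1 / r
      · rw [if_pos ⟨not_le.1 h3, h4⟩]
        have h6 : (0 : ℝ) ≤ (if |u y - u 0| < 1 / r then 1 else 0) := by split_ifs <;> norm_num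
        constructor
        · rw [abs_le]; constructor <;> linarith
        · rw [abs_le]; constructor <;> linarith
      · have hX0 : X = 0 := by
          rw [hX]
          unfold aa
          apply max_eq_left
          refine le_trans (min_le_right _ _) ?_
          have h7 : 1 / r ≤ u y - 1 / 2 := by linarith [not_lt.1 h4]
          rw [div_le_iff₀ hr] at h7
          linarith
        rw [if_neg (fun h => h4 h.2), hX0]
        by_cases h5 : |u y - u 0| < 1 / r
        · rw [if_pos h5]
          constructor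
          · simp
          · rw [abs_le]; constructor <;> linarith [h2.1, h2.2]
        · rw [if_neg h5, hchi h5]
          simp

lemma unif_le (s : Set ℝ) : unif s ≤ volume s := Measure.restrict_apply_le _ _

lemma er_prob {r : ℝ} (hr : 0 < r) (y : Fin (m + 1)) :
    Measurable (fun u : Fin (m + 1) → ℝ => ENNReal.ofReal (er r u y)) ∧
    ∫⁻ u, ENNReal.ofReal (er r u y) ∂(pim m) ≤ ENNReal.ofReal (3 / r) := by
  by_cases h0 : y = 0
  · unfold er
    simp [h0]
  · set s1 : Set (Fin (m + 1) → ℝ) := {u | 1 / 2 < u y ∧ u y < 1 / 2 + 1 / r} with hs1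
    set s2 : Set (Fin (m + 1) → ℝ) := {u | |u y - u 0| < 1 / r} with hs2
    have hm1 : MeasurableSet s1 :=
      (measurableSet_lt measurable_const (measurable_pi_apply y)).inter
        (measurableSet_lt (measurable_pi_apply y) measurable_const)
    have hm2 : MeasurableSet s2 := measurableSet_lt
      ((measurable_pi_apply y).sub (measurable_pi_apply 0)).abs measurable_const
    have h1 : (fun u : Fin (m + 1) → ℝ => ENNReal.ofReal (er r u y)) = fun u =>
        s1.indicator (fun _ => (1 : ℝ≥0∞)) u + s2.indicator (fun _ => (1 : ℝ≥0∞)) u := by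
      ext u
      unfold er
      rw [if_neg h0, ENNReal.ofReal_add (by split_ifs <;> norm_num) (by split_ifs <;> norm_num)]
      congr 1
      · by_cases h : u ∈ s1
        · have h' : 1 / 2 < u y ∧ u y < 1 / 2 + 1 / r := h
          rw [Set.indicator_of_mem h, if_pos h', ENNReal.ofReal_one]
        · have h' : ¬ (1 / 2 < u y ∧ u y < 1 / 2 + 1 / r) := h
          rw [Set.indicator_of_notMem h, if_neg h', ENNReal.ofReal_zero]
      · by_cases h : u ∈ s2
        · have h' : |u y - u 0| < 1 / r := h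
          rw [Set.indicator_of_mem h, if_pos h', ENNReal.ofReal_one]
        · have h' : ¬ |u y - u 0| < 1 / r := h
          rw [Set.indicator_of_notMem h, if_neg h', ENNReal.ofReal_zero]
    have hi1 : Measurable (s1.indicator (fun _ => (1 : ℝ≥0∞))) := measurable_const.indicator hm1
    have hi2 : Measurable (s2.indicator (fun _ => (1 : ℝ≥0∞))) := measurable_const.indicator hm2
    rw [h1]
    refine ⟨hi1.add hi2, ?_⟩
    rw [lintegral_add_left hi1, lintegral_indicator_const hm1, lintegral_indicator_const hm2,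
      one_mul, one_mul]
    have p1 : pim m s1 ≤ ENNReal.ofReal (1 / r) := by
      have h2 : s1 = Function.eval y ⁻¹' (Set.Ioo (1 / 2) (1 / 2 + 1 / r)) := rfl
      rw [h2]
      unfold pim
      rw [(measurePreserving_eval (fun _ : Fin (m + 1) => unif) y).measure_preimage
        measurableSet_Ioo.nullMeasurableSet]
      refine (unif_le _).trans ?_
      rw [Real.volume_Ioo]
      apply ENNReal.ofReal_le_ofReal
      linarith
    have p2 : pim m s2 ≤ ENNReal.ofReal (2 / r) := by
      obtain ⟨j, rfl⟩ := Fin.exists_succ_eq.2 h0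
      have hmp := measurePreserving_piFinSuccAbove (fun _ : Fin (m + 1) => unif) 0
      set D : Set (ℝ × (Fin m → ℝ)) := {p | |p.2 j - p.1| < 1 / r} with hD
      have hDf : Measurable (fun p : ℝ × (Fin m → ℝ) => |p.2 j - p.1|) := by fun_prop
      have hDm : MeasurableSet D := measurableSet_lt hDf measurable_const
      have h2 : s2 = (MeasurableEquiv.piFinSuccAbove (fun _ : Fin (m + 1) => ℝ) 0) ⁻¹' D := by
        ext u
        rfl
      rw [h2]
      unfold pim
      rw [hmp.measure_preimage hDm.nullMeasurableSet, Measure.prod_apply hDm]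
      have h3 : ∀ z : ℝ, (Measure.pi fun _ : Fin m => unif) (Prod.mk z ⁻¹' D) ≤
          ENNReal.ofReal (2 / r) := by
        intro z
        have h4 : Prod.mk z ⁻¹' D = Function.eval j ⁻¹' (Set.Ioo (z - 1 / r) (z + 1 / r)) := by
          ext w
          simp only [hD, Set.mem_preimage, Set.mem_ofPred_eq, Function.eval, Set.mem_Ioo, abs_lt]
          constructor
          · rintro ⟨h5, h6⟩; constructor <;> linarith
          · rintro ⟨h5, h6⟩; constructor <;> linarith
        rw [h4, (measurePreserving_eval (fun _ : Fin m => unif) j).measure_preimage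
          measurableSet_Ioo.nullMeasurableSet]
        refine (unif_le _).trans ?_
        rw [Real.volume_Ioo]
        apply ENNReal.ofReal_le_ofReal
        apply le_of_eq
        ring
      calc ∫⁻ z, (Measure.pi fun _ : Fin m => unif) (Prod.mk z ⁻¹' D) ∂unif
          ≤ ∫⁻ _z, ENNReal.ofReal (2 / r) ∂unif := lintegral_mono h3
        _ = ENNReal.ofReal (2 / r) := by simp
    calc pim m s1 + pim m s2 ≤ ENNReal.ofReal (1 / r) + ENNReal.ofReal (2 / r) :=
          add_le_add p1 p2
      _ = ENNReal.ofReal (3 / r) := by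
          rw [← ENNReal.ofReal_add (by positivity) (by positivity)]
          congr 1; ring

lemma cnt_av (z : Cl) (c : Fin (m + 1) → Cl) :
    cnt z c / (m + 1) = av (fun x => if c x = z then (1 : ℝ) else 0) := rfl

/-- comparison of the two test functions -/
lemma ft_le_phi {δ r : ℝ} (hδ : 0 < δ) (hr : 0 < r) (u : Fin (m + 1) → ℝ)
    (Ψ : Fin (m + 1) → Fin (m + 1)) (hΨ : Ψ 0 = 0) :
    ft m δ (fun x => cls u (Ψ x)) ≤ phi δ r (fun x => u (Ψ x)) +
      (1 / δ) * av (fun x => er r u (Ψ x)) := by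
  set v : Fin (m + 1) → ℝ := fun x => u (Ψ x) with hv
  set a : Fin (m + 1) → ℝ := fun x => if cls u (Ψ x) = Cl.A then 1 else 0 with ha
  set q : Fin (m + 1) → ℝ := fun x => if cls u (Ψ x) = Cl.Q then 1 else 0 with hq
  have ha01 : ∀ x, 0 ≤ a x ∧ a x ≤ 1 := fun x => by simp only [ha]; split_ifs <;> norm_num
  have hq01 : ∀ x, 0 ≤ q x ∧ q x ≤ 1 := fun x => by simp only [hq]; split_ifs <;> norm_num
  have hA := gA_bd hr.le v
  have hQ := gQ_bd hr.le v
  have h1 := Fd_lip (x := av a) (y := av q) (x' := av (gA r v)) (y' := av (gQ r v)) hδ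
    (av_bd ha01).1 (av_bd ha01).2 (av_bd hq01).1 (av_bd hq01).2
    (av_bd hA).1 (av_bd hA).2 (av_bd hQ).1 (av_bd hQ).2
  have h2 := av_sub a (gA r v)
  have h3 := av_sub q (gQ r v)
  have hM : (0 : ℝ) < (m : ℝ) + 1 := by positivity
  have e1 : ∀ x, gA r v x = gA r u (Ψ x) := by
    intro x; simp only [gA, hv, hΨ]
  have e2 : ∀ x, gQ r v x = gQ r u (Ψ x) := by
    intro x; simp only [gQ, hv, hΨ]
  have h4 : av (fun x => |a x - gA r v x|) ≤ av (fun x => er r u (Ψ x)) := by
    unfold av
    apply div_le_div_of_nonneg_right _ hM.le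
    apply Finset.sum_le_sum
    intro x _
    rw [e1]
    exact (er_bound hr u (Ψ x)).1
  have h5 : av (fun x => |q x - gQ r v x|) ≤ av (fun x => er r u (Ψ x)) := by
    unfold av
    apply div_le_div_of_nonneg_right _ hM.le
    apply Finset.sum_le_sum
    intro x _
    rw [e2]
    exact (er_bound hr u (Ψ x)).2
  have h6 : (1 / (2 * δ)) * (|av a - av (gA r v)| + |av q - av (gQ r v)|) ≤
      (1 / (2 * δ)) * (2 * av (fun x => er r u (Ψ x))) := by
    apply mul_le_mul_of_nonneg_left _ (by positivity)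
    linarith
  have h7 : (1 / (2 * δ)) * (2 * av (fun x => er r u (Ψ x))) =
      (1 / δ) * av (fun x => er r u (Ψ x)) := by
    field_simp
  have h8 : ft m δ (fun x => cls u (Ψ x)) = Fd δ (av a) (av q) := rfl
  rw [h8]
  unfold phi
  linarith

lemma phi_meas (δ r : ℝ) : Measurable (fun v : Fin (m + 1) → ℝ => ENNReal.ofReal (phi δ r v)) := by
  apply ENNReal.measurable_ofReal.comp
  unfold phi Fd av gA gQ
  have h1 := (aa_cont r).measurable
  have h2 := (chi_cont r).measurable
  fun_prop

/-- integral comparison for one ancestral map -/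
lemma int_comp {δ r : ℝ} (hδ : 0 < δ) (hr : 0 < r) (Ψ : Fin (m + 1) → Fin (m + 1))
    (hΨ : Ψ 0 = 0) :
    ENNReal.ofReal (Ex (1 / 2) (1 / 2) (fun c => ft m δ (fun x => c (Ψ x)))) ≤
      ∫⁻ u, ENNReal.ofReal (phi δ r (fun x => u (Ψ x))) ∂(pim m) +
        ENNReal.ofReal (3 / (δ * r)) := by
  have hM : (0 : ℝ) < (m : ℝ) + 1 := by positivity
  rw [← (cls_lint (fun c => ft m δ (fun x => c (Ψ x))) (fun c => (ft_bd hδ _).1)).2]
  have h1 : ∀ u : Fin (m + 1) → ℝ, ENNReal.ofReal (ft m δ (fun x => cls u (Ψ x))) ≤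
      ENNReal.ofReal (phi δ r (fun x => u (Ψ x))) +
        ∑ x, ENNReal.ofReal (1 / (δ * (m + 1))) * ENNReal.ofReal (er r u (Ψ x)) := by
    intro u
    have h2 := ft_le_phi hδ hr u Ψ hΨ
    have h3 : ∑ x : Fin (m + 1), ENNReal.ofReal (1 / (δ * (m + 1))) *
        ENNReal.ofReal (er r u (Ψ x)) = ENNReal.ofReal ((1 / δ) * av (fun x => er r u (Ψ x))) := by
      rw [← Finset.mul_sum, ← ENNReal.ofReal_sum_of_nonneg (fun x _ => er_nonneg r u (Ψ x)),
        ← ENNReal.ofReal_mul (by positivity)]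
      congr 1
      unfold av
      field_simp
    rw [h3, ← ENNReal.ofReal_add (phi_bd hδ hr.le _).1]
    · exact ENNReal.ofReal_le_ofReal h2
    · apply mul_nonneg (by positivity)
      unfold av
      exact div_nonneg (Finset.sum_nonneg fun x _ => er_nonneg r u (Ψ x)) hM.le
  refine (lintegral_mono h1).trans ?_
  have hmΨ : Measurable (fun u : Fin (m + 1) → ℝ => (fun x => u (Ψ x))) :=
    measurable_pi_lambda _ fun x => measurable_pi_apply _
  have hmp : Measurable (fun u : Fin (m + 1) → ℝ => ENNReal.ofReal (phi δ r fun x => u (Ψ x))) :=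
    (phi_meas δ r).comp hmΨ
  rw [lintegral_add_left hmp]
  gcongr
  rw [lintegral_finsetSum _ (fun x _ => (er_prob hr (Ψ x)).1.const_mul _)]
  calc ∑ x : Fin (m + 1), ∫⁻ u, ENNReal.ofReal (1 / (δ * (m + 1))) *
        ENNReal.ofReal (er r u (Ψ x)) ∂(pim m)
      ≤ ∑ _x : Fin (m + 1), ENNReal.ofReal (1 / (δ * (m + 1))) * ENNReal.ofReal (3 / r) := by
        apply Finset.sum_le_sum
        intro x _
        rw [lintegral_const_mul _ (er_prob hr (Ψ x)).1]
        gcongr
        exact (er_prob hr (Ψ x)).2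
    _ = ENNReal.ofReal (3 / (δ * r)) := by
        rw [Finset.sum_const, Finset.card_univ, Fintype.card_fin, nsmul_eq_mul,
          ← ENNReal.ofReal_mul (by positivity), ← ENNReal.ofReal_natCast,
          ← ENNReal.ofReal_mul (by positivity)]
        congr 1
        push_cast
        field_simp

end Pool.Agent.H89.FV
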