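import Pool.Agent.H89.FV.Law

/-! Passage to the limit: the Fleming-Viot process. -/

namespace Pool.Agent.H89.FV

open MeasureTheory Filter
open scoped ENNReal Topology

set_option linter.style.haveILetI false
set_option linter.unusedSectionVars false

/-- Reverse Fatou lemma for lower integrals. -/
lemma LL {Ω : Type*} [MeasurableSpace Ω] {P : Measure Ω} [IsFiniteMeasure P]
    (f : ℕ → Ω → ℝ≥0∞) (g : Ω → ℝ≥0∞) (C : ℝ≥0∞) (hC : C ≠ ⊤) (hb : ∀ n ω, f n ω ≤ C)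
    (hlim : ∀ᵐ ω ∂P, Tendsto (fun n => f n ω) atTop (𝓝 (g ω))) (a : ℕ → ℝ≥0∞) (A : ℝ≥0∞)
    (ha : ∀ n, a n ≤ ∫⁻ ω, f n ω ∂P) (hA : Tendsto a atTop (𝓝 A)) :
    A ≤ ∫⁻ ω, g ω ∂P := by
  choose h hm hle hint using fun n => exists_measurable_le_lintegral_eq P (f n)
  have h1 := limsup_lintegral_le (μ := P) (fun _ => C) hm
    (fun n => ae_of_all _ (fun ω => (hle n ω).trans (hb n ω)))
    (by rw [lintegral_const]; exact ENNReal.mul_ne_top hC (measure_ne_top _ _))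
  have h2 : ∫⁻ ω, limsup (fun n => h n ω) atTop ∂P ≤ ∫⁻ ω, g ω ∂P := by
    apply lintegral_mono_ae
    filter_upwards [hlim] with ω hω
    rw [← hω.limsup_eq]
    exact limsup_le_limsup (Eventually.of_forall fun n => hle n ω)
  calc A = limsup a atTop := hA.limsup_eq.symm
    _ ≤ limsup (fun n => ∫⁻ ω, h n ω ∂P) atTop :=
        limsup_le_limsup (Eventually.of_forall fun n => (ha n).trans (hint n).le)
    _ ≤ _ := h1.trans h2

section

variable {nu : Measure ℝ} [SFinite nu] (hs : ∀ᵐ u ∂nu, 0 < u ∧ u ≤ 1)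
  (hi : Integrable (fun u : ℝ => u) nu) {Ω : Type} [MeasurableSpace Ω] {P : Measure Ω}
  [IsProbabilityMeasure P] {A : Ω → Set Atom} {U : Ω → ℕ → ℝ} {m : ℕ}
include hs hi

lemma comb (N : Noise nu P A U) {t : ℝ} (ht : 0 < t) {n : ℕ} (hn : 0 < n)
    (ξ : Ω → ℕ → ℝ) (hξ : ∀ᵐ ω ∂P, ∀ x, ∃ z, Anc (A ω) t x z ∧ ξ ω x = U ω z)
    (F : (Fin (m + 1) → Cl) → ℝ) (hF : ∀ c, 0 ≤ F c)
    (φ : (Fin (m + 1) → ℝ) → ℝ≥0∞) (hφ : Measurable φ) (e : ℝ≥0∞)
    (hc : ∀ Ψ : Fin (m + 1) → Fin (m + 1), Ψ 0 = 0 →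
      ENNReal.ofReal (Ex (1 / 2) (1 / 2) (fun c => F (fun x => c (Ψ x)))) ≤
        ∫⁻ u, φ (fun x => u (Ψ x)) ∂(pim m) + e) :
    ENNReal.ofReal (Ex (1 / 2) (1 / 2) ((MM (t / n) (kap nu))^[n] F)) ≤
      ∫⁻ ω, φ (fun x => ξ ω x) ∂P + e := by
  have hD : Del (1 / 2) (1 / 2) := ⟨by norm_num, by norm_num, by norm_num⟩
  have hw : ∀ y : Fin n → Finset (Fin (m + 1)), 0 ≤ ∏ l, ww (t / n) (kap nu) (y l) := fun y =>
    Finset.prod_nonneg fun l _ => ww_nonneg (by positivity) (fun S _ => kap_nonneg hs hi S) _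
  have h1 : Ex (1 / 2) (1 / 2) ((MM (t / n) (kap nu))^[n] F) =
      ∑ y : Fin n → Finset (Fin (m + 1)), (∏ l, ww (t / n) (kap nu) (y l)) *
        Ex (1 / 2) (1 / 2) (fun c => F (fun x => c (Psi y x))) := by
    have h2 : (MM (t / n) (kap nu))^[n] F = fun c =>
        ∑ y : Fin n → Finset (Fin (m + 1)), (∏ l, ww (t / n) (kap nu) (y l)) *
        F (fun i => c (Psi y i)) := by
      ext c
      exact iter_expand _ _ _ _ _
    rw [h2, Ex_lin]
  have hE : ∀ Ψ : Fin (m + 1) → Fin (m + 1),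
      0 ≤ Ex (1 / 2) (1 / 2) (fun c => F (fun x => c (Ψ x))) := by
    intro Ψ
    have := Ex_mono (m := m) hD (f := fun _ => 0) (g := fun c => F (fun x => c (Ψ x)))
      (fun c => hF _)
    rwa [Ex_const] at this
  rw [h1, ENNReal.ofReal_sum_of_nonneg (fun y _ => mul_nonneg (hw y) (hE _))]
  have hsum : ∑ y : Fin n → Finset (Fin (m + 1)), ENNReal.ofReal (∏ l, ww (t / n) (kap nu) (y l))
      ≤ 1 := by
    rw [← ENNReal.ofReal_sum_of_nonneg (fun y _ => hw y)]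
    have h3 := iter_expand (t / n) (kap nu) (fun _ : Fin (m + 1) → Cl => (1 : ℝ)) n
      (fun _ => Cl.E)
    simp only [mul_one] at h3
    rw [← h3]
    have h4 := (iter_bd (h := t / n) (B := 1) (by positivity)
      (fun (S : Finset (Fin (m + 1))) _ => kap_nonneg hs hi S)
      (f := fun _ => 1) (fun _ => ⟨zero_le_one, le_refl _⟩) n (fun _ => Cl.E)).2
    calc _ ≤ ENNReal.ofReal 1 := ENNReal.ofReal_le_ofReal h4
      _ = 1 := ENNReal.ofReal_one
  calc ∑ y : Fin n → Finset (Fin (m + 1)), ENNReal.ofReal ((∏ l, ww (t / n) (kap nu) (y l)) *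
        Ex (1 / 2) (1 / 2) (fun c => F (fun x => c (Psi y x))))
      ≤ ∑ y : Fin n → Finset (Fin (m + 1)), (ENNReal.ofReal (∏ l, ww (t / n) (kap nu) (y l)) *
          ∫⁻ u, φ (fun x => u (Psi y x)) ∂(pim m) +
          ENNReal.ofReal (∏ l, ww (t / n) (kap nu) (y l)) * e) := by
        apply Finset.sum_le_sum
        intro y _
        rw [ENNReal.ofReal_mul (hw y), ← mul_add]
        gcongr
        exact hc (Psi y) (Psi_zero y)
    _ = ∑ y : Fin n → Finset (Fin (m + 1)), ENNReal.ofReal (∏ l, ww (t / n) (kap nu) (y l)) *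
          ∫⁻ u, φ (fun x => u (Psi y x)) ∂(pim m) +
        (∑ y : Fin n → Finset (Fin (m + 1)), ENNReal.ofReal (∏ l, ww (t / n) (kap nu) (y l))) * e
        := by rw [Finset.sum_add_distrib, Finset.sum_mul]
    _ ≤ ∫⁻ ω, φ (fun x => ξ ω x) ∂P + 1 * e := by
        apply add_le_add
        · exact law_lower hs hi N ht hn ξ hξ φ hφ
        · gcongr
    _ = _ := by rw [one_mul]

/-- the lower bound for the test function on types -/
lemma low_phi (hν : nu ≠ 0) : ∃ c1 > 0, ∀ (A : Ω → Set Atom) (U : Ω → ℕ → ℝ), Noise nu P A U →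
    ∀ t : ℝ, 0 < t → ∀ ξ : Ω → ℕ → ℝ, (∀ᵐ ω ∂P, ∀ x, ∃ z, Anc (A ω) t x z ∧ ξ ω x = U ω z) →
    ∀ (m : ℕ) (δ r : ℝ), 0 < δ → 0 < r →
      ENNReal.ofReal (c1 - 2 / (δ * Real.sqrt (m + 1)) - 3 / (δ * r)) ≤
        ∫⁻ ω, ENNReal.ofReal (phi δ r (fun x : Fin (m + 1) => ξ ω x)) ∂P := by
  obtain ⟨c1, hc1, hF⟩ := lowF hs hi hν
  refine ⟨c1, hc1, ?_⟩
  intro A U N t ht ξ hξ m δ r hδ hr
  set I := ∫⁻ ω, ENNReal.ofReal (phi δ r (fun x : Fin (m + 1) => ξ ω x)) ∂P with hI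
  have hI4 : I ≤ ENNReal.ofReal (1 / 4) := by
    calc I ≤ ∫⁻ _ω, ENNReal.ofReal (1 / 4) ∂P :=
          lintegral_mono fun ω => ENNReal.ofReal_le_ofReal (phi_bd hδ hr.le _).2
      _ = ENNReal.ofReal (1 / 4) := by simp
  have hIt : I ≠ ⊤ := ne_top_of_le_ne_top ENNReal.ofReal_ne_top hI4
  have h1 : ∀ η > 0, c1 - 2 / (δ * Real.sqrt (m + 1)) ≤ (I.toReal + 3 / (δ * r)) + η := by
    intro η hη
    obtain ⟨n, hn, h2⟩ := hF t ht.le m (ft m δ) (1 / 4) (2 / (δ * Real.sqrt (m + 1)))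
      (fun c => ft_bd hδ c) (fun P Q h => ft_lower hδ h) η hη
    have h3 := comb hs hi N ht hn ξ hξ (ft m δ) (fun c => (ft_bd hδ c).1)
      (fun v => ENNReal.ofReal (phi δ r v)) (phi_meas δ r) (ENNReal.ofReal (3 / (δ * r)))
      (fun Ψ hΨ => int_comp hδ hr Ψ hΨ)
    rw [← hI, ← ENNReal.ofReal_toReal hIt, ← ENNReal.ofReal_add ENNReal.toReal_nonneg
      (by positivity), ENNReal.ofReal_le_ofReal_iff (by positivity)] at h3
    linarith
  have h2 := le_of_forall_pos_le_add h1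
  rw [← ENNReal.ofReal_toReal hIt]
  apply ENNReal.ofReal_le_ofReal
  linarith

lemma low_chi (hν : nu ≠ 0) : ∃ l0 > 0, ∀ (A : Ω → Set Atom) (U : Ω → ℕ → ℝ), Noise nu P A U →
    ∀ t : ℝ, 0 < t → ∀ ξ : Ω → ℕ → ℝ, (∀ᵐ ω ∂P, ∀ x, ∃ z, Anc (A ω) t x z ∧ ξ ω x = U ω z) →
    ∀ (m : ℕ) (r : ℝ), 0 < r →
      ENNReal.ofReal (1 - Real.exp (-(l0 * t))) ≤
        ∫⁻ ω, ENNReal.ofReal (1 - av (fun x : Fin (m + 1) => chi r (ξ ω x - ξ ω 0))) ∂P := by
  obtain ⟨l0, hl0, hF⟩ := lowR hs hi hν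
  refine ⟨l0, hl0, ?_⟩
  intro A U N t ht ξ hξ m r hr
  set I := ∫⁻ ω, ENNReal.ofReal (1 - av (fun x : Fin (m + 1) => chi r (ξ ω x - ξ ω 0))) ∂P
    with hI
  have hI4 : I ≤ 1 := by
    calc I ≤ ∫⁻ _ω, 1 ∂P := by
          apply lintegral_mono
          intro ω
          show ENNReal.ofReal _ ≤ 1
          rw [← ENNReal.ofReal_one]
          apply ENNReal.ofReal_le_ofReal
          linarith [(av_bd (g := fun x : Fin (m + 1) => chi r (ξ ω x - ξ ω 0))
            (fun x => chi_bd hr.le _)).1]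
      _ = 1 := by simp
  have hIt : I ≠ ⊤ := ne_top_of_le_ne_top ENNReal.one_ne_top hI4
  have hM : (0 : ℝ) < (m : ℝ) + 1 := by positivity
  have h1 : ∀ η > 0, 1 - Real.exp (-(l0 * t)) ≤ I.toReal + η := by
    intro η hη
    have hf1 : ∀ c : Fin (m + 1) → Cl, 0 ≤ cnt Cl.E c / (m + 1) ∧ cnt Cl.E c / (m + 1) ≤ 1 :=
      fun c => ⟨div_nonneg (cnt_nonneg _ _) hM.le, (div_le_one hM).2 (cnt_le _ _)⟩
    have hf2 : ∀ P Q, Del P Q → 1 - (P + Q) ≤
        Ex P Q (fun c : Fin (m + 1) → Cl => cnt Cl.E c / (m + 1)) := by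
      intro P Q hPQ
      have h2 : (fun c : Fin (m + 1) → Cl => cnt Cl.E c / (m + 1)) = fun c =>
          ∑ x, (1 / ((m : ℝ) + 1)) * (fun w => if w = Cl.E then (1 : ℝ) else 0) (c x) := by
        ext c
        rw [← Finset.mul_sum]
        unfold cnt
        ring
      rw [h2, Ex_lin]
      have h3 : ∀ x : Fin (m + 1), 1 - (P + Q) ≤
          Ex P Q (fun c => (fun w => if w = Cl.E then (1 : ℝ) else 0) (c x)) := by
        intro x
        rw [Ex_one_pt P Q x (fun w => if w = Cl.E then (1 : ℝ) else 0)]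
        by_cases hx : x = 0
        · rw [hx, mu_zero]
          simp only [if_true]
          linarith [hPQ.hP, hPQ.hQ]
        · rw [mu_ne P Q x hx]
          simp
      calc 1 - (P + Q) = ∑ _x : Fin (m + 1), (1 / ((m : ℝ) + 1)) * (1 - (P + Q)) := by
            rw [Finset.sum_const, Finset.card_univ, Fintype.card_fin, nsmul_eq_mul]
            push_cast
            field_simp
        _ ≤ _ := Finset.sum_le_sum fun x _ =>
            mul_le_mul_of_nonneg_left (h3 x) (by positivity)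
    obtain ⟨n, hn, h2⟩ := hF t ht.le m _ hf1 hf2 η hη
    have h3 := comb hs hi N ht hn ξ hξ (fun c : Fin (m + 1) → Cl => cnt Cl.E c / (m + 1))
      (fun c => (hf1 c).1)
      (fun v => ENNReal.ofReal (1 - av (fun x => chi r (v x - v 0)))) (by
        apply ENNReal.measurable_ofReal.comp
        unfold av
        have h2 := (chi_cont r).measurable
        fun_prop) 0
      (fun Ψ hΨ => by
        rw [add_zero, ← (cls_lint (fun c => cnt Cl.E (fun x => c (Ψ x)) / ((m : ℝ) + 1))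
          (fun c => (hf1 _).1)).2]
        apply lintegral_mono
        intro u
        apply ENNReal.ofReal_le_ofReal
        unfold av cnt
        rw [div_le_iff₀ hM, sub_mul, one_mul, div_mul_cancel₀ _ hM.ne']
        have h5 : ((m : ℝ) + 1) = ∑ _x : Fin (m + 1), (1 : ℝ) := by simp
        rw [h5, ← Finset.sum_sub_distrib]
        apply Finset.sum_le_sum
        intro x _
        by_cases hx : cls u (Ψ x) = Cl.E
        · have h6 : Ψ x = 0 := by
            unfold cls at hx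
            by_contra h7
            rw [if_neg h7] at hx
            split_ifs at hx
          rw [if_pos hx]
          show (1 : ℝ) ≤ 1 - chi r (u (Ψ x) - u (Ψ 0))
          rw [h6, hΨ]
          simp [chi]
        · rw [if_neg hx]
          linarith [(chi_bd hr.le (u (Ψ x) - u (Ψ 0))).2])
    rw [add_zero, ← ENNReal.ofReal_toReal (show ∫⁻ ω, ENNReal.ofReal
      (1 - av (fun x : Fin (m + 1) => chi r (ξ ω x - ξ ω (0 : Fin (m + 1))))) ∂P ≠ ⊤ from hIt),
      ENNReal.ofReal_le_ofReal_iff ENNReal.toReal_nonneg] at h3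
    have h6 : (∫⁻ ω, ENNReal.ofReal
      (1 - av (fun x : Fin (m + 1) => chi r (ξ ω x - ξ ω (0 : Fin (m + 1))))) ∂P).toReal =
      I.toReal := rfl
    rw [h6] at h3
    linarith
  have h2 := le_of_forall_pos_le_add h1
  rw [← ENNReal.ofReal_toReal hIt]
  exact ENNReal.ofReal_le_ofReal h2

end

end Pool.Agent.H89.FV
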