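import Pool.Agent.H89.FV.Pattern

/-! The one-cell operators. -/

namespace Pool.Agent.H89.FV

open MeasureTheory

set_option linter.unusedSectionVars false

/-- patterns with at least two participants -/
def rel (m : ℕ) : Finset (Finset (Fin (m + 1))) := Finset.univ.filter fun S => 2 ≤ S.card

lemma mem_rel {m : ℕ} {S : Finset (Fin (m + 1))} : S ∈ rel m ↔ 2 ≤ S.card := by
  simp [rel]

/-- rate of the pattern `S` -/
noncomputable def kap (nu : Measure ℝ) {m : ℕ} (S : Finset (Fin (m + 1))) : ℝ :=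
  ∫ u, u ^ S.card * (1 - u) ^ (Sᶜ).card ∂nu

variable {m : ℕ}

lemma Ex_mono {P Q : ℝ} (h : Del P Q) {f g : (Fin (m + 1) → Cl) → ℝ} (hfg : ∀ c, f c ≤ g c) :
    Ex P Q f ≤ Ex P Q g := by
  unfold Ex
  apply Finset.sum_le_sum
  intro c _
  apply mul_le_mul_of_nonneg_left (hfg c)
  apply Finset.prod_nonneg
  intro i _
  unfold wl
  split_ifs
  · norm_num
  · norm_num
  · unfold wt
    cases c i
    · have := h.hR; show 0 ≤ 1 - P - Q; linarith
    · exact h.hP
    · exact h.hQ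

lemma Ex_const (P Q b : ℝ) : Ex P Q (fun _ : Fin (m + 1) → Cl => b) = b := by
  have h := Ex_prod (m := m) P Q (fun _ _ => 1)
  simp only [mu_one, Finset.prod_const_one] at h
  have h2 := Ex_lin (m := m) (Finset.univ : Finset Unit) P Q (fun _ => b) (fun _ _ => 1)
  simp only [Finset.univ_unique, Finset.sum_singleton, mul_one] at h2
  rw [h2, h, mul_one]

lemma Ex_add (P Q : ℝ) (f g : (Fin (m + 1) → Cl) → ℝ) :
    Ex P Q (fun c => f c + g c) = Ex P Q f + Ex P Q g := by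
  unfold Ex
  simp only [mul_add, Finset.sum_add_distrib]

lemma Ex_smul (P Q b : ℝ) (f : (Fin (m + 1) → Cl) → ℝ) :
    Ex P Q (fun c => b * f c) = b * Ex P Q f := by
  unfold Ex
  rw [Finset.mul_sum]
  apply Finset.sum_congr rfl
  intro c _; ring

lemma Ex_sub_const (P Q b : ℝ) (f : (Fin (m + 1) → Cl) → ℝ) :
    Ex P Q (fun c => f c - b) = Ex P Q f - b := by
  have h1 := Ex_add P Q (fun c => f c - b) (fun _ => b)
  simp only [sub_add_cancel] at h1
  rw [Ex_const] at h1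
  linarith

lemma Ex_sum {κ : Type*} (s : Finset κ) (P Q : ℝ) (g : κ → (Fin (m + 1) → Cl) → ℝ) :
    Ex P Q (fun c => ∑ k ∈ s, g k c) = ∑ k ∈ s, Ex P Q (g k) := by
  have := Ex_lin s P Q (fun _ => 1) g
  simpa using this

/-- the operator of one cell in the lower bound -/
noncomputable def MM (h : ℝ) (k : Finset (Fin (m + 1)) → ℝ) (f : (Fin (m + 1) → Cl) → ℝ) :
    (Fin (m + 1) → Cl) → ℝ := fun c =>
  Real.exp (-(h * ∑ S ∈ rel m, k S)) * (f c + h * ∑ S ∈ rel m, k S * TT S f c)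

/-- the operator of one cell, first order -/
noncomputable def KK (h : ℝ) (k : Finset (Fin (m + 1)) → ℝ) (f : (Fin (m + 1) → Cl) → ℝ) :
    (Fin (m + 1) → Cl) → ℝ := fun c =>
  f c + h * ∑ S ∈ rel m, k S * (TT S f c - f c)

noncomputable def tot (k : Finset (Fin (m + 1)) → ℝ) : ℝ := ∑ S ∈ rel m, k S

lemma MM_nonneg {h B : ℝ} (hh : 0 ≤ h) {k : Finset (Fin (m + 1)) → ℝ} (hk : ∀ S ∈ rel m, 0 ≤ k S)
    {f : (Fin (m + 1) → Cl) → ℝ} (hf : ∀ c, 0 ≤ f c ∧ f c ≤ B) (c : Fin (m + 1) → Cl) :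
    0 ≤ MM h k f c ∧ MM h k f c ≤ B := by
  have hB : 0 ≤ B := (hf c).1.trans (hf c).2
  have h1 : 0 ≤ ∑ S ∈ rel m, k S * TT S f c :=
    Finset.sum_nonneg fun S hS => mul_nonneg (hk S hS) (hf _).1
  have h2 : ∑ S ∈ rel m, k S * TT S f c ≤ (∑ S ∈ rel m, k S) * B := by
    rw [Finset.sum_mul]
    exact Finset.sum_le_sum fun S hS => mul_le_mul_of_nonneg_left (hf _).2 (hk S hS)
  have h3 := Real.exp_pos (-(h * ∑ S ∈ rel m, k S))
  constructor
  · unfold MM
    have := (hf c).1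
    have := mul_nonneg hh h1
    positivity
  · unfold MM
    have h4 : f c + h * ∑ S ∈ rel m, k S * TT S f c ≤ (1 + h * ∑ S ∈ rel m, k S) * B := by
      have := mul_le_mul_of_nonneg_left h2 hh
      have := (hf c).2
      linarith
    have h5 := mul_le_mul_of_nonneg_left h4 h3.le
    have h6 : 1 + h * ∑ S ∈ rel m, k S ≤ Real.exp (h * ∑ S ∈ rel m, k S) := by
      have := Real.add_one_le_exp (h * ∑ S ∈ rel m, k S)
      linarith
    have h7 := mul_le_mul_of_nonneg_right h6 hB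
    have h8 := mul_le_mul_of_nonneg_left h7 h3.le
    have h9 : Real.exp (-(h * ∑ S ∈ rel m, k S)) * (Real.exp (h * ∑ S ∈ rel m, k S) * B) = B := by
      rw [← mul_assoc, ← Real.exp_add, neg_add_cancel, Real.exp_zero, one_mul]
    linarith

lemma MM_ge {h B : ℝ} (hh : 0 ≤ h) {k k' : Finset (Fin (m + 1)) → ℝ}
    (hk' : ∀ S ∈ rel m, 0 ≤ k' S) (hkk : ∀ S ∈ rel m, k' S ≤ k S)
    {f : (Fin (m + 1) → Cl) → ℝ} (hf : ∀ c, 0 ≤ f c ∧ f c ≤ B) (c : Fin (m + 1) → Cl) :
    KK h k' f c - (h * (tot k - tot k') + h ^ 2 * (tot k) ^ 2) * B ≤ MM h k f c := by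
  have hB : 0 ≤ B := (hf c).1.trans (hf c).2
  have hk : ∀ S ∈ rel m, 0 ≤ k S := fun S hS => (hk' S hS).trans (hkk S hS)
  have h1 : 0 ≤ ∑ S ∈ rel m, k S * TT S f c :=
    Finset.sum_nonneg fun S hS => mul_nonneg (hk S hS) (hf _).1
  have h2 : ∑ S ∈ rel m, k S * TT S f c ≤ tot k * B := by
    unfold tot
    rw [Finset.sum_mul]
    exact Finset.sum_le_sum fun S hS => mul_le_mul_of_nonneg_left (hf _).2 (hk S hS)
  have ht : 0 ≤ tot k := Finset.sum_nonneg hk
  have h3 : 1 - h * tot k ≤ Real.exp (-(h * tot k)) := by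
    have := Real.add_one_le_exp (-(h * tot k))
    linarith
  have h4 : (1 - h * tot k) * (f c + h * ∑ S ∈ rel m, k S * TT S f c) ≤ MM h k f c := by
    unfold MM
    apply mul_le_mul_of_nonneg_right h3
    have := (hf c).1
    have := mul_nonneg hh h1
    linarith
  refine le_trans ?_ h4
  have h5 : ∑ S ∈ rel m, k' S * (TT S f c - f c) ≤ (tot k - tot k') * B +
      (∑ S ∈ rel m, k S * TT S f c - tot k * f c) := by
    unfold tot
    rw [← Finset.sum_sub_distrib, Finset.sum_mul, Finset.sum_mul, ← Finset.sum_sub_distrib,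
      ← Finset.sum_add_distrib]
    apply Finset.sum_le_sum
    intro S hS
    have e1 := hkk S hS
    have e2 : (0 : ℝ) ≤ TT S f c := (hf _).1
    have e3 := (hf c).2
    nlinarith [mul_nonneg (sub_nonneg.2 e1) (show 0 ≤ B - f c + TT S f c by linarith)]
  unfold KK
  have h6 := mul_le_mul_of_nonneg_left h5 hh
  have h7 := mul_le_mul_of_nonneg_left h2 (show 0 ≤ h ^ 2 * tot k by positivity)
  nlinarith

section

variable {nu : Measure ℝ} [IsFiniteMeasure nu] (hs : ∀ᵐ u ∂nu, 0 < u ∧ u ≤ 1)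
include hs

lemma int_pow (a b : ℕ) : Integrable (fun u : ℝ => u ^ a * (1 - u) ^ b) nu := by
  refine Integrable.of_bound (C := 1) (by fun_prop) ?_
  filter_upwards [hs] with u hu
  have h1 : 0 ≤ u ^ a := pow_nonneg hu.1.le _
  have h2 : u ^ a ≤ 1 := pow_le_one₀ hu.1.le hu.2
  have h3 : 0 ≤ (1 - u) ^ b := pow_nonneg (by linarith [hu.2]) _
  have h4 : (1 - u) ^ b ≤ 1 := pow_le_one₀ (by linarith [hu.2]) (by linarith [hu.1])
  rw [Real.norm_eq_abs, abs_of_nonneg (mul_nonneg h1 h3)]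
  nlinarith

lemma Ex_KK (h P Q : ℝ) (f : (Fin (m + 1) → Cl) → ℝ) :
    Integrable (fun u => Phi u (fun P' Q' => Ex P' Q' f) P Q) nu ∧
    Ex P Q (KK h (kap nu) f) = Ex P Q f +
      h * ∫ u, (Phi u (fun P' Q' => Ex P' Q' f) P Q - Ex P Q f) ∂nu := by
  have hi : Integrable (fun u => Phi u (fun P' Q' => Ex P' Q' f) P Q) nu := by
    have : (fun u => Phi u (fun P' Q' => Ex P' Q' f) P Q) = fun u =>
        ∑ S : Finset (Fin (m + 1)), (u ^ S.card * (1 - u) ^ (Sᶜ).card) * Ex P Q (TT S f) := by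
      ext u
      rw [← dual]
    rw [this]
    exact integrable_finsetSum _ fun S _ => (int_pow hs _ _).mul_const _
  refine ⟨hi, ?_⟩
  have e1 : Ex P Q (KK h (kap nu) f) = Ex P Q f +
      h * ∑ S ∈ rel m, kap nu S * (Ex P Q (TT S f) - Ex P Q f) := by
    unfold KK
    rw [Ex_add, Ex_smul, Ex_sum]
    congr 2
    apply Finset.sum_congr rfl
    intro S _
    rw [Ex_smul]
    congr 1
    have h1 := Ex_add P Q (fun c => TT S f c - f c) f
    simp only [sub_add_cancel] at h1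
    linarith
  have e2 : ∑ S ∈ rel m, kap nu S * (Ex P Q (TT S f) - Ex P Q f) =
      ∑ S : Finset (Fin (m + 1)), kap nu S * (Ex P Q (TT S f) - Ex P Q f) := by
    unfold rel
    rw [Finset.sum_filter]
    apply Finset.sum_congr rfl
    intro S _
    split_ifs with hS
    · rfl
    · have : TT S f = f := by
        unfold TT
        ext c
        congr 1
        ext i
        rw [sdF_of_card S (by omega)]
      rw [this, sub_self, mul_zero]
  rw [e1, e2]
  congr 2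
  have e3 : ∀ u : ℝ, Phi u (fun P' Q' => Ex P' Q' f) P Q - Ex P Q f =
      ∑ S : Finset (Fin (m + 1)), (u ^ S.card * (1 - u) ^ (Sᶜ).card) *
        (Ex P Q (TT S f) - Ex P Q f) := by
    intro u
    simp only [mul_sub, Finset.sum_sub_distrib]
    rw [dual, ← Finset.sum_mul]
    have : ∑ S : Finset (Fin (m + 1)), u ^ S.card * (1 - u) ^ (Sᶜ).card = 1 := by
      have h1 := Fintype.sum_pow_mul_eq_add_pow (Fin (m + 1)) u (1 - u)
      rw [add_sub_cancel, one_pow] at h1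
      refine Eq.trans ?_ h1
      apply Finset.sum_congr rfl
      intro S _
      rw [Finset.card_compl]
    rw [this, one_mul]
  simp only [e3]
  rw [integral_finsetSum _ fun S _ => (int_pow hs _ _).mul_const _]
  apply Finset.sum_congr rfl
  intro S _
  rw [integral_mul_const]
  rfl

lemma Phi_mono {u P Q : ℝ} (h : Del P Q) (hu : 0 < u) (hu1 : u ≤ 1) {J J' : ℝ → ℝ → ℝ}
    (hJ : ∀ P Q, Del P Q → J P Q ≤ J' P Q) : Phi u J P Q ≤ Phi u J' P Q := by
  have hP := h.hP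
  have hQ := h.hQ
  have hR := h.hR
  have ha : 0 ≤ 1 - u := by linarith
  have d1 : Del ((1 - u) * P) ((1 - u) * Q) :=
    ⟨mul_nonneg ha hP, mul_nonneg ha hQ, by nlinarith⟩
  have d2 : Del ((1 - u) * P + u) ((1 - u) * Q) :=
    ⟨add_nonneg (mul_nonneg ha hP) hu.le, mul_nonneg ha hQ, by nlinarith⟩
  have d3 : Del ((1 - u) * P) ((1 - u) * Q + u) :=
    ⟨mul_nonneg ha hP, add_nonneg (mul_nonneg ha hQ) hu.le, by nlinarith⟩
  unfold Phi
  have c1 : 0 ≤ u + (1 - u) * (1 - P - Q) := by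
    have := mul_nonneg ha (show 0 ≤ 1 - P - Q by linarith)
    linarith
  have := mul_le_mul_of_nonneg_left (hJ _ _ d1) c1
  have := mul_le_mul_of_nonneg_left (hJ _ _ d2) (mul_nonneg ha hP)
  have := mul_le_mul_of_nonneg_left (hJ _ _ d3) (mul_nonneg ha hQ)
  linarith

lemma Phi_sub_const (u P Q b : ℝ) (J : ℝ → ℝ → ℝ) :
    Phi u (fun P' Q' => J P' Q' - b) P Q = Phi u J P Q - b := by
  unfold Phi; ring

/-- propagation of lower bounds through one cell -/
lemma propagate {h : ℝ} (hh : 0 ≤ h) (hh1 : h * nu.real Set.univ ≤ 1)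
    {J : ℝ → ℝ → ℝ} {g : ℝ → ℝ → ℝ → ℝ} {b : ℝ}
    (hstep : ∀ P Q v, Del P Q → 0 < v → v ≤ 1 → J P Q + g P Q v ≤ Phi v J P Q)
    (hg : ∀ P Q, Del P Q → Integrable (g P Q) nu)
    {f : (Fin (m + 1) → Cl) → ℝ} (hf : ∀ P Q, Del P Q → J P Q - b ≤ Ex P Q f)
    {P Q : ℝ} (hPQ : Del P Q) :
    J P Q - b + h * ∫ v, g P Q v ∂nu ≤ Ex P Q (KK h (kap nu) f) := by
  obtain ⟨hi, he⟩ := Ex_KK hs h P Q f
  rw [he, integral_sub hi (integrable_const _), integral_const, smul_eq_mul]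
  have h1 : (J P Q - b) * nu.real Set.univ + ∫ v, g P Q v ∂nu ≤
      ∫ u, Phi u (fun P' Q' => Ex P' Q' f) P Q ∂nu := by
    have e : (J P Q - b) * nu.real Set.univ + ∫ v, g P Q v ∂nu =
        ∫ v, ((J P Q - b) + g P Q v) ∂nu := by
      rw [integral_add (integrable_const _) (hg P Q hPQ), integral_const, smul_eq_mul, mul_comm]
    rw [e]
    apply integral_mono_ae ((integrable_const _).add (hg P Q hPQ)) hi
    filter_upwards [hs] with v hv
    have h2 := hstep P Q v hPQ hv.1 hv.2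
    have h3 : Phi v (fun P' Q' => J P' Q' - b) P Q ≤ Phi v (fun P' Q' => Ex P' Q' f) P Q :=
      Phi_mono hs hPQ hv.1 hv.2 hf
    rw [Phi_sub_const hs] at h3
    show (J P Q - b) + g P Q v ≤ _
    linarith
  have h4 := mul_le_mul_of_nonneg_left h1 hh
  have h5 := mul_le_mul_of_nonneg_left (hf P Q hPQ) (sub_nonneg.2 hh1)
  nlinarith

end

end Pool.Agent.H89.FV
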