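import Pool.Agent.H89.FV.Shift
import Pool.Agent.H89.FV.Kernel

/-! Finite patterns of classes and the duality of the lookdown with the kernel `Phi`. -/

namespace Pool.Agent.H89.FV

open MeasureTheory

/-- the three classes -/
inductive Cl
  | E | A | Q
  deriving DecidableEq

instance : Fintype Cl where
  elems := {Cl.E, Cl.A, Cl.Q}
  complete := by intro z; cases z <;> decide

def wt (P Q : ℝ) : Cl → ℝ
  | .E => 1 - P - Q
  | .A => P
  | .Q => Q

lemma sum_Cl (g : Cl → ℝ) : ∑ z, g z = g Cl.E + g Cl.A + g Cl.Q := by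
  have : (Finset.univ : Finset Cl) = {Cl.E, Cl.A, Cl.Q} := by decide
  rw [this, Finset.sum_insert (by decide), Finset.sum_insert (by decide), Finset.sum_singleton]
  ring

variable {m : ℕ}

/-- the weights: level `0` has class `E`, the other levels have independent random classes -/
def wl (P Q : ℝ) (i : Fin (m + 1)) (z : Cl) : ℝ :=
  if i = 0 then (if z = Cl.E then 1 else 0) else wt P Q z

def mu (P Q : ℝ) (i : Fin (m + 1)) (g : Cl → ℝ) : ℝ := ∑ z, wl P Q i z * g z

def Ex (P Q : ℝ) (f : (Fin (m + 1) → Cl) → ℝ) : ℝ := ∑ c, (∏ i, wl P Q i (c i)) * f c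

noncomputable def TT (S : Finset (Fin (m + 1))) (f : (Fin (m + 1) → Cl) → ℝ) :
    (Fin (m + 1) → Cl) → ℝ := fun c => f (fun i => c (sdF S i))

lemma mu_zero (P Q : ℝ) (g : Cl → ℝ) : mu P Q (0 : Fin (m + 1)) g = g Cl.E := by
  unfold mu wl
  rw [sum_Cl]
  simp

lemma mu_ne (P Q : ℝ) (i : Fin (m + 1)) (hi : i ≠ 0) (g : Cl → ℝ) :
    mu P Q i g = (1 - P - Q) * g Cl.E + P * g Cl.A + Q * g Cl.Q := by
  unfold mu wl
  rw [sum_Cl]
  simp [hi, wt]

lemma mu_one (P Q : ℝ) (i : Fin (m + 1)) : mu P Q i (fun _ => 1) = 1 := by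
  by_cases hi : i = 0
  · subst hi; rw [mu_zero]
  · rw [mu_ne P Q i hi]; ring

lemma sum_prod_fiber (P Q : ℝ) (σ : Fin (m + 1) → Fin (m + 1)) (f : Fin (m + 1) → Cl → ℝ) :
    ∑ c : Fin (m + 1) → Cl, (∏ i, wl P Q i (c i)) * ∏ j, f j (c (σ j)) =
      ∏ y, mu P Q y (fun z => ∏ j ∈ Finset.univ.filter (fun j => σ j = y), f j z) := by
  have h1 : ∀ c : Fin (m + 1) → Cl, (∏ i, wl P Q i (c i)) * ∏ j, f j (c (σ j)) =
      ∏ y, (wl P Q y (c y) * ∏ j ∈ Finset.univ.filter (fun j => σ j = y), f j (c y)) := by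
    intro c
    rw [Finset.prod_mul_distrib]
    congr 1
    rw [← Finset.prod_fiberwise Finset.univ σ]
    apply Finset.prod_congr rfl
    intro y _
    apply Finset.prod_congr rfl
    intro j hj
    rw [(Finset.mem_filter.1 hj).2]
  rw [Finset.sum_congr rfl (fun c _ => h1 c)]
  unfold mu
  rw [Finset.prod_univ_sum, Fintype.piFinset_univ]

lemma Ex_prod (P Q : ℝ) (f : Fin (m + 1) → Cl → ℝ) :
    Ex P Q (fun c => ∏ j, f j (c j)) = ∏ j, mu P Q j (f j) := by
  unfold Ex
  have := sum_prod_fiber P Q id f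
  simp only [id] at this
  rw [this]
  apply Finset.prod_congr rfl
  intro y _
  congr 1
  ext z
  rw [Finset.filter_eq' Finset.univ y, if_pos (Finset.mem_univ _), Finset.prod_singleton]

lemma Ex_TT_prod (P Q : ℝ) (f : Fin (m + 1) → Cl → ℝ) (S : Finset (Fin (m + 1)))
    (hS : S.Nonempty) :
    Ex P Q (TT S (fun c => ∏ j, f j (c j))) =
      mu P Q (S.min' hS) (fun z => ∏ j ∈ S, f j z) * ∏ j ∈ Sᶜ, mu P Q j (f j) := by
  unfold Ex TT
  rw [sum_prod_fiber P Q (sdF S) f, ← Finset.mul_prod_erase Finset.univ _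
    (Finset.mem_univ (S.min' hS))]
  have hf : Finset.univ.filter (fun j => sdF S j = S.min' hS) = S := by
    ext j
    rw [Finset.mem_filter]
    constructor
    · rintro ⟨_, h⟩
      by_contra hj
      exact sdF_notMem_ne S hS j hj h
    · intro h
      exact ⟨Finset.mem_univ _, sdF_mem S hS j h⟩
  rw [hf]
  congr 1
  have hm : ∀ j ∈ Sᶜ, sdF S j ∈ Finset.univ.erase (S.min' hS) := by
    intro j hj
    rw [Finset.mem_compl] at hj
    exact Finset.mem_erase.2 ⟨sdF_notMem_ne S hS j hj, Finset.mem_univ _⟩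
  rw [← Finset.prod_fiberwise_of_maps_to hm]
  apply Finset.prod_congr rfl
  intro y hy
  have hy' : y ≠ S.min' hS := (Finset.mem_erase.1 hy).1
  have hfe : Finset.univ.filter (fun j => sdF S j = y) = Sᶜ.filter (fun j => sdF S j = y) := by
    ext j
    rw [Finset.mem_filter, Finset.mem_filter, Finset.mem_compl]
    constructor
    · rintro ⟨_, h⟩
      refine ⟨fun hj => hy' ?_, h⟩
      rw [← h, sdF_mem S hS j hj]
    · rintro ⟨_, h⟩
      exact ⟨Finset.mem_univ _, h⟩
  rw [hfe]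
  rcases Finset.eq_empty_or_nonempty (Sᶜ.filter (fun j => sdF S j = y)) with he | ⟨j, hj⟩
  · rw [he]
    simp only [Finset.prod_empty]
    exact mu_one P Q y
  · have hs : Sᶜ.filter (fun j => sdF S j = y) = {j} := by
      ext i
      rw [Finset.mem_singleton]
      constructor
      · intro hi
        rw [Finset.mem_filter, Finset.mem_compl] at hi hj
        exact sdF_inj S i j hi.1 hj.1 (hi.2.trans hj.2.symm)
      · rintro rfl; exact hj
    rw [hs]
    simp only [Finset.prod_singleton]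
    rw [Finset.mem_filter, Finset.mem_compl] at hj
    by_cases hj0 : j = 0
    · have : y = 0 := by rw [← hj.2, hj0, sdF_zero]
      rw [hj0, this]
    · have hy0 : y ≠ 0 := by
        intro h0
        by_cases hS0 : (0 : Fin (m + 1)) ∈ S
        · apply hy'
          rw [h0]
          exact le_antisymm (Fin.zero_le _) (S.min'_le 0 hS0)
        · apply hj0
          apply sdF_inj S j 0 hj.1 hS0
          rw [hj.2, sdF_zero, h0]
      rw [mu_ne P Q y hy0, mu_ne P Q j hj0]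

lemma TT_empty (f : (Fin (m + 1) → Cl) → ℝ) :
    TT (∅ : Finset (Fin (m + 1))) f = f := by
  unfold TT
  ext c
  congr 1
  ext i
  rw [sdF_empty]

/-- the value of `Ex (TT S f)` for a product function, in the two cases -/
lemma Ex_TT_prod_zero (P Q : ℝ) (f : Fin (m + 1) → Cl → ℝ) (S : Finset (Fin (m + 1)))
    (h0 : (0 : Fin (m + 1)) ∈ S) :
    Ex P Q (TT S (fun c => ∏ j, f j (c j))) =
      (∏ j ∈ S, f j Cl.E) * ∏ j ∈ Sᶜ, mu P Q j (f j) := by
  rw [Ex_TT_prod P Q f S ⟨0, h0⟩]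
  have : S.min' ⟨0, h0⟩ = 0 := le_antisymm (S.min'_le 0 h0) (Fin.zero_le _)
  rw [this, mu_zero]

lemma Ex_TT_prod_nz (P Q : ℝ) (f : Fin (m + 1) → Cl → ℝ) (S : Finset (Fin (m + 1)))
    (h0 : (0 : Fin (m + 1)) ∉ S) :
    Ex P Q (TT S (fun c => ∏ j, f j (c j))) =
      ∑ z, wt P Q z * ((∏ j ∈ S, f j z) * ∏ j ∈ Sᶜ, mu P Q j (f j)) := by
  rcases Finset.eq_empty_or_nonempty S with he | hne
  · rw [he, TT_empty, Ex_prod]
    simp only [Finset.prod_empty, Finset.compl_empty, one_mul]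
    rw [← Finset.sum_mul, sum_Cl]
    simp only [wt]
    ring
  · rw [Ex_TT_prod P Q f S hne]
    have hm : S.min' hne ≠ 0 := fun h => h0 (h ▸ S.min'_mem hne)
    rw [mu_ne P Q _ hm, sum_Cl]
    simp only [wt]
    ring

lemma Ex_lin {κ : Type*} (s : Finset κ) (P Q : ℝ) (a : κ → ℝ)
    (g : κ → (Fin (m + 1) → Cl) → ℝ) :
    Ex P Q (fun c => ∑ k ∈ s, a k * g k c) = ∑ k ∈ s, a k * Ex P Q (g k) := by
  unfold Ex
  simp only [Finset.mul_sum]
  rw [Finset.sum_comm]
  apply Finset.sum_congr rfl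
  intro k _
  apply Finset.sum_congr rfl
  intro c _
  ring

lemma prod_pt (c0 c : Fin (m + 1) → Cl) :
    (∏ j, (if c j = c0 j then (1 : ℝ) else 0)) = if c = c0 then 1 else 0 := by
  split_ifs with h
  · apply Finset.prod_eq_one
    intro j _
    rw [if_pos (by rw [h])]
  · rw [Finset.prod_eq_zero_iff]
    by_contra hc
    push Not at hc
    apply h
    ext j
    by_contra hj
    exact hc j (Finset.mem_univ _) (if_neg hj)

lemma expand (f : (Fin (m + 1) → Cl) → ℝ) :
    f = fun c => ∑ c0, f c0 * ∏ j, (if c j = c0 j then (1 : ℝ) else 0) := by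
  ext c
  simp only [prod_pt]
  simp

/-- duality for product functions -/
lemma dual_prod (P Q u : ℝ) (f : Fin (m + 1) → Cl → ℝ) :
    ∑ S : Finset (Fin (m + 1)), u ^ S.card * (1 - u) ^ (Sᶜ).card *
      Ex P Q (TT S (fun c => ∏ j, f j (c j))) =
    Phi u (fun P' Q' => Ex P' Q' (fun c => ∏ j, f j (c j))) P Q := by
  set a : Fin (m + 1) → ℝ := fun j => u * f j Cl.E with ha
  set b : Fin (m + 1) → ℝ := fun j => if j = 0 then 0 else (1 - u) * mu P Q j (f j) with hb
  set a' : Cl → Fin (m + 1) → ℝ := fun z j => if j = 0 then 0 else u * f j z with ha'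
  set b' : Fin (m + 1) → ℝ := fun j => (1 - u) * mu P Q j (f j) with hb'
  have key : ∀ S : Finset (Fin (m + 1)), u ^ S.card * (1 - u) ^ (Sᶜ).card *
      Ex P Q (TT S (fun c => ∏ j, f j (c j))) =
      (∏ j ∈ S, a j) * (∏ j ∈ Sᶜ, b j) +
        ∑ z, wt P Q z * ((∏ j ∈ S, a' z j) * (∏ j ∈ Sᶜ, b' j)) := by
    intro S
    by_cases h0 : (0 : Fin (m + 1)) ∈ S
    · rw [Ex_TT_prod_zero P Q f S h0]
      have e1 : ∀ z, (∏ j ∈ S, a' z j) = 0 := fun z =>
        Finset.prod_eq_zero h0 (by simp [ha'])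
      have e2 : (∏ j ∈ Sᶜ, b j) = ∏ j ∈ Sᶜ, ((1 - u) * mu P Q j (f j)) := by
        apply Finset.prod_congr rfl
        intro j hj
        rw [Finset.mem_compl] at hj
        have : j ≠ 0 := fun h => hj (h ▸ h0)
        simp [hb, this]
      rw [e2]
      simp only [e1, zero_mul, mul_zero, Finset.sum_const_zero, add_zero, ha]
      rw [Finset.prod_mul_distrib, Finset.prod_mul_distrib, Finset.prod_const, Finset.prod_const]
      ring
    · rw [Ex_TT_prod_nz P Q f S h0]
      have e1 : (∏ j ∈ Sᶜ, b j) = 0 :=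
        Finset.prod_eq_zero (Finset.mem_compl.2 h0) (by simp [hb])
      have e2 : ∀ z, (∏ j ∈ S, a' z j) = ∏ j ∈ S, (u * f j z) := by
        intro z
        apply Finset.prod_congr rfl
        intro j hj
        have : j ≠ 0 := fun h => h0 (h ▸ hj)
        simp [ha', this]
      rw [e1, mul_zero, zero_add, Finset.mul_sum]
      apply Finset.sum_congr rfl
      intro z _
      rw [e2, hb']
      rw [Finset.prod_mul_distrib, Finset.prod_mul_distrib, Finset.prod_const, Finset.prod_const]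
      ring
  rw [Finset.sum_congr rfl (fun S _ => key S), Finset.sum_add_distrib, Finset.sum_comm]
  have hpa : ∀ (x y : Fin (m + 1) → ℝ), ∑ S : Finset (Fin (m + 1)), (∏ j ∈ S, x j) *
      (∏ j ∈ Sᶜ, y j) = ∏ j, (x j + y j) := by
    intro x y
    rw [Finset.prod_add, Finset.powerset_univ]
    rfl
  rw [hpa]
  have e3 : ∀ z, ∑ S : Finset (Fin (m + 1)), wt P Q z * ((∏ j ∈ S, a' z j) * (∏ j ∈ Sᶜ, b' j)) =
      wt P Q z * ∏ j, (a' z j + b' j) := by
    intro z
    rw [← Finset.mul_sum, hpa]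
  rw [Finset.sum_congr rfl (fun z _ => e3 z), sum_Cl]
  unfold Phi
  simp only [Ex_prod]
  simp only [Fin.prod_univ_succ]
  simp only [ha, hb, ha', hb', mu_zero, wt]
  have s1 : ∀ i : Fin m, (Fin.succ i) ≠ 0 := fun i => Fin.succ_ne_zero i
  simp only [s1, if_false, if_true, mu_ne _ _ _ (s1 _)]
  have p1 : ∀ i : Fin m, (1 - (1 - u) * P - (1 - u) * Q) * f i.succ Cl.E +
      (1 - u) * P * f i.succ Cl.A + (1 - u) * Q * f i.succ Cl.Q =
      u * f i.succ Cl.E + (1 - u) * ((1 - P - Q) * f i.succ Cl.E + P * f i.succ Cl.A +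
        Q * f i.succ Cl.Q) := by intro i; ring
  have p2 : ∀ i : Fin m, (1 - ((1 - u) * P + u) - (1 - u) * Q) * f i.succ Cl.E +
      ((1 - u) * P + u) * f i.succ Cl.A + (1 - u) * Q * f i.succ Cl.Q =
      u * f i.succ Cl.A + (1 - u) * ((1 - P - Q) * f i.succ Cl.E + P * f i.succ Cl.A +
        Q * f i.succ Cl.Q) := by intro i; ring
  have p3 : ∀ i : Fin m, (1 - (1 - u) * P - ((1 - u) * Q + u)) * f i.succ Cl.E +
      (1 - u) * P * f i.succ Cl.A + ((1 - u) * Q + u) * f i.succ Cl.Q =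
      u * f i.succ Cl.Q + (1 - u) * ((1 - P - Q) * f i.succ Cl.E + P * f i.succ Cl.A +
        Q * f i.succ Cl.Q) := by intro i; ring
  simp only [p1, p2, p3]
  ring

lemma Phi_lin {κ : Type*} (s : Finset κ) (P Q u : ℝ) (a : κ → ℝ) (g : κ → ℝ → ℝ → ℝ) :
    Phi u (fun P' Q' => ∑ k ∈ s, a k * g k P' Q') P Q = ∑ k ∈ s, a k * Phi u (g k) P Q := by
  unfold Phi
  simp only [mul_add, Finset.sum_add_distrib, Finset.mul_sum]
  congr 1
  · congr 1
    · apply Finset.sum_congr rfl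
      intro k _; ring
    · apply Finset.sum_congr rfl
      intro k _; ring
  · apply Finset.sum_congr rfl
    intro k _; ring

/-- **Duality**: averaging over the participating levels. -/
theorem dual (P Q u : ℝ) (f : (Fin (m + 1) → Cl) → ℝ) :
    ∑ S : Finset (Fin (m + 1)), u ^ S.card * (1 - u) ^ (Sᶜ).card * Ex P Q (TT S f) =
    Phi u (fun P' Q' => Ex P' Q' f) P Q := by
  have hL : ∀ S : Finset (Fin (m + 1)), Ex P Q (TT S f) =
      ∑ c0, f c0 * Ex P Q (TT S (fun c => ∏ j, (if c j = c0 j then (1 : ℝ) else 0))) := by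
    intro S
    conv_lhs => rw [expand f]
    have : TT S (fun c => ∑ c0, f c0 * ∏ j, (if c j = c0 j then (1 : ℝ) else 0)) =
      fun c => ∑ c0, f c0 * TT S (fun c => ∏ j, (if c j = c0 j then (1 : ℝ) else 0)) c := rfl
    rw [this, Ex_lin]
  have hR : (fun P' Q' => Ex P' Q' f) = fun P' Q' =>
      ∑ c0, f c0 * Ex P' Q' (fun c => ∏ j, (if c j = c0 j then (1 : ℝ) else 0)) := by
    ext P' Q'
    conv_lhs => rw [expand f]
    rw [Ex_lin]
  rw [hR, Phi_lin]
  simp only [hL, Finset.mul_sum]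
  rw [Finset.sum_comm]
  apply Finset.sum_congr rfl
  intro c0 _
  rw [← dual_prod P Q u (fun j z => if z = c0 j then (1 : ℝ) else 0), Finset.mul_sum]
  apply Finset.sum_congr rfl
  intro S _
  ring

end Pool.Agent.H89.FV
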