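import Pool.Agent.H89.FV.Defs

/-! Elementary properties of `shiftDown`, `History`, `back`. (Proofs of the basic facts follow the
library module `Pool.Graph.R_seed8.R946.LF`.) -/

namespace Pool.Agent.H89.FV

lemma count_add (J : ℕ → Bool) (a r : ℕ) :
    Nat.count (fun y => J y = true) (a + r) ≤ Nat.count (fun y => J y = true) a + r := by
  induction r with
  | zero => simp
  | succ r ih =>
    rw [← Nat.add_assoc, Nat.count_succ]
    split_ifs <;> omega

lemma count_mono (J : ℕ → Bool) {a b : ℕ} (h : a ≤ b) :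
    Nat.count (fun y => J y = true) a ≤ Nat.count (fun y => J y = true) b :=
  Nat.count_monotone _ h

lemma count_succ_true (J : ℕ → Bool) {a : ℕ} (h : J a = true) :
    Nat.count (fun y => J y = true) (a + 1) = Nat.count (fun y => J y = true) a + 1 := by
  rw [Nat.count_succ, if_pos h]

lemma count_succ_false (J : ℕ → Bool) {a : ℕ} (h : J a = false) :
    Nat.count (fun y => J y = true) (a + 1) = Nat.count (fun y => J y = true) a := by
  rw [Nat.count_succ, if_neg (by simp [h]), Nat.add_zero]

lemma sd_lt (J : ℕ → Bool) {y y' : ℕ} (h : J y = false) (h' : J y' = false) (hy : y < y') :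
    shiftDown J y < shiftDown J y' := by
  unfold shiftDown
  rw [if_neg (by simp [h]), if_neg (by simp [h'])]
  have h1 := count_succ_false J h
  have h2 := count_add J (y + 1) (y' - (y + 1))
  rw [Nat.add_sub_cancel' hy] at h2
  have h3 : Nat.count (fun y => J y = true) y ≤ y := Nat.count_le _
  have h4 := count_mono J hy.le
  omega

lemma sd_ne (J : ℕ → Bool) {y y' : ℕ} (h : J y = false) (h' : J y' = true) :
    shiftDown J y ≠ shiftDown J y' := by
  unfold shiftDown
  rw [if_neg (by simp [h]), if_pos h']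
  set mn := sInf {y | J y = true} with hmn
  have hm : J mn = true := by
    have : mn ∈ {y | J y = true} := Nat.sInf_mem ⟨y', h'⟩
    exact this
  have hlt : ∀ z < mn, ¬ J z = true := fun z hz hJ => by
    have := Nat.notMem_of_lt_sInf (hmn ▸ hz)
    exact this hJ
  have h0 : Nat.count (fun y => J y = true) mn = 0 := by
    rw [Nat.count_iff_forall_not]
    intro n hn
    exact hlt n hn
  rcases lt_trichotomy y mn with hy | hy | hy
  · omega
  · rw [hy, hm] at h
    exact absurd h (by simp)
  · have h1 := count_succ_true J hm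
    have h2 := count_add J (mn + 1) (y - (mn + 1))
    rw [Nat.add_sub_cancel' hy] at h2
    have h4 := count_mono J (show mn + 1 ≤ y from hy)
    omega

lemma sd_of_not_rel (J : ℕ → Bool) (x y : ℕ) (hR : ¬ Rel J x) (hyx : y ≤ x) :
    shiftDown J y = y := by
  unfold Rel at hR
  unfold shiftDown
  split_ifs with hJ
  · apply le_antisymm
    · exact Nat.sInf_le hJ
    · by_contra hlt
      push Not at hlt
      have hmem : sInf {y | J y = true} ∈ {y | J y = true} := Nat.sInf_mem ⟨y, hJ⟩
      have h1 := count_succ_true J hmem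
      have h2 := count_mono J (show sInf {y | J y = true} + 1 ≤ y from hlt)
      have h3 := count_succ_true J hJ
      have h4 := count_mono J (show y + 1 ≤ x + 1 by omega)
      omega
  · have h4 := count_mono J (show y ≤ x + 1 by omega)
    omega

lemma sd_le (J : ℕ → Bool) (y : ℕ) : shiftDown J y ≤ y := by
  unfold shiftDown
  split_ifs with hJ
  · exact Nat.sInf_le hJ
  · omega

lemma sd_zero (J : ℕ → Bool) : shiftDown J 0 = 0 := Nat.le_zero.1 (sd_le J 0)

/-- `shiftDown` at `x` depends only on the participation of the levels `≤ x`. -/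
lemma sd_congr (J J' : ℕ → Bool) (m x : ℕ) (hx : x ≤ m) (h : ∀ y ≤ m, J y = J' y) :
    shiftDown J x = shiftDown J' x := by
  unfold shiftDown
  rw [h x hx]
  split_ifs with hJ
  · have hJ0 : J x = true := by rw [h x hx, hJ]
    have hm : sInf {y | J y = true} ∈ {y | J y = true} := Nat.sInf_mem ⟨x, hJ0⟩
    have hm' : sInf {y | J' y = true} ∈ {y | J' y = true} := Nat.sInf_mem ⟨x, hJ⟩
    have hle : sInf {y | J y = true} ≤ x := Nat.sInf_le hJ0
    have hle' : sInf {y | J' y = true} ≤ x := Nat.sInf_le hJ
    apply le_antisymm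
    · apply Nat.sInf_le
      show J _ = true
      rw [h _ (hle'.trans hx)]
      exact hm'
    · apply Nat.sInf_le
      show J' _ = true
      rw [← h _ (hle.trans hx)]
      exact hm
  · have : Nat.count (fun y => J y = true) x = Nat.count (fun y => J' y = true) x := by
      rw [Nat.count_eq_card_filter_range, Nat.count_eq_card_filter_range]
      congr 1
      apply Finset.filter_congr
      intro y hy
      rw [Finset.mem_range] at hy
      rw [h y (by omega)]
    rw [this]

lemma rel_congr (J J' : ℕ → Bool) (m x : ℕ) (hx : x ≤ m) (h : ∀ y ≤ m, J y = J' y) :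
    Rel J x ↔ Rel J' x := by
  unfold Rel
  have : Nat.count (fun y => J y = true) (x + 1) = Nat.count (fun y => J' y = true) (x + 1) := by
    rw [Nat.count_eq_card_filter_range, Nat.count_eq_card_filter_range]
    congr 1
    apply Finset.filter_congr
    intro y hy
    rw [Finset.mem_range] at hy
    rw [h y (by omega)]
  rw [this]

theorem nodup_of {l : List Atom} (h : l.Pairwise (fun a b => a.1 < b.1)) : l.Nodup := by
  refine List.Pairwise.imp (R := fun a b : Atom => a.1 < b.1) (S := fun a b => a ≠ b) ?_ h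
  rintro a b hab rfl
  exact lt_irrefl _ hab

theorem hist_uniq (A : Set Atom) (t : ℝ) (x : ℕ) (l l' : List Atom)
    (h : History A t x l) (h' : History A t x l') : l = l' := by
  have hp : l.Perm l' := by
    rw [List.perm_ext_iff_of_nodup (nodup_of h.1) (nodup_of h'.1)]
    intro b
    rw [h.2 b, h'.2 b]
  exact List.Perm.eq_of_pairwise
    (fun a b _ _ (h1 : a.1 < b.1) (h2 : b.1 < a.1) => absurd h2 (not_lt.2 h1.le)) h.1 h'.1 hp

theorem anc_uniq (A : Set Atom) (t : ℝ) (x y y' : ℕ) (h : Anc A t x y) (h' : Anc A t x y') :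
    y = y' := by
  obtain ⟨l, hl, hy⟩ := h
  obtain ⟨l', hl', hy'⟩ := h'
  rw [← hy, ← hy', hist_uniq A t x l l' hl hl']

theorem Rel_mono {J : ℕ → Bool} {x x' : ℕ} (h : x ≤ x') (hr : Rel J x) : Rel J x' := by
  unfold Rel at hr ⊢
  exact hr.trans (Nat.count_monotone _ (by omega))

theorem back_le (l : List Atom) (x : ℕ) : back l x ≤ x := by
  induction l with
  | nil => exact le_refl _
  | cons b t ih => exact (sd_le (part b) (back t x)).trans ih

theorem back_filter (x : ℕ) (p : Atom → Bool)
    (hp : ∀ b, p b = false → ¬ Rel (part b) x) (l : List Atom) (y : ℕ) (hy : y ≤ x) :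
    back (l.filter p) y = back l y := by
  induction l with
  | nil => rfl
  | cons b t ih =>
    by_cases hb : p b = true
    · rw [List.filter_cons_of_pos hb]
      show shiftDown (part b) (back (t.filter p) y) = shiftDown (part b) (back t y)
      rw [ih]
    · rw [List.filter_cons_of_neg hb, ih]
      have hb' : p b = false := by simpa using hb
      show back t y = shiftDown (part b) (back t y)
      exact (sd_of_not_rel (part b) x (back t y) (hp b hb') ((back_le t y).trans hy)).symm

theorem hist_restr (A : Set Atom) (t : ℝ) (x x' : ℕ) (l' : List Atom) (hx : x ≤ x')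
    (h' : History A t x' l') :
    ∃ l, History A t x l ∧ ∀ y ≤ x, back l y = back l' y := by
  classical
  refine ⟨l'.filter (fun b => decide (Rel (part b) x)), ⟨h'.1.filter _, ?_⟩, ?_⟩
  · intro b
    rw [List.mem_filter, decide_eq_true_iff, h'.2 b]
    constructor
    · rintro ⟨⟨h1, h2, h3, _⟩, h4⟩
      exact ⟨h1, h2, h3, h4⟩
    · rintro ⟨h1, h2, h3, h4⟩
      exact ⟨⟨h1, h2, h3, Rel_mono hx h4⟩, h4⟩
  · intro y hy
    exact back_filter x _ (fun b hb => of_decide_eq_false hb) l' y hy

/-! ### Finite participation patterns -/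

/-- The participation indicator of a finite set of levels `≤ m`. -/
def JS {m : ℕ} (S : Finset (Fin (m + 1))) (y : ℕ) : Bool :=
  decide (∃ h : y < m + 1, (⟨y, h⟩ : Fin (m + 1)) ∈ S)

lemma JS_fin {m : ℕ} (S : Finset (Fin (m + 1))) (i : Fin (m + 1)) :
    JS S i = decide (i ∈ S) := by
  unfold JS
  congr 1
  exact propext ⟨fun ⟨_, h⟩ => h, fun h => ⟨i.2, h⟩⟩

/-- The map `shiftDown` on the levels `0, …, m` for the finite pattern `S`. -/
noncomputable def sdF {m : ℕ} (S : Finset (Fin (m + 1))) (i : Fin (m + 1)) : Fin (m + 1) :=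
  ⟨shiftDown (JS S) i, lt_of_le_of_lt (sd_le _ _) i.2⟩

lemma sdF_val {m : ℕ} (S : Finset (Fin (m + 1))) (i : Fin (m + 1)) :
    (sdF S i : ℕ) = shiftDown (JS S) i := rfl

lemma sdF_mem {m : ℕ} (S : Finset (Fin (m + 1))) (hS : S.Nonempty) (i : Fin (m + 1))
    (hi : i ∈ S) : sdF S i = S.min' hS := by
  apply Fin.ext
  rw [sdF_val]
  unfold shiftDown
  rw [if_pos (by rw [JS_fin]; simpa using hi)]
  apply le_antisymm
  · apply Nat.sInf_le
    show JS S _ = true
    rw [JS_fin]
    simpa using S.min'_mem hS
  · have hm : sInf {y | JS S y = true} ∈ {y | JS S y = true} :=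
      Nat.sInf_mem ⟨i, by show JS S i = true; rw [JS_fin]; simpa using hi⟩
    have hm' : JS S (sInf {y | JS S y = true}) = true := hm
    unfold JS at hm'
    rw [decide_eq_true_iff] at hm'
    obtain ⟨h, hh⟩ := hm'
    exact S.min'_le _ hh

lemma sdF_notMem_ne {m : ℕ} (S : Finset (Fin (m + 1))) (hS : S.Nonempty) (i : Fin (m + 1))
    (hi : i ∉ S) : sdF S i ≠ S.min' hS := by
  rw [← sdF_mem S hS (S.min' hS) (S.min'_mem hS)]
  intro h
  have h2 := congrArg Fin.val h
  rw [sdF_val, sdF_val] at h2
  refine sd_ne (JS S) ?_ ?_ h2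
  · rw [JS_fin]; simpa using hi
  · rw [JS_fin]; simpa using S.min'_mem hS

lemma sdF_inj {m : ℕ} (S : Finset (Fin (m + 1))) (i j : Fin (m + 1))
    (hi : i ∉ S) (hj : j ∉ S) (h : sdF S i = sdF S j) : i = j := by
  have h2 := congrArg Fin.val h
  rw [sdF_val, sdF_val] at h2
  have hi' : JS S i = false := by rw [JS_fin]; simpa using hi
  have hj' : JS S j = false := by rw [JS_fin]; simpa using hj
  rcases lt_trichotomy i.1 j.1 with hl | hl | hl
  · exact absurd h2 (sd_lt (JS S) hi' hj' hl).ne
  · exact Fin.ext hl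
  · exact absurd h2 (sd_lt (JS S) hj' hi' hl).ne'

lemma sdF_zero {m : ℕ} (S : Finset (Fin (m + 1))) : sdF S 0 = 0 := by
  apply Fin.ext
  rw [sdF_val]
  exact sd_zero _

lemma sdF_of_card {m : ℕ} (S : Finset (Fin (m + 1))) (hS : S.card ≤ 1) (i : Fin (m + 1)) :
    sdF S i = i := by
  apply Fin.ext
  rw [sdF_val]
  apply sd_of_not_rel _ m _ _ (Nat.lt_succ_iff.1 i.2)
  unfold Rel
  rw [Nat.count_eq_card_filter_range]
  have : ((Finset.range (m + 1)).filter fun y => JS S y = true) = S.map Fin.valEmbedding := by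
    ext y
    simp only [Finset.mem_filter, Finset.mem_range, Finset.mem_map, Fin.valEmbedding_apply]
    constructor
    · rintro ⟨h1, h2⟩
      unfold JS at h2
      rw [decide_eq_true_iff] at h2
      obtain ⟨h, hh⟩ := h2
      exact ⟨_, hh, rfl⟩
    · rintro ⟨a, ha, rfl⟩
      refine ⟨a.2, ?_⟩
      rw [JS_fin]
      simpa using ha
  rw [this, Finset.card_map]
  omega

lemma sdF_empty {m : ℕ} (i : Fin (m + 1)) : sdF (∅ : Finset (Fin (m + 1))) i = i :=
  sdF_of_card _ (by simp) i

end Pool.Agent.H89.FV
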